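import Pool.Agent.Helper68.AW.Slots

/-!
# AW-8: the excluded rotation patterns in terms of vertices
-/

set_option autoImplicit false

namespace Pool.Agent.Helper68.AW

open Pool.Agent.Helper52.AH Pool.Agent.Helper31.AH Pool.Agent.Helper68.AV

variable {V : Type} [Fintype V] [DecidableEq V] {G : SimpleGraph V} [DecidableRel G.Adj]

theorem ap_three (R : Rot G) (d : G.Dart) (h : G.degree d.fst = 3) :
    R.σ (R.σ (R.σ d)) = d := by
  have h1 := pow_deg R d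
  rw [h] at h1
  exact h1

theorem ap_cases (R : Rot G) (d d' : G.Dart) (h : G.degree d.fst = 3) (hf : d'.fst = d.fst)
    (hne : d' ≠ d) : d' = R.σ d ∨ d' = R.σ (R.σ d) := by
  obtain ⟨k, hk, h1⟩ := pow_surj R d d' hf
  rw [h] at hk
  interval_cases k
  · exact absurd h1.symm hne
  · exact Or.inl h1.symm
  · exact Or.inr h1.symm

/-- the knowledge about one dart at the end -/
theorem ap_any (R : Rot G) (d e : G.Dart) (h : G.degree d.snd = 3) (hf : e.fst = d.snd)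
    (hne : e ≠ d.symm) {K : Kn} (hK : Sat R K e) : Sat R (Kn.node K Kn.any) d := by
  refine ⟨h, ?_⟩
  rcases ap_cases R d.symm e h hf hne with h1 | h1
  · left
    rw [← h1]
    exact ⟨hK, trivial⟩
  · right
    rw [← h1]
    exact ⟨trivial, hK⟩

/-- the knowledge about both darts at the end -/
theorem ap_node (R : Rot G) (d e e' : G.Dart) (h : G.degree d.snd = 3) (hf : e.fst = d.snd)
    (hf' : e'.fst = d.snd) (hne : e ≠ d.symm) (hne' : e' ≠ d.symm) (hee : e ≠ e') {K K' : Kn}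
    (hK : Sat R K e) (hK' : Sat R K' e') : Sat R (Kn.node K K') d := by
  refine ⟨h, ?_⟩
  rcases ap_cases R d.symm e h hf hne with h1 | h1
  · rcases ap_cases R d.symm e' h hf' hne' with h2 | h2
    · exact absurd (h1.trans h2.symm) hee
    · left
      rw [← h1]
      have h3 : R.σ e = e' := by rw [h1, h2]
      rw [h3]
      exact ⟨hK, hK'⟩
  · rcases ap_cases R d.symm e' h hf' hne' with h2 | h2
    · right
      rw [← h2]
      have h3 : R.σ e' = e := by rw [h1, h2]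
      rw [h3]
      exact ⟨hK', hK⟩
    · exact absurd (h1.trans h2.symm) hee

theorem ap_ne {x y v : V} (hxy : G.Adj x y) (hvx : G.Adj v x) (h : y ≠ v) :
    (⟨(x, y), hxy⟩ : G.Dart) ≠ (⟨(v, x), hvx⟩ : G.Dart).symm := by
  intro h1
  have h2 := congrArg (fun d : G.Dart => d.snd) h1
  exact h h2

theorem ap_ne' {x y z : V} (hy : G.Adj x y) (hz : G.Adj x z) (h : y ≠ z) :
    (⟨(x, y), hy⟩ : G.Dart) ≠ (⟨(x, z), hz⟩ : G.Dart) := by
  intro h1
  have h2 := congrArg (fun d : G.Dart => d.snd) h1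
  exact h h2

theorem ap_near (R : Rot G) {v x : V} (hvx : G.Adj v x) (hv : dg G v = 3) (hx : Nr G x) :
    Sat R near ⟨(v, x), hvx⟩ := by
  obtain ⟨h3, y, hy, h2⟩ := hx
  have hyv : y ≠ v := by
    rintro rfl
    omega
  refine ap_any R _ (⟨(x, y), hy⟩ : G.Dart) ?_ rfl (ap_ne hy hvx hyv) ?_
  · rw [← dg_eq]
    exact h3
  · show G.degree y = 2
    rw [← dg_eq]
    exact h2

theorem ap_pair (R : Rot G) {v x : V} (hvx : G.Adj v x) (hv : dg G v = 3) (hnv : ¬ Nr G v)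
    (hx : Pr G x) : Sat R pair ⟨(v, x), hvx⟩ := by
  obtain ⟨⟨h3, y, hy, h2⟩, u, hu, hNu⟩ := hx
  have hyv : y ≠ v := by
    rintro rfl
    omega
  have huv : u ≠ v := by
    rintro rfl
    exact hnv hNu
  have hyu : y ≠ u := by
    rintro rfl
    have := hNu.1
    omega
  refine ap_node R _ (⟨(x, y), hy⟩ : G.Dart) (⟨(x, u), hu⟩ : G.Dart) ?_ rfl rfl (ap_ne hy hvx hyv)
    (ap_ne hu hvx huv) (ap_ne' hy hu hyu) ?_ (ap_near R hu h3 hNu)
  · rw [← dg_eq]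
    exact h3
  · show G.degree y = 2
    rw [← dg_eq]
    exact h2

theorem ap_T2 (R : Rot G) {v x y z : V} (hvx : G.Adj v x) (hnv : ¬ Nr G v)
    (h3 : dg G x = 3) (hy : G.Adj x y) (hz : G.Adj x z) (hyz : y ≠ z) (hNy : Nr G y) (hNz : Nr G z) :
    Sat R T2 ⟨(v, x), hvx⟩ := by
  have hyv : y ≠ v := by
    rintro rfl
    exact hnv hNy
  have hzv : z ≠ v := by
    rintro rfl
    exact hnv hNz
  refine ap_node R _ (⟨(x, y), hy⟩ : G.Dart) (⟨(x, z), hz⟩ : G.Dart) ?_ rfl rfl (ap_ne hy hvx hyv)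
    (ap_ne hz hvx hzv) (ap_ne' hy hz hyz) (ap_near R hy h3 hNy) (ap_near R hz h3 hNz)
  rw [← dg_eq]
  exact h3

/-- two special darts at a vertex -/
theorem ap_two (R : Rot G) {K : Kn} (h : Ex R K K Kn.any) {a x y : V} (ha : dg G a = 3)
    (hx : G.Adj a x) (hy : G.Adj a y) (hxy : x ≠ y) (h1 : Sat R K ⟨(a, x), hx⟩)
    (h2 : Sat R K ⟨(a, y), hy⟩) : False := by
  have hdx : G.degree (⟨(a, x), hx⟩ : G.Dart).fst = 3 := by
    show G.degree a = 3
    rw [← dg_eq]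
    exact ha
  rcases ap_cases R (⟨(a, x), hx⟩ : G.Dart) ⟨(a, y), hy⟩ hdx rfl (ap_ne' hy hx hxy.symm) with h3 | h3
  · exact h _ hdx h1 (by rw [← h3]; exact h2) trivial
  · have h4 : R.σ (⟨(a, y), hy⟩ : G.Dart) = ⟨(a, x), hx⟩ := by
      rw [h3]
      exact ap_three R _ hdx
    exact h ⟨(a, y), hy⟩ hdx h2 (by rw [h4]; exact h1) trivial

/-- one dart and two near ones -/
theorem ap_one (R : Rot G) {K : Kn} (h : Ex R K near near) {v d x y : V} (hv : dg G v = 3)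
    (hd : G.Adj v d) (hx : G.Adj v x) (hy : G.Adj v y) (hdx : d ≠ x) (hdy : d ≠ y) (hxy : x ≠ y)
    (hNx : Nr G x) (hNy : Nr G y) (h1 : Sat R K ⟨(v, d), hd⟩) : False := by
  have hdeg : G.degree (⟨(v, d), hd⟩ : G.Dart).fst = 3 := by
    show G.degree v = 3
    rw [← dg_eq]
    exact hv
  have nx := ap_near R hx hv hNx
  have ny := ap_near R hy hv hNy
  rcases ap_cases R (⟨(v, d), hd⟩ : G.Dart) ⟨(v, x), hx⟩ hdeg rfl (ap_ne' hx hd hdx.symm) with h3 | h3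
  · rcases ap_cases R (⟨(v, d), hd⟩ : G.Dart) ⟨(v, y), hy⟩ hdeg rfl (ap_ne' hy hd hdy.symm) with h4 | h4
    · exact ap_ne' hx hy hxy (h3.trans h4.symm)
    · exact h _ hdeg h1 (by rw [← h3]; exact nx) (by rw [← h4]; exact ny)
  · rcases ap_cases R (⟨(v, d), hd⟩ : G.Dart) ⟨(v, y), hy⟩ hdeg rfl (ap_ne' hy hd hdy.symm) with h4 | h4
    · exact h _ hdeg h1 (by rw [← h4]; exact ny) (by rw [← h3]; exact nx)
    · exact ap_ne' hx hy hxy (h3.trans h4.symm)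

theorem hPP_of (R : Rot G) (hd : ∀ v, dg G v ≤ 3)
    (h5 : ∀ u w, G.Adj u w → 5 ≤ dg G u + dg G w) (h : Ex R pair pair Kn.any) :
    ∀ a x y, dg G a = 3 → ¬ Nr G a → G.Adj a x → G.Adj a y → x ≠ y → Pr G x → ¬ Pr G y := by
  intro a x y ha hna hx hy hxy hPx hPy
  exact ap_two R h ha hx hy hxy (ap_pair R hx ha hna hPx) (ap_pair R hy ha hna hPy)

theorem hT2SS_of (R : Rot G) (hd : ∀ v, dg G v ≤ 3)
    (h5 : ∀ u w, G.Adj u w → 5 ≤ dg G u + dg G w) (h : Ex R T2 near near) :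
    ∀ v d x y u w, dg G v = 3 → ¬ Nr G v → G.Adj v d → G.Adj v x → G.Adj v y → d ≠ x → d ≠ y → x ≠ y →
      Nr G x → Nr G y → dg G d = 3 → G.Adj d u → G.Adj d w → u ≠ w → Nr G u → ¬ Nr G w := by
  intro v d x y u w hv hnv hd' hx hy hdx hdy hxy hNx hNy h3 hu hw huw hNu hNw
  exact ap_one R h hv hd' hx hy hdx hdy hxy hNx hNy (ap_T2 R hd' hnv h3 hu hw huw hNu hNw)

theorem hT2P_of (R : Rot G) (hd : ∀ v, dg G v ≤ 3)
    (h5 : ∀ u w, G.Adj u w → 5 ≤ dg G u + dg G w) (h : Ex R (Kn.node pair Kn.any) near near) :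
    ∀ v d x y u, dg G v = 3 → ¬ Nr G v → G.Adj v d → G.Adj v x → G.Adj v y → d ≠ x → d ≠ y → x ≠ y →
      Nr G x → Nr G y → dg G d = 3 → ¬ Nr G d → G.Adj d u → ¬ Pr G u := by
  intro v d x y u hv hnv hd' hx hy hdx hdy hxy hNx hNy h3 hnd hu hPu
  have huv : u ≠ v := by
    rintro rfl
    exact hnv hPu.1
  refine ap_one R h hv hd' hx hy hdx hdy hxy hNx hNy ?_
  refine ap_any R _ (⟨(d, u), hu⟩ : G.Dart) ?_ rfl (ap_ne hu hd' huv) (ap_pair R hu h3 hnd hPu)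
  show G.degree d = 3
  rw [← dg_eq]
  exact h3

theorem hT2T2_of (R : Rot G) (hd : ∀ v, dg G v ≤ 3)
    (h5 : ∀ u w, G.Adj u w → 5 ≤ dg G u + dg G w) (h : Ex R T2 T2 Kn.any) :
    ∀ d a b x y z w, dg G d = 3 → ¬ Nr G d → G.Adj d a → G.Adj d b → a ≠ b → dg G a = 3 → dg G b = 3 →
      G.Adj a x → G.Adj a y → x ≠ y → Nr G x → Nr G y → G.Adj b z → G.Adj b w → z ≠ w → Nr G z →
      ¬ Nr G w := by
  intro d a b x y z w hd3 hnd ha hb hab ha3 hb3 hx hy hxy hNx hNy hz hw hzw hNz hNw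
  exact ap_two R h hd3 ha hb hab (ap_T2 R ha hnd ha3 hx hy hxy hNx hNy)
    (ap_T2 R hb hnd hb3 hz hw hzw hNz hNw)

end Pool.Agent.Helper68.AW
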