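import Pool.Agent.Helper68.AW.Apply

/-!
# AW-12: the configurations of project AV as excluded rotation patterns
-/

set_option autoImplicit false

namespace Pool.Agent.Helper68.AW

open Pool.Agent.Helper52.AH Pool.Agent.Helper31.AH Pool.Agent.Helper68.AV

variable {V : Type} [Fintype V] [DecidableEq V] {G : SimpleGraph V} [DecidableRel G.Adj]

private theorem bp_three (R : Rot G) (d : G.Dart) (h : G.degree d.fst = 3) :
    R.σ (R.σ (R.σ d)) = d := by
  have h1 := pow_deg R d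
  rw [h] at h1
  exact h1

private theorem bp_cases (R : Rot G) (d d' : G.Dart) (h : G.degree d.fst = 3) (hf : d'.fst = d.fst)
    (hne : d' ≠ d) : d' = R.σ d ∨ d' = R.σ (R.σ d) := by
  obtain ⟨k, hk, h1⟩ := pow_surj R d d' hf
  rw [h] at hk
  interval_cases k
  · exact absurd h1.symm hne
  · exact Or.inl h1.symm
  · exact Or.inr h1.symm

/-- the knowledge about one dart at the end -/
private theorem bp_any (R : Rot G) (d e : G.Dart) (h : G.degree d.snd = 3) (hf : e.fst = d.snd)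
    (hne : e ≠ d.symm) {K : Kn} (hK : Sat R K e) : Sat R (Kn.node K Kn.any) d := by
  refine ⟨h, ?_⟩
  rcases bp_cases R d.symm e h hf hne with h1 | h1
  · left
    rw [← h1]
    exact ⟨hK, trivial⟩
  · right
    rw [← h1]
    exact ⟨trivial, hK⟩

private theorem bp_ne {x y v : V} (hxy : G.Adj x y) (hvx : G.Adj v x) (h : y ≠ v) :
    (⟨(x, y), hxy⟩ : G.Dart) ≠ (⟨(v, x), hvx⟩ : G.Dart).symm := by
  intro h1
  have h2 := congrArg (fun d : G.Dart => d.snd) h1
  exact h h2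

private theorem bp_ne' {x y z : V} (hy : G.Adj x y) (hz : G.Adj x z) (h : y ≠ z) :
    (⟨(x, y), hy⟩ : G.Dart) ≠ (⟨(x, z), hz⟩ : G.Dart) := by
  intro h1
  have h2 := congrArg (fun d : G.Dart => d.snd) h1
  exact h h2

private theorem bp_near (R : Rot G) {v x : V} (hvx : G.Adj v x) (hv : dg G v = 3) (hx : Nr G x) :
    Sat R near ⟨(v, x), hvx⟩ := by
  obtain ⟨h3, y, hy, h2⟩ := hx
  have hyv : y ≠ v := by
    rintro rfl
    omega
  refine bp_any R _ (⟨(x, y), hy⟩ : G.Dart) ?_ rfl (bp_ne hy hvx hyv) ?_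
  · rw [← dg_eq]
    exact h3
  · show G.degree y = 2
    rw [← dg_eq]
    exact h2

/-- two special darts at a vertex -/
private theorem bp_two (R : Rot G) {K : Kn} (h : Ex R K K Kn.any) {a x y : V} (ha : dg G a = 3)
    (hx : G.Adj a x) (hy : G.Adj a y) (hxy : x ≠ y) (h1 : Sat R K ⟨(a, x), hx⟩)
    (h2 : Sat R K ⟨(a, y), hy⟩) : False := by
  have hdx : G.degree (⟨(a, x), hx⟩ : G.Dart).fst = 3 := by
    show G.degree a = 3
    rw [← dg_eq]
    exact ha
  rcases bp_cases R (⟨(a, x), hx⟩ : G.Dart) ⟨(a, y), hy⟩ hdx rfl (bp_ne' hy hx hxy.symm) with h3 | h3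
  · exact h _ hdx h1 (by rw [← h3]; exact h2) trivial
  · have h4 : R.σ (⟨(a, y), hy⟩ : G.Dart) = ⟨(a, x), hx⟩ := by
      rw [h3]
      exact bp_three R _ hdx
    exact h ⟨(a, y), hy⟩ hdx h2 (by rw [h4]; exact h1) trivial

/-- one dart and two near ones -/
private theorem bp_one (R : Rot G) {K : Kn} (h : Ex R K near near) {v d x y : V} (hv : dg G v = 3)
    (hd : G.Adj v d) (hx : G.Adj v x) (hy : G.Adj v y) (hdx : d ≠ x) (hdy : d ≠ y) (hxy : x ≠ y)
    (hNx : Nr G x) (hNy : Nr G y) (h1 : Sat R K ⟨(v, d), hd⟩) : False := by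
  have hdeg : G.degree (⟨(v, d), hd⟩ : G.Dart).fst = 3 := by
    show G.degree v = 3
    rw [← dg_eq]
    exact hv
  have nx := bp_near R hx hv hNx
  have ny := bp_near R hy hv hNy
  rcases bp_cases R (⟨(v, d), hd⟩ : G.Dart) ⟨(v, x), hx⟩ hdeg rfl (bp_ne' hx hd hdx.symm) with h3 | h3
  · rcases bp_cases R (⟨(v, d), hd⟩ : G.Dart) ⟨(v, y), hy⟩ hdeg rfl (bp_ne' hy hd hdy.symm) with h4 | h4
    · exact bp_ne' hx hy hxy (h3.trans h4.symm)
    · exact h _ hdeg h1 (by rw [← h3]; exact nx) (by rw [← h4]; exact ny)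
  · rcases bp_cases R (⟨(v, d), hd⟩ : G.Dart) ⟨(v, y), hy⟩ hdeg rfl (bp_ne' hy hd hdy.symm) with h4 | h4
    · exact h _ hdeg h1 (by rw [← h4]; exact ny) (by rw [← h3]; exact nx)
    · exact bp_ne' hx hy hxy (h3.trans h4.symm)

theorem h2_ofB (R : Rot G) (hd : ∀ v, dg G v ≤ 3)
    (h5 : ∀ u w, G.Adj u w → 5 ≤ dg G u + dg G w) (h : Ex R Kn.two Kn.two Kn.any) :
    ∀ v x y, G.Adj v x → G.Adj v y → x ≠ y → dg G x = 2 → dg G y ≠ 2 := by
  intro v x y hx hy hxy h2x h2y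
  have hv : dg G v = 3 := by
    have h6 := h5 v x hx
    have h7 := hd v
    omega
  refine bp_two R h hv hx hy hxy ?_ ?_
  · show G.degree x = 2
    rw [← dg_eq]
    exact h2x
  · show G.degree y = 2
    rw [← dg_eq]
    exact h2y

theorem hcomb_of (R : Rot G) (hd : ∀ v, dg G v ≤ 3)
    (h5 : ∀ u w, G.Adj u w → 5 ≤ dg G u + dg G w) (h : Ex R Kn.two near near) :
    ∀ u v w x y z, G.Adj v u → G.Adj v w → u ≠ w → dg G u = 3 → dg G v = 3 → dg G w = 3 →
      G.Adj u x → G.Adj v y → G.Adj w z → dg G x = 2 → dg G y = 2 → dg G z ≠ 2 := by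
  intro u v w x y z hu hw huw h3u h3v h3w hx hy hz h2x h2y h2z
  have hyu : y ≠ u := by
    rintro rfl
    omega
  have hyw : y ≠ w := by
    rintro rfl
    omega
  refine bp_one R h h3v hy hu hw hyu hyw huw ⟨h3u, x, hx, h2x⟩ ⟨h3w, z, hz, h2z⟩ ?_
  show G.degree y = 2
  rw [← dg_eq]
  exact h2y

theorem hclaw_of (R : Rot G) (hd : ∀ v, dg G v ≤ 3)
    (h5 : ∀ u w, G.Adj u w → 5 ≤ dg G u + dg G w) (h : Ex R near near near) :
    ∀ v u w t x y z, G.Adj v u → G.Adj v w → G.Adj v t → u ≠ w → u ≠ t → w ≠ t →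
      dg G v = 3 → dg G u = 3 → dg G w = 3 → dg G t = 3 → G.Adj u x → G.Adj w y → G.Adj t z →
      dg G x = 2 → dg G y = 2 → dg G z ≠ 2 := by
  intro v u w t x y z hu hw ht huw hut hwt h3v h3u h3w h3t hx hy hz h2x h2y h2z
  exact bp_one R h h3v hu hw ht huw hut hwt ⟨h3w, y, hy, h2y⟩ ⟨h3t, z, hz, h2z⟩
    (bp_near R hu h3v ⟨h3u, x, hx, h2x⟩)

end Pool.Agent.Helper68.AW
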