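import Pool.Agent.Helper68.AW.Defs

/-!
# Project AW (MP_028d9b_co): the search with two checks
-/

set_option autoImplicit false

namespace Pool.Agent.Helper68.AW

theorem explore_mono {c1 c2 : Pat → Bool} (hc : ∀ q, c1 q = true → c2 q = true) {n : ℕ}
    {w : List ((ℕ × ℕ) × Kn)} {p : Pat} (h : explore c1 n w p = true) : explore c2 n w p = true := by
  induction n generalizing w p with
  | zero => exact absurd h Bool.false_ne_true
  | succ n ih =>
    cases w with
    | nil => exact hc p h
    | cons x w =>
      obtain ⟨⟨i, k⟩, K⟩ := x
      unfold explore at h ⊢
      by_cases hK : K = Kn.any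
      · rw [if_pos hK] at h ⊢
        exact ih h
      · rw [if_neg hK] at h ⊢
        cases hs : slot p i k with
        | some y =>
          obtain ⟨j, l⟩ := y
          rw [hs] at h
          simp only [Bool.or_eq_true, List.all_eq_true] at h ⊢
          rcases h with h | h
          · exact Or.inl h
          · exact Or.inr fun u hu => ih (h u hu)
        | none =>
          rw [hs] at h
          simp only [Bool.and_eq_true, Bool.or_eq_true, List.all_eq_true] at h ⊢
          refine ⟨fun j hj => ?_, fun u hu => ih (h.2 u hu)⟩
          rcases h.1 j hj with h1 | h1
          · exact Or.inl h1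
          · refine Or.inr fun l hl => ?_
            rcases h1 l hl with h2 | h2
            · exact Or.inl h2
            · exact Or.inr fun u hu => ih (h2 u hu)

theorem explore_split {c1 c2 : Pat → Bool} {n : ℕ} {w : List ((ℕ × ℕ) × Kn)} {p : Pat}
    (h1 : explore c1 n w p = true) (h2 : explore c2 n w p = true) :
    explore (fun q => c1 q && c2 q) n w p = true := by
  induction n generalizing w p with
  | zero => exact absurd h1 Bool.false_ne_true
  | succ n ih =>
    cases w with
    | nil =>
      show (c1 p && c2 p) = true
      rw [Bool.and_eq_true]
      exact ⟨h1, h2⟩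
    | cons x w =>
      obtain ⟨⟨i, k⟩, K⟩ := x
      unfold explore at h1 h2 ⊢
      by_cases hK : K = Kn.any
      · rw [if_pos hK] at h1 h2 ⊢
        exact ih h1 h2
      · rw [if_neg hK] at h1 h2 ⊢
        cases hs : slot p i k with
        | some y =>
          obtain ⟨j, l⟩ := y
          rw [hs] at h1 h2
          simp only [Bool.or_eq_true, List.all_eq_true] at h1 h2 ⊢
          rcases h1 with h1 | h1
          · exact Or.inl h1
          · rcases h2 with h2 | h2
            · exact Or.inl h2
            · exact Or.inr fun u hu => ih (h1 u hu) (h2 u hu)
        | none =>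
          rw [hs] at h1 h2
          simp only [Bool.and_eq_true, Bool.or_eq_true, List.all_eq_true] at h1 h2 ⊢
          refine ⟨fun j hj => ?_, fun u hu => ih (h1.2 u hu) (h2.2 u hu)⟩
          rcases h1.1 j hj with h3 | h3
          · exact Or.inl h3
          · rcases h2.1 j hj with h4 | h4
            · exact Or.inl h4
            · refine Or.inr fun l hl => ?_
              rcases h3 l hl with h5 | h5
              · exact Or.inl h5
              · rcases h4 l hl with h6 | h6
                · exact Or.inl h6
                · exact Or.inr fun u hu => ih (h5 u hu) (h6 u hu)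

end Pool.Agent.Helper68.AW
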