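import Pool.Agent.Helper68.AW.Leaf
import Pool.Agent.Helper68.AW.Split

/-!
# Project AW (MP_028d9b_co): from the parts to the whole check
-/

set_option autoImplicit false

namespace Pool.Agent.Helper68.AW

theorem blt_iff {a b : ℕ} : Nat.blt a b = true ↔ a < b := by rw [Nat.blt_eq]

theorem beq_iff {a b : ℕ} : Nat.beq a b = true ↔ a = b := by rw [Nat.beq_eq]

theorem cls_lt {r a b : ℕ} (ha : 0 < a) (hb : 0 < b) (q : Pat) : cls r a b q < a + b := by
  unfold cls
  cases Nat.beq (rings q).length r with
  | true =>
    show Nat.mod (hsh q) a < a + b
    exact lt_of_lt_of_le (Nat.mod_lt _ ha) (Nat.le_add_right a b)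
  | false =>
    show a + Nat.mod (hsh q) b < a + b
    exact Nat.add_lt_add_left (Nat.mod_lt _ hb) a

theorem root_parts (cl : Pat → ℕ) (K : ℕ) (hcl : ∀ q, cl q < K) {K0 K1 K2 : Kn}
    (h : ∀ k, k < K → root (part cl k) K0 K1 K2 = true) : root leafC K0 K1 K2 = true := by
  have h0 : 0 < K := Nat.zero_lt_of_lt (hcl [])
  have key : ∀ j, j ≤ K → root (fun q => !(Nat.blt (cl q) j) || leafC q) K0 K1 K2 = true := by
    intro j
    induction j with
    | zero =>
      intro _
      refine explore_mono (c1 := part cl 0) ?_ (h 0 h0)
      intro q _
      have : Nat.blt (cl q) 0 = false := by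
        rw [← Bool.not_eq_true]
        intro hb
        exact Nat.not_lt_zero _ (blt_iff.1 hb)
      show (!(Nat.blt (cl q) 0) || leafC q) = true
      rw [this]
      rfl
    | succ j ih =>
      intro hj
      refine explore_mono ?_ (explore_split (ih (by omega)) (h j (by omega)))
      intro q hq
      simp only [Bool.and_eq_true, Bool.or_eq_true, Bool.not_eq_true'] at hq ⊢
      obtain ⟨h1, h2⟩ := hq
      by_cases hlt : cl q < j + 1
      · right
        rcases h1 with h1 | h1
        · have h3 : ¬ cl q < j := by
            intro hc
            have := blt_iff.2 hc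
            rw [h1] at this
            exact Bool.false_ne_true this
          have h4 : cl q = j := by omega
          have h5 : Nat.beq (cl q) j = true := beq_iff.2 h4
          unfold part at h2
          rw [h5] at h2
          exact h2
        · exact h1
      · left
        rw [← Bool.not_eq_true]
        intro hb
        exact hlt (blt_iff.1 hb)
  refine explore_mono ?_ (key K le_rfl)
  intro q hq
  have h1 : Nat.blt (cl q) K = true := blt_iff.2 (hcl q)
  simp only [h1, Bool.not_true, Bool.false_or] at hq
  exact hq

end Pool.Agent.Helper68.AW
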