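import Pool.Agent.Helper68.AW.CertPP0
import Pool.Agent.Helper68.AW.Parts

/-!
# Project AW (MP_028d9b_co): certificates
-/

set_option autoImplicit false

namespace Pool.Agent.Helper68.AW

theorem cert_PP : root leafC pair pair Kn.any = true := by
  refine root_parts (cls 7 1 1) 2 (fun q => cls_lt (by norm_num) (by norm_num) q) ?_
  intro k hk
  interval_cases k
  · exact cert_PP_0
  · exact cert_PP_1

end Pool.Agent.Helper68.AW
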