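import Pool.Agent.Helper68.AW.CertTP0
import Pool.Agent.Helper68.AW.CertTP1
import Pool.Agent.Helper68.AW.CertTP2
import Pool.Agent.Helper68.AW.Parts

/-!
# Project AW (MP_028d9b_co): certificates
-/

set_option autoImplicit false

namespace Pool.Agent.Helper68.AW

theorem cert_TP : root leafC (Kn.node pair Kn.any) near near = true := by
  refine root_parts (cls 8 1 4) 5 (fun q => cls_lt (by norm_num) (by norm_num) q) ?_
  intro k hk
  interval_cases k
  · exact cert_TP_0
  · exact cert_TP_1
  · exact cert_TP_2
  · exact cert_TP_3
  · exact cert_TP_4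

end Pool.Agent.Helper68.AW
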