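import Pool.Agent.Helper68.AW.CertTT0
import Pool.Agent.Helper68.AW.CertTT1
import Pool.Agent.Helper68.AW.CertTT2
import Pool.Agent.Helper68.AW.CertTT3
import Pool.Agent.Helper68.AW.CertTT4
import Pool.Agent.Helper68.AW.CertTT5
import Pool.Agent.Helper68.AW.Parts

/-!
# Project AW (MP_028d9b_co): certificates
-/

set_option autoImplicit false

namespace Pool.Agent.Helper68.AW

theorem cert_TT : root leafC T2 T2 Kn.any = true := by
  refine root_parts (cls 9 4 4) 8 (fun q => cls_lt (by norm_num) (by norm_num) q) ?_
  intro k hk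
  interval_cases k
  · exact cert_TT_0
  · exact cert_TT_1
  · exact cert_TT_2
  · exact cert_TT_3
  · exact cert_TT_4
  · exact cert_TT_5
  · exact cert_TT_6
  · exact cert_TT_7

end Pool.Agent.Helper68.AW
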