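import Pool.Agent.Helper68.AW.Leaf

/-!
# Project AW (MP_028d9b_co): certificates
-/

set_option autoImplicit false

namespace Pool.Agent.Helper68.AW

theorem cert_TT_0 : root (part (cls 9 4 4) 0) T2 T2 Kn.any = true := by decide +kernel

end Pool.Agent.Helper68.AW
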