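import Pool.Agent.Helper68.AW.Mask

/-!
# Project AW (MP_028d9b_co), AW-10d: the states found by `colF` fit a colouring of the edges
-/

set_option autoImplicit false

namespace Pool.Agent.Helper68.AW

open Pool.Agent.Helper52.AH Pool.Agent.Helper31.AH Pool.Agent.Helper68.AV

/-- the bits for the colour `c` at the ends of `e` -/
private def cK (e : ℕ × ℕ) (c : ℕ) : ℕ := Nat.lor (2 ^ (3 * e.1 + c)) (2 ^ (3 * e.2 + c))

/-- the states without the colour `c` at the ends of `e` -/
private def cN (r : ℕ) (P : List ℕ) (e : ℕ × ℕ) (c : ℕ) : ℕ := avF r P e.1 c (avF r P e.2 c (full r))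

/-- the colours `cl` fit -/
private def Cnd (r : ℕ) (P : List ℕ) (s : ℕ → Fin 3) : ℕ → List (ℕ × ℕ) → List (Fin 3) → Prop
  | _, [], [] => True
  | W, e :: E, c :: cl => Nat.land W (cK e c.val) = 0 ∧ Mem r (cN r P e c.val) s ∧
      Cnd r P s (Nat.lor W (cK e c.val)) E cl
  | _, _, _ => False

private theorem edF_mem {r : ℕ} {P : List ℕ} {e x : ℕ × ℕ} (h : x ∈ edF r P e) :
    ∃ c : Fin 3, x = (cK e c.val, cN r P e c.val) := by
  simp only [edF, List.map_cons, List.map_nil, List.mem_cons, List.not_mem_nil, or_false] at h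
  rcases h with h | h | h
  · exact ⟨0, h⟩
  · exact ⟨1, h⟩
  · exact ⟨2, h⟩

private theorem colF_cons (cs : List (ℕ × ℕ)) (L : List (List (ℕ × ℕ))) (W m D : ℕ) :
    colF (cs :: L) W m D = foldF (fun D x => bif Nat.beq (Nat.land W x.1) 0 then
      force (Nat.lor W x.1) fun W' => force (salt (Nat.land m x.2)) fun m' => colF L W' m' D
      else D) cs D := rfl

private theorem foldF_cons {α : Type} (f : ℕ → α → ℕ) (a : α) (l : List α) (U : ℕ) :
    foldF f (a :: l) U = foldF f l (f U a) := by
  rw [foldF, force_eq]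

private theorem colF_main {r : ℕ} {P : List ℕ} {s : ℕ → Fin 3} (E : List (ℕ × ℕ)) :
    ∀ (L : List (List (ℕ × ℕ))), List.Forall₂ (fun e l => ∀ x ∈ l, x ∈ edF r P e) E L → ∀ W m D : ℕ,
      Mem r (colF L W m D) s → Mem r D s ∨ (Mem r m s ∧ ∃ cl : List (Fin 3), Cnd r P s W E cl) := by
  induction E with
  | nil =>
    intro L hL W m D h
    cases hL
    rw [colF] at h
    rcases mem_lor.1 h with h | h
    · exact Or.inl h
    · exact Or.inr ⟨h, [], trivial⟩
  | cons e E ih =>
    intro L hL W m D h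
    cases hL with
    | cons h1 h2 =>
      rename_i cs L
      rw [colF_cons] at h
      have key : ∀ (cs : List (ℕ × ℕ)), (∀ x ∈ cs, x ∈ edF r P e) → ∀ D : ℕ,
          Mem r (foldF (fun D x => bif Nat.beq (Nat.land W x.1) 0 then
            force (Nat.lor W x.1) fun W' => force (salt (Nat.land m x.2)) fun m' => colF L W' m' D
            else D) cs D) s → Mem r D s ∨ (Mem r m s ∧ ∃ cl : List (Fin 3), Cnd r P s W (e :: E) cl) := by
        intro cs
        induction cs with
        | nil =>
          intro _ D h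
          exact Or.inl h
        | cons x cs ihc =>
          intro hx D h
          rw [foldF_cons] at h
          rcases ihc (fun y hy => hx y (List.mem_cons_of_mem _ hy)) _ h with h3 | h3
          · by_cases hb : Nat.beq (Nat.land W x.1) 0 = true
            · simp only [hb, cond_true, force_eq] at h3
              rcases ih L h2 _ _ _ h3 with h4 | ⟨h4, cl, h5⟩
              · exact Or.inl h4
              · obtain ⟨c, hc⟩ := edF_mem (hx x List.mem_cons_self)
                have h6 := mem_land.1 (mem_salt.1 h4)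
                rw [hc] at h5 h6 hb
                exact Or.inr ⟨h6.1, c :: cl, Nat.eq_of_beq_eq_true hb, h6.2, h5⟩
            · have hb' : Nat.beq (Nat.land W x.1) 0 = false := eq_false_of_ne_true hb
              simp only [hb', cond_false] at h3
              exact Or.inl h3
          · exact Or.inr h3
      exact key cs h1 D h

private theorem cK_left (e : ℕ × ℕ) (c : ℕ) : (cK e c).testBit (3 * e.1 + c) = true := by
  change (2 ^ (3 * e.1 + c) ||| 2 ^ (3 * e.2 + c)).testBit (3 * e.1 + c) = true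
  rw [Nat.testBit_or, Nat.testBit_two_pow_self, Bool.true_or]

private theorem cK_right (e : ℕ × ℕ) (c : ℕ) : (cK e c).testBit (3 * e.2 + c) = true := by
  change (2 ^ (3 * e.1 + c) ||| 2 ^ (3 * e.2 + c)).testBit (3 * e.2 + c) = true
  rw [Nat.testBit_or, Nat.testBit_two_pow_self, Bool.or_true]

private theorem land_zero {W K i : ℕ} (h : Nat.land W K = 0) (hi : K.testBit i = true) : W.testBit i = false := by
  have h1 : (W &&& K).testBit i = false := by
    change (Nat.land W K).testBit i = false
    rw [h, Nat.zero_testBit]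
  rw [Nat.testBit_and, hi, Bool.and_true] at h1
  exact h1

private theorem lor_false {W K i : ℕ} (h : (Nat.lor W K).testBit i = false) :
    W.testBit i = false ∧ K.testBit i = false := by
  have h1 : (W ||| K).testBit i = false := h
  rw [Nat.testBit_or, Bool.or_eq_false_iff] at h1
  exact h1

private theorem cnd_spec {r : ℕ} {P : List ℕ} {s : ℕ → Fin 3} (E : List (ℕ × ℕ)) :
    ∀ (cl : List (Fin 3)) (W : ℕ), Cnd r P s W E cl → cl.length = E.length ∧
      (∀ a ∈ E.zip cl, W.testBit (3 * a.1.1 + a.2.val) = false ∧ W.testBit (3 * a.1.2 + a.2.val) = false) ∧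
      (∀ a ∈ E.zip cl, Mem r (cN r P a.1 a.2.val) s) ∧
      (E.zip cl).Pairwise fun a b =>
        (a.1.1 = b.1.1 ∨ a.1.1 = b.1.2 ∨ a.1.2 = b.1.1 ∨ a.1.2 = b.1.2) → a.2 ≠ b.2 := by
  induction E with
  | nil =>
    intro cl W h
    cases cl with
    | nil => exact ⟨rfl, by simp, by simp, by simp⟩
    | cons c cl => exact h.elim
  | cons e E ih =>
    intro cl W h
    cases cl with
    | nil => exact h.elim
    | cons c cl =>
      obtain ⟨h1, h2, h3⟩ := h
      obtain ⟨i1, i2, i3, i4⟩ := ih cl _ h3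
      refine ⟨by rw [List.length_cons, List.length_cons, i1], ?_, ?_, ?_⟩
      · intro a ha
        rw [List.zip_cons_cons, List.mem_cons] at ha
        rcases ha with rfl | ha
        · exact ⟨land_zero h1 (cK_left e c.val), land_zero h1 (cK_right e c.val)⟩
        · exact ⟨(lor_false (i2 a ha).1).1, (lor_false (i2 a ha).2).1⟩
      · intro a ha
        rw [List.zip_cons_cons, List.mem_cons] at ha
        rcases ha with rfl | ha
        · exact h2
        · exact i3 a ha
      · rw [List.zip_cons_cons, List.pairwise_cons]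
        refine ⟨fun b hb hab hc => ?_, i4⟩
        have j1 := (lor_false (i2 b hb).1).2
        have j2 := (lor_false (i2 b hb).2).2
        have k1 := cK_left e c.val
        have k2 := cK_right e c.val
        dsimp only at hab hc
        rw [← hc] at j1 j2
        rcases hab with hab | hab | hab | hab
        · rw [hab, j1] at k1
          exact absurd k1 (by simp)
        · rw [hab, j2] at k1
          exact absurd k1 (by simp)
        · rw [hab, j1] at k2
          exact absurd k2 (by simp)
        · rw [hab, j2] at k2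
          exact absurd k2 (by simp)

private theorem avF_mem {r : ℕ} {P : List ℕ} {v c : ℕ} (hc : c < 3) {F : ℕ} {s : ℕ → Fin 3}
    (h : Mem r (avF r P v c F) s) : Mem r F s ∧ ∀ t, t < r → P.getD t (v + 1) = v → (s t).val ≠ c := by
  have key : ∀ (l : List ℕ) (F : ℕ), (∀ t ∈ l, t < r) → Mem r (foldF (fun m t =>
      bif Nat.beq (P.getD t (v + 1)) v then Nat.land m (Nat.xor (full r) (dm r t c)) else m) l F) s →
      Mem r F s ∧ ∀ t ∈ l, P.getD t (v + 1) = v → (s t).val ≠ c := by
    intro l
    induction l with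
    | nil =>
      intro F _ h
      exact ⟨h, fun t ht => absurd ht List.not_mem_nil⟩
    | cons t l ih =>
      intro F hl h
      rw [foldF_cons] at h
      obtain ⟨h1, h2⟩ := ih _ (fun u hu => hl u (List.mem_cons_of_mem _ hu)) h
      by_cases hb : Nat.beq (P.getD t (v + 1)) v = true
      · simp only [hb, cond_true] at h1
        obtain ⟨h3, h4⟩ := mem_land.1 h1
        refine ⟨h3, fun u hu => ?_⟩
        rw [List.mem_cons] at hu
        rcases hu with rfl | hu
        · intro _ h5
          have h6 := mem_xor.1 h4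
          have h7 : Mem r (dm r u c) s := by
            have h8 : s u = ⟨c, hc⟩ := Fin.ext h5
            exact (dm_mem (hl u List.mem_cons_self) ⟨c, hc⟩ s).2 h8
          exact h6 (iff_of_true (full_mem r s) h7)
        · exact h2 u hu
      · have hb' : Nat.beq (P.getD t (v + 1)) v = false := eq_false_of_ne_true hb
        simp only [hb', cond_false] at h1
        refine ⟨h1, fun u hu => ?_⟩
        rw [List.mem_cons] at hu
        rcases hu with rfl | hu
        · intro h5
          rw [h5] at hb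
          exact absurd (Nat.beq_refl v) hb
        · exact h2 u hu
  obtain ⟨h1, h2⟩ := key (List.range r) F (fun t ht => List.mem_range.1 ht) h
  exact ⟨h1, fun t ht => h2 t (List.mem_range.2 ht)⟩

private theorem cN_mem {r : ℕ} {P : List ℕ} {e : ℕ × ℕ} {c : ℕ} (hc : c < 3) {s : ℕ → Fin 3}
    (h : Mem r (cN r P e c) s) : ∀ t, t < r → (P.getD t (e.1 + 1) = e.1 ∨ P.getD t (e.2 + 1) = e.2) →
      (s t).val ≠ c := by
  obtain ⟨h1, h2⟩ := avF_mem hc h
  obtain ⟨-, h3⟩ := avF_mem hc h1
  intro t ht h4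
  rcases h4 with h4 | h4
  · exact h2 t ht h4
  · exact h3 t ht h4

private theorem cutF_sub {r : ℕ} {P : List ℕ} (E : List (ℕ × ℕ)) :
    List.Forall₂ (fun e l => ∀ x ∈ l, x ∈ edF r P e) E (cutF (E.map (edF r P))) := by
  have h0 : ∀ E : List (ℕ × ℕ), List.Forall₂ (fun e l => ∀ x ∈ l, x ∈ edF r P e) E (E.map (edF r P)) := by
    intro E
    induction E with
    | nil => exact List.Forall₂.nil
    | cons e E ih => exact List.Forall₂.cons (fun x hx => hx) ih
  match E with
  | [] => exact List.Forall₂.nil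
  | [e] => exact List.Forall₂.cons (fun x hx => List.mem_of_mem_take hx) List.Forall₂.nil
  | e :: e' :: E =>
    exact List.Forall₂.cons (fun x hx => List.mem_of_mem_take hx)
      (List.Forall₂.cons (fun x hx => List.mem_of_mem_take hx) (h0 E))

private theorem not_mem_zero (r : ℕ) (s : ℕ → Fin 3) : ¬ Mem r 0 s := by
  intro h
  rw [Mem, Nat.zero_testBit] at h
  exact absurd h (by simp)

theorem colF_sound {n : ℕ} {E : List (ℕ × ℕ)} {P : List ℕ} (hE : ∀ e ∈ E, e.1 ≤ n ∧ e.2 ≤ n)
    (hP : ∀ x ∈ P, x ≤ n) {s : ℕ → Fin 3}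
    (h : Mem P.length (colF (cutF (E.map (edF P.length P))) 0 (full P.length) 0) s) :
    ∃ e : List (Fin 3), good (mkC n E P) (fun t => s t.val) e := by
  rcases colF_main E _ (cutF_sub E) _ _ _ h with h1 | ⟨-, cl, h2⟩
  · exact absurd h1 (not_mem_zero _ s)
  obtain ⟨c1, -, c3, c4⟩ := cnd_spec E cl 0 h2
  have hof : ∀ x y, x ≤ n → y ≤ n → Fin.ofNat (n + 1) x = Fin.ofNat (n + 1) y → x = y := by
    intro x y hx hy hxy
    have h3 := congrArg Fin.val hxy
    rw [Fin.val_ofNat, Fin.val_ofNat, Nat.mod_eq_of_lt (by omega), Nat.mod_eq_of_lt (by omega)] at h3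
    exact h3
  have hz : (E.map fun e => ((Fin.ofNat (n + 1) e.1, Fin.ofNat (n + 1) e.2) : Fin (n + 1) × Fin (n + 1))).zip cl =
      (E.zip cl).map fun a => ((Fin.ofNat (n + 1) a.1.1, Fin.ofNat (n + 1) a.1.2), a.2) := by
    rw [List.zip_map_left]
    rfl
  have hmem : ∀ a ∈ E.zip cl, a.1.1 ≤ n ∧ a.1.2 ≤ n := fun a ha => hE a.1 (List.of_mem_zip ha).1
  have g1 : cl.length =
      (E.map fun e => ((Fin.ofNat (n + 1) e.1, Fin.ofNat (n + 1) e.2) : Fin (n + 1) × Fin (n + 1))).length := by
    rw [List.length_map, c1]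
  have g2 : ((E.map fun e => ((Fin.ofNat (n + 1) e.1, Fin.ofNat (n + 1) e.2) : Fin (n + 1) × Fin (n + 1))).zip
      cl).Pairwise fun a b =>
        (a.1.1 = b.1.1 ∨ a.1.1 = b.1.2 ∨ a.1.2 = b.1.1 ∨ a.1.2 = b.1.2) → a.2 ≠ b.2 := by
    rw [hz, List.pairwise_map]
    refine c4.imp_of_mem ?_
    intro a b ha hb hab h3
    have ha' := hmem a ha
    have hb' := hmem b hb
    refine hab ?_
    rcases h3 with h3 | h3 | h3 | h3
    · exact Or.inl (hof _ _ ha'.1 hb'.1 h3)
    · exact Or.inr (Or.inl (hof _ _ ha'.1 hb'.2 h3))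
    · exact Or.inr (Or.inr (Or.inl (hof _ _ ha'.2 hb'.1 h3)))
    · exact Or.inr (Or.inr (Or.inr (hof _ _ ha'.2 hb'.2 h3)))
  have g3 : ∀ a ∈ (E.map fun e => ((Fin.ofNat (n + 1) e.1, Fin.ofNat (n + 1) e.2) : Fin (n + 1) × Fin (n + 1))).zip
      cl, ∀ t : Fin P.length, (Fin.ofNat (n + 1) (P.getD t.val 0) = a.1.1 ∨
        Fin.ofNat (n + 1) (P.getD t.val 0) = a.1.2) → a.2 ≠ s t.val := by
    rw [hz]
    intro a ha t ht
    obtain ⟨a', ha', rfl⟩ := List.mem_map.1 ha
    have h3 := hmem a' ha'
    have h4 := cN_mem a'.2.isLt (c3 a' ha') t.val t.isLt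
    have h5 : ∀ d, P.getD t.val d = P[t.val]'t.isLt := fun d => List.getD_eq_getElem _ _ t.isLt
    have h6 : P.getD t.val 0 ≤ n := by
      rw [h5 0]
      exact hP _ (List.getElem_mem _)
    intro h7
    refine h4 ?_ (congrArg Fin.val h7.symm)
    rcases ht with ht | ht
    · left
      rw [h5 _, ← h5 0]
      exact hof _ _ h6 h3.1 ht
    · right
      rw [h5 _, ← h5 0]
      exact hof _ _ h6 h3.2 ht
  exact ⟨cl, g1, g2, g3⟩

end Pool.Agent.Helper68.AW
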