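import Pool.Agent.Helper68.AW.Defs

/-!
# Project AW (MP_028d9b_co): the count

`N` = the near vertices, `F` = the far vertices. `2 n2 ≤ |N| ≤ |F|` and `n3 = |N| + |F|`.
-/

set_option autoImplicit false

namespace Pool.Agent.Helper68.AW

open Pool.Agent.Helper52.AH Pool.Agent.Helper31.AH Pool.Agent.Helper68.AV

open Classical in
theorem countB {V : Type} [Fintype V] (G : SimpleGraph V) (hd : ∀ v, dg G v ≤ 3)
    (h5 : ∀ u w, G.Adj u w → 5 ≤ dg G u + dg G w)
    (h2 : ∀ v x y, G.Adj v x → G.Adj v y → x ≠ y → dg G x = 2 → dg G y ≠ 2)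
    (hcomb : ∀ u v w x y z, G.Adj v u → G.Adj v w → u ≠ w → dg G u = 3 → dg G v = 3 → dg G w = 3 →
      G.Adj u x → G.Adj v y → G.Adj w z → dg G x = 2 → dg G y = 2 → dg G z ≠ 2)
    (hclaw : ∀ v u w t x y z, G.Adj v u → G.Adj v w → G.Adj v t → u ≠ w → u ≠ t → w ≠ t →
      dg G v = 3 → dg G u = 3 → dg G w = 3 → dg G t = 3 → G.Adj u x → G.Adj w y → G.Adj t z →
      dg G x = 2 → dg G y = 2 → dg G z ≠ 2)
    (hPP : ∀ a x y, dg G a = 3 → ¬ Nr G a → G.Adj a x → G.Adj a y → x ≠ y → Pr G x → ¬ Pr G y)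
    (hT2SS : ∀ v d x y u w, dg G v = 3 → ¬ Nr G v → G.Adj v d → G.Adj v x → G.Adj v y → d ≠ x → d ≠ y →
      x ≠ y → Nr G x → Nr G y → dg G d = 3 → G.Adj d u → G.Adj d w → u ≠ w → Nr G u → ¬ Nr G w)
    (hT2P : ∀ v d x y u, dg G v = 3 → ¬ Nr G v → G.Adj v d → G.Adj v x → G.Adj v y → d ≠ x → d ≠ y →
      x ≠ y → Nr G x → Nr G y → dg G d = 3 → ¬ Nr G d → G.Adj d u → ¬ Pr G u)
    (hT2T2 : ∀ d a b x y z w, dg G d = 3 → ¬ Nr G d → G.Adj d a → G.Adj d b → a ≠ b → dg G a = 3 →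
      dg G b = 3 → G.Adj a x → G.Adj a y → x ≠ y → Nr G x → Nr G y → G.Adj b z → G.Adj b w → z ≠ w →
      Nr G z → ¬ Nr G w) :
    4 * (Finset.univ.filter fun v => dg G v = 2).card ≤ (Finset.univ.filter fun v => dg G v = 3).card := by
  set T : Finset V := Finset.univ.filter fun v => dg G v = 2 with hT
  set N : Finset V := Finset.univ.filter fun v => dg G v = 3 ∧ ∃ x, G.Adj v x ∧ dg G x = 2 with hN
  set F : Finset V := Finset.univ.filter fun v => dg G v = 3 ∧ ¬ ∃ x, G.Adj v x ∧ dg G x = 2 with hF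
  have mT : ∀ v, v ∈ T ↔ dg G v = 2 := fun v => by simp [hT]
  have mN : ∀ v, v ∈ N ↔ Nr G v := fun v => by
    rw [hN, Finset.mem_filter]; exact ⟨fun h => h.2, fun h => ⟨Finset.mem_univ _, h⟩⟩
  have mF : ∀ v, v ∈ F ↔ dg G v = 3 ∧ ¬ Nr G v := fun v => by
    rw [hF, Finset.mem_filter]
    exact ⟨fun h => ⟨h.2.1, fun h' => h.2.2 h'.2⟩, fun h => ⟨Finset.mem_univ _, h.1, fun h' => h.2 ⟨h.1, h'⟩⟩⟩
  -- the first count
  have c1 : T.card * 2 ≤ N.card * 1 := by
    apply Finset.card_mul_le_card_mul G.Adj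
    · intro a ha
      have ha2 := (mT a).1 ha
      have hsub : nb G a ⊆ N.bipartiteAbove G.Adj a := by
        intro w hw
        have hw' := mem_nb.1 hw
        rw [Finset.bipartiteAbove, Finset.mem_filter, mN]
        have h := h5 a w hw'
        have h' := hd w
        exact ⟨⟨by omega, a, hw'.symm, ha2⟩, hw'⟩
      calc 2 = (nb G a).card := ha2.symm
        _ ≤ _ := Finset.card_le_card hsub
    · intro b _
      rw [Finset.card_le_one]
      intro x hx y hy
      rw [Finset.bipartiteBelow, Finset.mem_filter, mT] at hx hy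
      by_contra hxy
      exact h2 b x y hx.2.symm hy.2.symm hxy hx.1 hy.1
  have c3 : (Finset.univ.filter fun v => dg G v = 3).card = N.card + F.card := by
    rw [hN, hF, ← Finset.filter_filter, ← Finset.filter_filter]
    exact (Finset.card_filter_add_card_filter_not _).symm
  set P : Finset V := N.filter fun v => Pr G v with hP
  have mP : ∀ v, v ∈ P ↔ Pr G v := fun v => by
    rw [hP, Finset.mem_filter, mN]
    exact ⟨fun h => h.2, fun h => ⟨h.1, h⟩⟩
  -- the far neighbours of a near vertex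
  set c : V → ℕ := fun b => (F.bipartiteBelow G.Adj b).card with hc
  have hnear : ∀ v ∈ N, ∃ u w, u ≠ w ∧ G.Adj v u ∧ G.Adj v w ∧ dg G u = 3 ∧ dg G w = 3 := by
    intro v hv
    obtain ⟨hv3, y, hvy, hy2⟩ := (mN v).1 hv
    have h3 : ((nb G v).erase y).card = 2 := by
      rw [Finset.card_erase_of_mem (mem_nb.2 hvy)]
      have : (nb G v).card = 3 := hv3
      omega
    obtain ⟨u, w, huw, he⟩ := Finset.card_eq_two.1 h3
    have hu : u ∈ (nb G v).erase y := by rw [he]; simp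
    have hw : w ∈ (nb G v).erase y := by rw [he]; simp
    rw [Finset.mem_erase, mem_nb] at hu hw
    have hdeg : ∀ t, t ≠ y → G.Adj v t → dg G t = 3 := by
      intro t hty hvt
      have e1 := h5 v t hvt
      have e2 := hd t
      have e3 : dg G t ≠ 2 := h2 v y t hvy hvt (Ne.symm hty) hy2
      omega
    exact ⟨u, w, huw, hu.2, hw.2, hdeg u hu.1 hu.2, hdeg w hw.1 hw.2⟩
  have hc1 : ∀ v ∈ N, 1 ≤ c v := by
    intro v hv
    obtain ⟨u, w, huw, hvu, hvw, hu3, hw3⟩ := hnear v hv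
    obtain ⟨hv3, y, hvy, hy2⟩ := (mN v).1 hv
    rw [hc, Nat.one_le_iff_ne_zero, Ne, Finset.card_eq_zero, ← Ne, ← Finset.nonempty_iff_ne_empty]
    by_cases hux : Nr G u
    · obtain ⟨_, x, hux, hx2⟩ := hux
      refine ⟨w, ?_⟩
      rw [Finset.bipartiteBelow, Finset.mem_filter, mF]
      refine ⟨⟨hw3, ?_⟩, hvw.symm⟩
      rintro ⟨_, z, hwz, hz2⟩
      exact hcomb u v w x y z hvu hvw huw hu3 hv3 hw3 hux hvy hwz hx2 hy2 hz2
    · refine ⟨u, ?_⟩
      rw [Finset.bipartiteBelow, Finset.mem_filter, mF]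
      exact ⟨⟨hu3, hux⟩, hvu.symm⟩
  have hc2 : ∀ v ∈ N, ¬ Pr G v → 2 ≤ c v := by
    intro v hv hnp
    obtain ⟨u, w, huw, hvu, hvw, hu3, hw3⟩ := hnear v hv
    have hvN := (mN v).1 hv
    have hsub : ({u, w} : Finset V) ⊆ F.bipartiteBelow G.Adj v := by
      intro t ht
      rw [Finset.mem_insert, Finset.mem_singleton] at ht
      rw [Finset.bipartiteBelow, Finset.mem_filter, mF]
      rcases ht with rfl | rfl
      · exact ⟨⟨hu3, fun h => hnp ⟨hvN, t, hvu, h⟩⟩, hvu.symm⟩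
      · exact ⟨⟨hw3, fun h => hnp ⟨hvN, t, hvw, h⟩⟩, hvw.symm⟩
    calc 2 = ({u, w} : Finset V).card := (Finset.card_pair huw).symm
      _ ≤ _ := Finset.card_le_card hsub
  -- the near neighbours of a far vertex
  set gN : V → ℕ := fun a => (N.bipartiteAbove G.Adj a).card with hgN
  set gP : V → ℕ := fun a => (P.bipartiteAbove G.Adj a).card with hgP
  have d1 : ∑ a ∈ F, gN a = ∑ b ∈ N, c b := Finset.sum_card_bipartiteAbove_eq_sum_card_bipartiteBelow G.Adj
  have d2 : ∑ a ∈ F, gP a = ∑ b ∈ P, c b := Finset.sum_card_bipartiteAbove_eq_sum_card_bipartiteBelow G.Adj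
  have d3 : N.card * 2 ≤ ∑ b ∈ N, c b + ∑ b ∈ P, c b := by
    have hPs : ∑ b ∈ P, c b = ∑ b ∈ N, if Pr G b then c b else 0 := Finset.sum_filter (fun v => Pr G v) c
    rw [hPs, ← Finset.sum_add_distrib, ← smul_eq_mul, ← Finset.sum_const]
    refine Finset.sum_le_sum fun b hb => ?_
    have e1 := hc1 b hb
    by_cases hb' : Pr G b
    · rw [if_pos hb']; omega
    · have e2 := hc2 b hb hb'
      rw [if_neg hb']; omega
  have hsubN : ∀ f, N.bipartiteAbove G.Adj f ⊆ nb G f := by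
    intro f w hw
    rw [Finset.bipartiteAbove, Finset.mem_filter] at hw
    exact mem_nb.2 hw.2
  have g2 : ∀ f ∈ F, gN f ≤ 2 := by
    intro f hf
    obtain ⟨hf3, -⟩ := (mF f).1 hf
    by_contra hcon
    rw [not_le] at hcon
    have hcon' : 2 < (N.bipartiteAbove G.Adj f).card := hcon
    have heq : N.bipartiteAbove G.Adj f = nb G f := by
      apply Finset.eq_of_subset_of_card_le (hsubN f)
      have : (nb G f).card = 3 := hf3
      omega
    obtain ⟨u, w, t, huw, hut, hwt, he⟩ := Finset.card_eq_three.1 (show (nb G f).card = 3 from hf3)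
    have hmem : ∀ a, a ∈ nb G f → G.Adj f a ∧ dg G a = 3 ∧ ∃ x, G.Adj a x ∧ dg G x = 2 := by
      intro a ha
      refine ⟨mem_nb.1 ha, ?_⟩
      rw [← heq, Finset.bipartiteAbove, Finset.mem_filter, mN] at ha
      exact ha.1
    obtain ⟨fu, u3, x, ux, x2⟩ := hmem u (by rw [he]; simp)
    obtain ⟨fw, w3, y, wy, y2⟩ := hmem w (by rw [he]; simp)
    obtain ⟨ft, t3, z, tz, z2⟩ := hmem t (by rw [he]; simp)
    exact hclaw f u w t x y z fu fw ft huw hut hwt hf3 u3 w3 t3 ux wy tz x2 y2 z2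
  have g1 : ∀ f ∈ F, gP f ≤ 1 := by
    intro f hf
    obtain ⟨hf3, hfn⟩ := (mF f).1 hf
    show (P.bipartiteAbove G.Adj f).card ≤ 1
    rw [Finset.card_le_one]
    intro x hx y hy
    rw [Finset.bipartiteAbove, Finset.mem_filter, mP] at hx hy
    by_contra hxy
    exact hPP f x y hf3 hfn hx.2 hy.2 hxy hx.1 hy.1
  set PS : Finset V := F.filter fun f => 3 ≤ gN f + gP f with hPS
  have hthird : ∀ v ∈ PS, ∃ d x y, G.Adj v d ∧ G.Adj v x ∧ G.Adj v y ∧ d ≠ x ∧ d ≠ y ∧ x ≠ y ∧ Nr G x ∧ Nr G y ∧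
      d ∈ F ∧ gN d + gP d ≤ 1 := by
    intro v hv
    rw [hPS, Finset.mem_filter] at hv
    obtain ⟨hvF, hv3⟩ := hv
    have e1 := g2 v hvF
    have e2 := g1 v hvF
    obtain ⟨hvd, hvn⟩ := (mF v).1 hvF
    have e3 : (N.bipartiteAbove G.Adj v).card = 2 := by
      have : gN v = 2 := by omega
      exact this
    obtain ⟨x, y, hxy, he⟩ := Finset.card_eq_two.1 e3
    have hx : x ∈ N.bipartiteAbove G.Adj v := by rw [he]; simp
    have hy : y ∈ N.bipartiteAbove G.Adj v := by rw [he]; simp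
    have hex : ∃ d, d ∈ nb G v ∧ d ∉ N.bipartiteAbove G.Adj v := by
      by_contra hcon
      push Not at hcon
      have h1 : (nb G v).card ≤ (N.bipartiteAbove G.Adj v).card := Finset.card_le_card fun d hd' => hcon d hd'
      have h3 : (nb G v).card = 3 := hvd
      omega
    obtain ⟨d, hdv, hdn⟩ := hex
    have hvd' := mem_nb.1 hdv
    have hdx : d ≠ x := by rintro rfl; exact hdn hx
    have hdy : d ≠ y := by rintro rfl; exact hdn hy
    rw [Finset.bipartiteAbove, Finset.mem_filter, mN] at hx hy hdn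
    have hdN : ¬ Nr G d := fun h => hdn ⟨h, hvd'⟩
    have hd3 : dg G d = 3 := by
      have f1 := h5 v d hvd'
      have f2 := hd d
      have f3 : dg G d ≠ 2 := fun h => hvn ⟨hvd, d, hvd', h⟩
      omega
    have hdF : d ∈ F := (mF d).2 ⟨hd3, hdN⟩
    refine ⟨d, x, y, hvd', hx.2, hy.2, hdx, hdy, hxy, hx.1, hy.1, hdF, ?_⟩
    have q1 : (N.bipartiteAbove G.Adj d).card ≤ 1 := by
      rw [Finset.card_le_one]
      intro u hu w hw
      rw [Finset.bipartiteAbove, Finset.mem_filter, mN] at hu hw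
      by_contra huw
      exact hT2SS v d x y u w hvd hvn hvd' hx.2 hy.2 hdx hdy hxy hx.1 hy.1 hd3 hu.2 hw.2 huw hu.1 hw.1
    have q2 : (P.bipartiteAbove G.Adj d).card = 0 := by
      rw [Finset.card_eq_zero, Finset.eq_empty_iff_forall_notMem]
      intro u hu
      rw [Finset.bipartiteAbove, Finset.mem_filter, mP] at hu
      exact hT2P v d x y u hvd hvn hvd' hx.2 hy.2 hdx hdy hxy hx.1 hy.1 hd3 hdN hu.2 hu.1
    show (N.bipartiteAbove G.Adj d).card + (P.bipartiteAbove G.Adj d).card ≤ 1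
    omega
  choose! φ X Y hφ using hthird
  have hinj : Set.InjOn φ PS := by
    intro a ha b hb hab
    by_contra hne
    obtain ⟨p1, p2, p3, -, -, p6, p7, p8, p9, -⟩ := hφ a ha
    obtain ⟨r1, r2, r3, -, -, r6, r7, r8, -, -⟩ := hφ b hb
    have haF := (mF a).1 (Finset.mem_filter.1 ha).1
    have hbF := (mF b).1 (Finset.mem_filter.1 hb).1
    have hdF := (mF (φ a)).1 p9
    rw [← hab] at r1
    exact hT2T2 (φ a) a b (X a) (Y a) (X b) (Y b) hdF.1 hdF.2 p1.symm r1.symm hne haF.1 hbF.1 p2 p3 p6 p7 p8 r2 r3 r6 r7 r8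
  have hIm : (PS.image φ).card = PS.card := Finset.card_image_of_injOn hinj
  have hImF : PS.image φ ⊆ F := by
    intro t ht
    obtain ⟨a, ha, rfl⟩ := Finset.mem_image.1 ht
    exact (hφ a ha).2.2.2.2.2.2.2.2.1
  have key : ∑ v ∈ F, ((gN v + gP v) + if v ∈ PS.image φ then 1 else 0) ≤ ∑ v ∈ F, (2 + if v ∈ PS then 1 else 0) := by
    refine Finset.sum_le_sum fun v hv => ?_
    have e1 := g2 v hv
    have e2 := g1 v hv
    by_cases h1 : v ∈ PS.image φ
    · obtain ⟨a, ha, rfl⟩ := Finset.mem_image.1 h1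
      have e3 := (hφ a ha).2.2.2.2.2.2.2.2.2
      rw [if_pos h1]
      omega
    · rw [if_neg h1]
      by_cases h3 : v ∈ PS
      · rw [if_pos h3]; omega
      · rw [if_neg h3]
        have : ¬ 3 ≤ gN v + gP v := fun h => h3 (Finset.mem_filter.2 ⟨hv, h⟩)
        omega
  have s1 : (∑ v ∈ F, if v ∈ PS.image φ then 1 else 0) = (PS.image φ).card := by
    rw [← Finset.card_filter, Finset.filter_mem_eq_inter, Finset.inter_eq_right.2 hImF]
  have s2 : (∑ v ∈ F, if v ∈ PS then 1 else 0) = PS.card := by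
    rw [← Finset.card_filter, Finset.filter_mem_eq_inter, Finset.inter_eq_right.2 (Finset.filter_subset _ _)]
  rw [Finset.sum_add_distrib, Finset.sum_add_distrib, Finset.sum_add_distrib, s1, s2, hIm, d1, d2, Finset.sum_const,
    smul_eq_mul] at key
  omega

end Pool.Agent.Helper68.AW
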