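import Pool.Agent.Helper68.AV.Jordan
import Pool.Agent.Helper68.AV.Embed

/-!
# Project AW (MP_028d9b_co): definitions

Patterns of vertices of degree two and three in a plane graph, with rotations. Vertices of the pattern have
names `0, 1, ...`; the darts at the name `i` are the slots `0, ..., len p i - 1` in the order of the rotation. A slot
is either unrevealed (`none`, a ring slot) or known to be the reverse of another slot.
-/

set_option autoImplicit false

namespace Pool.Agent.Helper68.AW

open Pool.Agent.Helper52.AH Pool.Agent.Helper31.AH Pool.Agent.Helper68.AV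

/-- what is known about the end of a dart: nothing; it has degree two; it has degree three and its two other
darts are known to be `a` and `b` in some order -/
inductive Kn : Type
  | any : Kn
  | two : Kn
  | node : Kn → Kn → Kn
  deriving DecidableEq

/-- the dart `d` satisfies the knowledge -/
def Sat {V : Type} [Fintype V] [DecidableEq V] {G : SimpleGraph V} [DecidableRel G.Adj] (R : Rot G) :
    Kn → G.Dart → Prop
  | .any, _ => True
  | .two, d => G.degree d.snd = 2
  | .node a b, d => G.degree d.snd = 3 ∧
      ((Sat R a (R.σ d.symm) ∧ Sat R b (R.σ (R.σ d.symm))) ∨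
        (Sat R b (R.σ d.symm) ∧ Sat R a (R.σ (R.σ d.symm))))

/-- patterns -/
abbrev Pat : Type := List (List (Option (ℕ × ℕ)))

/-- the degree of the name `i` -/
def len (p : Pat) (i : ℕ) : ℕ := (p.getD i []).length

/-- the slot `k` of the name `i` -/
def slot (p : Pat) (i k : ℕ) : Option (ℕ × ℕ) := (p.getD i []).getD k none

/-- well formed patterns -/
structure Wf (p : Pat) : Prop where
  len : ∀ i, i < p.length → len p i = 2 ∨ len p i = 3
  sym : ∀ i k j l, slot p i k = some (j, l) → slot p j l = some (i, k)
  ne : ∀ i k j l, slot p i k = some (j, l) → i ≠ j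

/-- the pattern appears in `G`; `b i` is the slot `0` of the name `i` -/
structure Rz {V : Type} [Fintype V] [DecidableEq V] {G : SimpleGraph V} [DecidableRel G.Adj] (R : Rot G)
    (p : Pat) (b : ℕ → G.Dart) : Prop where
  inj : ∀ i j, i < p.length → j < p.length → (b i).fst = (b j).fst → i = j
  deg : ∀ i, i < p.length → G.degree (b i).fst = len p i
  sl : ∀ i k j l, slot p i k = some (j, l) → ((R.σ ^ k) (b i)).symm = (R.σ ^ l) (b j)

/-- the slot `(i, k)` and the slot `(j, l)` are the same edge -/
def link (p : Pat) (i k j l : ℕ) : Pat :=
  (p.modify i fun s => s.set k (some (j, l))).modify j fun s => s.set l (some (i, k))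

/-- the degree of the end -/
def dgK : Kn → ℕ
  | .two => 2
  | _ => 3

/-- the knowledge about the other slots of the name `j` if the slot `(j, l)` is the reverse of a slot with
knowledge `K`: one list for each order -/
def arms : Kn → ℕ → ℕ → List (List ((ℕ × ℕ) × Kn))
  | .node a b, j, l =>
    if a = b then [[((j, (l + 1) % 3), a), ((j, (l + 2) % 3), b)]]
    else [[((j, (l + 1) % 3), a), ((j, (l + 2) % 3), b)], [((j, (l + 1) % 3), b), ((j, (l + 2) % 3), a)]]
  | _, _, _ => [[]]

/-- the names `i` and `j` are known to be adjacent -/
def adjP (p : Pat) (i j : ℕ) : Bool :=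
  (p.getD i []).any fun s => match s with | some (j', _) => j' == j | none => false

/-- all realizations: `w` is the list of the slots with their knowledge which are still to be revealed; at the
end `chk` is applied to the pattern -/
def explore (chk : Pat → Bool) : ℕ → List ((ℕ × ℕ) × Kn) → Pat → Bool
  | 0, _, _ => false
  | _ + 1, [], p => chk p
  | n + 1, ((i, k), K) :: w, p =>
    if K = Kn.any then explore chk n w p
    else match slot p i k with
    | some (j, l) => len p j != dgK K || (arms K j l).all fun u => explore chk n (u ++ w) p
    | none =>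
      ((List.range p.length).all fun j => j == i || len p j != dgK K || adjP p i j ||
        (List.range (dgK K)).all fun l => (slot p j l).isSome ||
          (arms K j l).all fun u => explore chk n (u ++ w) (link p i k j l)) &&
      (arms K p.length 0).all fun u =>
        explore chk n (u ++ w) (link (p ++ [List.replicate (dgK K) none]) i k p.length 0)

/-- degree three with a neighbour of degree two -/
def near : Kn := Kn.node Kn.two Kn.any
/-- near with a near neighbour -/
def pair : Kn := Kn.node Kn.two near
/-- two near neighbours -/
def T2 : Kn := Kn.node near near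

/-- the next slot on the way around the pattern: from the reverse of the slot `(i, k)` until a ring slot -/
def tr (p : Pat) : ℕ → ℕ → ℕ → Option (ℕ × ℕ)
  | 0, _, _ => none
  | n + 1, i, k =>
    let k' := if k + 1 = len p i then 0 else k + 1
    match slot p i k' with
    | none => some (i, k')
    | some (j, l) => tr p n j l

/-- from the reverse of the slot `(i, k)` around the pattern, also across the ring slots, to the slot `(i0, k0)` -/
def tr2 (p : Pat) (i0 k0 : ℕ) : ℕ → ℕ → ℕ → Bool
  | 0, _, _ => false
  | n + 1, i, k =>
    let k' := if k + 1 = len p i then 0 else k + 1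
    if i = i0 ∧ k' = k0 then true
    else match slot p i k' with
    | none => tr2 p i0 k0 n i k'
    | some (j, l) => tr2 p i0 k0 n j l

/-- one step of reachability without the slots `(i0, k0)` and `(j0, l0)` -/
def stp (p : Pat) (i0 k0 j0 l0 : ℕ) (L : List ℕ) : List ℕ :=
  L ++ L.flatMap fun i => (List.range (len p i)).filterMap fun k =>
    if (i = i0 ∧ k = k0) ∨ (i = j0 ∧ k = l0) then none
    else match slot p i k with
    | some (j, _) => if L.contains j then none else some j
    | none => none

/-- reachability -/
def rch (p : Pat) (i0 k0 j0 l0 : ℕ) : ℕ → List ℕ → List ℕ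
  | 0, L => L
  | n + 1, L => rch p i0 k0 j0 l0 n (stp p i0 k0 j0 l0 L)

/-- the slot `(i, k)` is an edge on a cycle and both its sides are on the same face of the pattern -/
def gen (p : Pat) (i k : ℕ) : Bool :=
  match slot p i k with
  | none => false
  | some (j, l) => tr2 p i k (3 * p.length + 3) i k && (rch p i k j l p.length [j]).contains i

/-- the pattern is not plane -/
def genusChk (p : Pat) : Bool :=
  (List.range p.length).any fun i => (List.range (len p i)).any fun k => gen p i k

/-- the pattern is the whole graph -/
def wholeChk (p : Pat) : Bool :=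
  ((List.range p.length).all fun i => (List.range (len p i)).all fun k => (slot p i k).isSome) &&
  decide (4 * ((List.range p.length).filter fun i => len p i == 2).length ≤
    ((List.range p.length).filter fun i => len p i == 3).length)

/-- the edges of the pattern -/
def E0 (p : Pat) : List (ℕ × ℕ) :=
  (List.range p.length).flatMap fun i => (p.getD i []).filterMap fun s =>
    match s with
    | some (j, _) => if i < j then some (i, j) else none
    | none => none

/-- the ring slots from `q` to `s` -/
def orb (p : Pat) (s : ℕ × ℕ) : ℕ → ℕ × ℕ → List (ℕ × ℕ)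
  | 0, _ => []
  | n + 1, q => q :: match tr p (3 * p.length + 3) q.1 q.2 with
    | some q' => if q' = s then [] else orb p s n q'
    | none => []

/-- the ring slots -/
def rings (p : Pat) : List (ℕ × ℕ) :=
  (List.range p.length).flatMap fun i => (List.range (len p i)).filterMap fun k =>
    if (slot p i k).isNone then some (i, k) else none

/-- the boundary cycles -/
def blk (p : Pat) : List (List (ℕ × ℕ)) :=
  (rings p).foldl (fun B q => if B.flatten.contains q then B else B ++ [orb p q (3 * p.length) q]) []

/-- the number of the block for every position -/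
def bls (B : List (List (ℕ × ℕ))) : List ℕ :=
  (List.range B.length).flatMap fun j => List.replicate (B.getD j []).length j

/-- `l` has no element twice -/
def nd : List ℕ → Bool
  | [] => true
  | a :: l => !l.contains a && nd l

/-- the boundary cycles are right and the pattern is connected -/
def vchk (p : Pat) (B : List (List (ℕ × ℕ))) : Bool :=
  nd (B.flatten.map Prod.fst) &&
  (B.flatten.all fun q => decide (q.1 < p.length) && decide (q.2 < len p q.1) && (slot p q.1 q.2).isNone) &&
  ((rings p).all fun q => B.flatten.contains q) &&
  (B.all fun c => (List.range c.length).all fun j => tr p (3 * p.length + 3) (c.getD j (0, 0)).1 (c.getD j (0, 0)).2 ==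
    some (c.getD (if j + 1 = c.length then 0 else j + 1) (0, 0))) &&
  ((List.range p.length).all fun i => (rch p p.length 0 p.length 0 p.length [0]).contains i) &&
  decide (0 < p.length) && !(E0 p).isEmpty

/-- the configuration with the names `0, ..., n`, the edges `E`, and the names `P` with ring edges -/
def mkC (n : ℕ) (E : List (ℕ × ℕ)) (P : List ℕ) : Cfg where
  n := n + 1
  r := P.length
  E := E.map fun e => (Fin.ofNat (n + 1) e.1, Fin.ofNat (n + 1) e.2)
  P := fun t => Fin.ofNat (n + 1) (P.getD t.val 0)

/-- the pattern is reducible, `fast` is the check for reducibility -/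
def redChk (fast : List (ℕ × ℕ) → List ℕ → List ℕ → Bool) (p : Pat) : Bool :=
  let B := blk p
  vchk p B && fast (E0 p) (B.flatten.map Prod.fst) (bls B)

/-- the check of a leaf -/
def leafChk (fast : List (ℕ × ℕ) → List ℕ → List ℕ → Bool) (p : Pat) : Bool :=
  genusChk p || (wholeChk p || redChk fast p)

/-- a set of states closed under Kempe changes (without crossings, inside the blocks) and permutations -/
structure ClB {r : ℕ} (bl : Fin r → ℕ) (S : (Fin r → Fin 3) → Prop) : Prop where
  kem : ∀ s, S s → ∀ i, ∃ m : Fin r → Fin r, (∀ t, m (m t) = t) ∧ (∀ t, m t ≠ t → s t ≠ i) ∧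
    NCr m ∧ (∀ t, bl (m t) = bl t) ∧ ∀ X : Fin r → Bool, (∀ t, X (m t) = X t) →
      S (fun t => if X t then swp i (s t) else s t)
  per : ∀ s, S s → ∀ π : Equiv.Perm (Fin 3), S (fun t => π (s t))

/-- every set of states which is closed under Kempe changes contains a state which fits -/
def KillB (C : Cfg) (bl : Fin C.r → ℕ) : Prop :=
  ∀ S : (Fin C.r → Fin 3) → Prop, ClB bl S → (∀ s e, S s → ¬ good C s e) → ∀ s, ¬ S s

/-- the rotation pattern `K0, K1, K2` at a vertex of degree three does not occur -/
def Ex {V : Type} [Fintype V] [DecidableEq V] {G : SimpleGraph V} [DecidableRel G.Adj] (R : Rot G)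
    (K0 K1 K2 : Kn) : Prop :=
  ∀ d : G.Dart, G.degree d.fst = 3 → Sat R K0 d → Sat R K1 (R.σ d) → ¬ Sat R K2 (R.σ (R.σ d))

/-- degree three with a neighbour of degree two -/
def Nr {V : Type} [Fintype V] (G : SimpleGraph V) (x : V) : Prop :=
  dg G x = 3 ∧ ∃ y, G.Adj x y ∧ dg G y = 2

/-- near with a near neighbour -/
def Pr {V : Type} [Fintype V] (G : SimpleGraph V) (x : V) : Prop :=
  Nr G x ∧ ∃ u, G.Adj x u ∧ Nr G u

end Pool.Agent.Helper68.AW
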