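import Pool.Agent.Helper68.AW.Slots

/-!
# AW-6: a realized pattern gives an embedded configuration
-/

set_option autoImplicit false

namespace Pool.Agent.Helper68.AW

open Pool.Agent.Helper52.AH Pool.Agent.Helper31.AH Pool.Agent.Helper68.AV

theorem mem_E0 {p : Pat} {e : ℕ × ℕ} (h : e ∈ E0 p) : e.1 < e.2 ∧ ∃ k l, slot p e.1 k = some (e.2, l) := by
  rw [E0, List.mem_flatMap] at h
  obtain ⟨i, hi, h⟩ := h
  rw [List.mem_filterMap] at h
  obtain ⟨s, hs, h⟩ := h
  obtain ⟨k, hk, hks⟩ := List.mem_iff_getElem.1 hs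
  match s, h with
  | none, h => simp at h
  | some (j, l), h =>
    by_cases hij : i < j
    · simp only [hij, if_true, Option.some.injEq] at h
      subst h
      refine ⟨hij, k, l, ?_⟩
      rw [slot, List.getD_eq_getElem _ _ hk, hks]
    · simp [hij] at h

theorem mem_E0_of {p : Pat} {i k j l : ℕ} (hij : i < j) (h : slot p i k = some (j, l)) : (i, j) ∈ E0 p := by
  obtain ⟨hi, hk⟩ := src_range h
  rw [E0, List.mem_flatMap]
  refine ⟨i, List.mem_range.2 hi, ?_⟩
  rw [List.mem_filterMap]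
  refine ⟨some (j, l), ?_, by simp [hij]⟩
  have hk' : k < (p.getD i []).length := hk
  rw [slot, List.getD_eq_getElem _ _ hk'] at h
  rw [← h]
  exact List.getElem_mem _

theorem mem_rings {p : Pat} {i k : ℕ} (hi : i < p.length) (hk : k < len p i) (h : slot p i k = none) :
    (i, k) ∈ rings p := by
  rw [rings, List.mem_flatMap]
  refine ⟨i, List.mem_range.2 hi, ?_⟩
  rw [List.mem_filterMap]
  exact ⟨k, List.mem_range.2 hk, by simp [h]⟩

theorem vchk_ring {p : Pat} {B : List (List (ℕ × ℕ))} (hv : vchk p B = true) {q : ℕ × ℕ} (hq : q ∈ B.flatten) :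
    q.1 < p.length ∧ q.2 < len p q.1 ∧ slot p q.1 q.2 = none := by
  unfold vchk at hv
  simp only [Bool.and_eq_true, List.all_eq_true, decide_eq_true_eq, Option.isNone_iff_eq_none] at hv
  have h1 := hv.1.1.1.1.1.2 q hq
  exact ⟨h1.1.1, h1.1.2, h1.2⟩

theorem vchk_mem {p : Pat} {B : List (List (ℕ × ℕ))} (hv : vchk p B = true) {q : ℕ × ℕ} (hq : q ∈ rings p) :
    q ∈ B.flatten := by
  unfold vchk at hv
  simp only [Bool.and_eq_true, List.all_eq_true, decide_eq_true_eq, Option.isNone_iff_eq_none] at hv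
  have h1 := hv.1.1.1.1.2 q hq
  exact List.contains_iff_mem.1 h1

private theorem val_ofNat {n x : ℕ} (h : x < n + 1) : (Fin.ofNat (n + 1) x).val = x := Nat.mod_eq_of_lt h

variable {V : Type} [Fintype V] [DecidableEq V] {G : SimpleGraph V} [DecidableRel G.Adj]

/-- The end of the dart of a slot. -/
theorem snd_of_slot {R : Rot G} {p : Pat} {b : ℕ → G.Dart} (hz : Rz R p b) {i k j l : ℕ}
    (h : slot p i k = some (j, l)) : ((R.σ ^ k) (b i)).snd = (b j).fst := by
  have h1 := hz.sl i k j l h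
  have h2 : ((R.σ ^ k) (b i)).symm.fst = ((R.σ ^ l) (b j)).fst := by rw [h1]
  rw [fst_pow] at h2
  exact h2

/-- A ring slot and an edge slot of one name have different ends. -/
theorem ring_ne {R : Rot G} {p : Pat} {b : ℕ → G.Dart} (hz : Rz R p b) {i k k' j l : ℕ} (hi : i < p.length)
    (hk' : k' < len p i) (h : slot p i k = some (j, l)) (h' : slot p i k' = none) :
    ((R.σ ^ k') (b i)).snd ≠ (b j).fst := by
  intro h1
  obtain ⟨-, hk⟩ := src_range h
  have h2 : (R.σ ^ k') (b i) = (R.σ ^ k) (b i) := by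
    apply SimpleGraph.Dart.ext
    refine Prod.ext ?_ ?_
    · show ((R.σ ^ k') (b i)).fst = ((R.σ ^ k) (b i)).fst
      rw [fst_pow, fst_pow]
    · show ((R.σ ^ k') (b i)).snd = ((R.σ ^ k) (b i)).snd
      rw [h1, snd_of_slot hz h]
  have h3 : k' = k := pow_inj R (b i) (by rw [hz.deg i hi]; exact hk') (by rw [hz.deg i hi]; exact hk) h2
  rw [h3, h] at h'
  simp at h'

theorem emb_of {R : Rot G} {n : ℕ} {p : Pat} {b : ℕ → G.Dart} (hw : Wf p) (hz : Rz R p b)
    (hn : p.length = n + 1) {B : List (List (ℕ × ℕ))} (hv : vchk p B = true) :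
    Emb G (mkC n (E0 p) (B.flatten.map Prod.fst)) (fun i => (b i.val).fst)
      (fun t => ((R.σ ^ (B.flatten.getD t.val (0, 0)).2) (b (B.flatten.getD t.val (0, 0)).1)).snd) := by
  -- the value of `P t`
  have hP : ∀ t : Fin (mkC n (E0 p) (B.flatten.map Prod.fst)).r, B.flatten.getD t.val (0, 0) ∈ B.flatten ∧
      ((mkC n (E0 p) (B.flatten.map Prod.fst)).P t).val = (B.flatten.getD t.val (0, 0)).1 := by
    intro t
    have ht : t.val < B.flatten.length := by
      have := t.2
      have e : (mkC n (E0 p) (B.flatten.map Prod.fst)).r = B.flatten.length := List.length_map _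
      omega
    have hmem : B.flatten.getD t.val (0, 0) ∈ B.flatten := by
      rw [List.getD_eq_getElem _ _ ht]
      exact List.getElem_mem _
    refine ⟨hmem, ?_⟩
    show (Fin.ofNat (n + 1) ((B.flatten.map Prod.fst).getD t.val 0)).val = _
    have e : (B.flatten.map Prod.fst).getD t.val 0 = (B.flatten.getD t.val (0, 0)).1 := by
      rw [List.getD_eq_getElem _ _ (by rw [List.length_map]; exact ht), List.getD_eq_getElem _ _ ht,
        List.getElem_map]
    rw [e]
    exact val_ofNat (by rw [← hn]; exact (vchk_ring hv hmem).1)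
  -- the members of `E`
  have hE : ∀ e ∈ (mkC n (E0 p) (B.flatten.map Prod.fst)).E, ∃ k l, slot p e.1.val k = some (e.2.val, l) := by
    intro e he
    obtain ⟨e', he', rfl⟩ := List.mem_map.1 he
    obtain ⟨-, k, l, h1⟩ := mem_E0 he'
    have h2 := (src_range h1).1
    have h3 := (tgt_range hw h1).1
    rw [hn] at h2 h3
    refine ⟨k, l, ?_⟩
    show slot p (Fin.ofNat (n + 1) e'.1).val k = some ((Fin.ofNat (n + 1) e'.2).val, l)
    rw [val_ofNat h2, val_ofNat h3]
    exact h1
  refine ⟨?_, ?_, ?_, ?_, ?_⟩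
  · intro i j hij
    have hi : i.val < n + 1 := i.2
    have hj : j.val < n + 1 := j.2
    exact Fin.ext (hz.inj i.val j.val (by omega) (by omega) hij)
  · intro e he
    obtain ⟨k, l, h1⟩ := hE e he
    show G.Adj (b e.1.val).fst (b e.2.val).fst
    rw [← snd_of_slot hz h1, ← fst_pow R k (b e.1.val)]
    exact ((R.σ ^ k) (b e.1.val)).adj
  · intro t
    show G.Adj (b ((mkC n (E0 p) (B.flatten.map Prod.fst)).P t).val).fst _
    rw [(hP t).2, ← fst_pow R (B.flatten.getD t.val (0, 0)).2 (b (B.flatten.getD t.val (0, 0)).1)]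
    exact ((R.σ ^ (B.flatten.getD t.val (0, 0)).2) (b (B.flatten.getD t.val (0, 0)).1)).adj
  · intro t e he
    obtain ⟨k, l, h1⟩ := hE e he
    obtain ⟨hq, hqP⟩ := hP t
    obtain ⟨q1, q2, q3⟩ := vchk_ring hv hq
    constructor
    · rintro ⟨h2, h3⟩
      rw [h2] at hqP
      rw [hqP] at h1
      exact ring_ne hz q1 q2 h1 q3 h3
    · rintro ⟨h2, h3⟩
      rw [h2] at hqP
      have h4 := hw.sym _ _ _ _ h1
      rw [hqP] at h4
      exact ring_ne hz q1 q2 h4 q3 h3
  · intro i w hiw
    have hi : i.val < n + 1 := i.2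
    have hi' : i.val < p.length := by omega
    have hadj : G.Adj (b i.val).fst w := hiw
    obtain ⟨k, hk, hd⟩ := pow_surj R (b i.val) ⟨((b i.val).fst, w), hadj⟩ rfl
    have hws : ((R.σ ^ k) (b i.val)).snd = w := by rw [hd]
    rw [hz.deg _ hi'] at hk
    cases hs : slot p i.val k with
    | none =>
      right
      have h1 := vchk_mem hv (mem_rings hi' hk hs)
      obtain ⟨m, hm, hm'⟩ := List.mem_iff_getElem.1 h1
      have hm2 : m < (B.flatten.map Prod.fst).length := by rw [List.length_map]; exact hm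
      refine ⟨⟨m, hm2⟩, ?_, ?_⟩
      · apply Fin.ext
        rw [(hP ⟨m, hm2⟩).2]
        show (B.flatten.getD m (0, 0)).1 = i.val
        rw [List.getD_eq_getElem _ _ hm, hm']
      · show ((R.σ ^ (B.flatten.getD m (0, 0)).2) (b (B.flatten.getD m (0, 0)).1)).snd = w
        rw [List.getD_eq_getElem _ _ hm, hm']
        exact hws
    | some q =>
      obtain ⟨j, l⟩ := q
      left
      have h1 := snd_of_slot hz hs
      rw [hws] at h1
      have hj := (tgt_range hw hs).1
      rw [hn] at hj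
      have hne := hw.ne _ _ _ _ hs
      have key : ∀ x : Fin (n + 1), Fin.ofNat (n + 1) x.val = x := fun x => Fin.ext (val_ofNat x.2)
      rcases lt_or_gt_of_ne hne with h | h
      · refine ⟨(Fin.ofNat (n + 1) i.val, Fin.ofNat (n + 1) j), ?_, Or.inl ⟨key i, ?_⟩⟩
        · exact List.mem_map.2 ⟨(i.val, j), mem_E0_of h hs, rfl⟩
        · show (b (Fin.ofNat (n + 1) j).val).fst = w
          rw [val_ofNat hj, h1]
      · refine ⟨(Fin.ofNat (n + 1) j, Fin.ofNat (n + 1) i.val), ?_, Or.inr ⟨key i, ?_⟩⟩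
        · exact List.mem_map.2 ⟨(j, i.val), mem_E0_of h (hw.sym _ _ _ _ hs), rfl⟩
        · show (b (Fin.ofNat (n + 1) j).val).fst = w
          rw [val_ofNat hj, h1]

end Pool.Agent.Helper68.AW
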