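import Pool.Agent.Helper68.AW.Slots

/-!
# Project AW (MP_028d9b_co): the search is sound
-/

set_option autoImplicit false

namespace Pool.Agent.Helper68.AW

open Pool.Agent.Helper52.AH Pool.Agent.Helper31.AH Pool.Agent.Helper68.AV

/-! ### Links -/

theorem length_link (p : Pat) (i k j l : ℕ) : (link p i k j l).length = p.length := by
  simp [link]

/-- the list of the name `x` after a link -/
theorem getD_link (p : Pat) (i k j l x : ℕ) (hij : i ≠ j) :
    (link p i k j l).getD x [] =
      if x = i then (p.getD i []).set k (some (j, l))
      else if x = j then (p.getD j []).set l (some (i, k)) else p.getD x [] := by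
  unfold link
  simp only [List.getD_eq_getElem?_getD, List.getElem?_modify]
  by_cases h1 : x = i
  · subst h1
    simp only [hij.symm, if_true, if_false]
    rcases hx : p[x]? with _ | s <;> simp
  · by_cases h2 : x = j
    · subst h2
      simp only [h1, Ne.symm h1, if_true, if_false]
      rcases hx : p[x]? with _ | s <;> simp
    · simp only [h1, h2, Ne.symm h1, Ne.symm h2, if_false]
      rcases hx : p[x]? with _ | s <;> simp

theorem len_link (p : Pat) (i k j l x : ℕ) (hij : i ≠ j) : len (link p i k j l) x = len p x := by
  unfold len
  rw [getD_link p i k j l x hij]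
  by_cases h1 : x = i
  · subst h1
    simp
  · by_cases h2 : x = j
    · subst h2
      simp [h1]
    · simp [h1, h2]

theorem slot_link (p : Pat) (i k j l x y : ℕ) (hij : i ≠ j) (hk : k < len p i) (hl : l < len p j) :
    slot (link p i k j l) x y =
      if x = i ∧ y = k then some (j, l)
      else if x = j ∧ y = l then some (i, k) else slot p x y := by
  unfold slot
  rw [getD_link p i k j l x hij]
  unfold len at hk hl
  rw [List.getD_eq_getElem?_getD] at hk hl
  by_cases h1 : x = i
  · subst h1
    by_cases h3 : y = k
    · subst h3
      simp [List.getD_eq_getElem?_getD, hk]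
    · simp [List.getD_eq_getElem?_getD, h3, Ne.symm h3, hij]
  · by_cases h2 : x = j
    · subst h2
      by_cases h3 : y = l
      · subst h3
        simp [List.getD_eq_getElem?_getD, hl, h1]
      · simp [List.getD_eq_getElem?_getD, h3, Ne.symm h3, h1]
    · simp [h1, h2]

theorem wf_link {p : Pat} (hw : Wf p) {i k j l : ℕ} (hij : i ≠ j) (hk : k < len p i) (hl : l < len p j)
    (h1 : slot p i k = none) (h2 : slot p j l = none) : Wf (link p i k j l) where
  len x hx := by
    rw [length_link] at hx
    rw [len_link p i k j l x hij]
    exact hw.len x hx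
  sym x y x' y' h := by
    rw [slot_link p i k j l x y hij hk hl] at h
    rw [slot_link p i k j l x' y' hij hk hl]
    by_cases c1 : x = i ∧ y = k
    · rw [if_pos c1] at h
      obtain ⟨rfl, rfl⟩ := c1
      simp only [Option.some.injEq, Prod.mk.injEq] at h
      obtain ⟨rfl, rfl⟩ := h
      rw [if_neg (fun h => hij h.1.symm), if_pos ⟨rfl, rfl⟩]
    · rw [if_neg c1] at h
      by_cases c2 : x = j ∧ y = l
      · rw [if_pos c2] at h
        obtain ⟨rfl, rfl⟩ := c2
        simp only [Option.some.injEq, Prod.mk.injEq] at h
        obtain ⟨rfl, rfl⟩ := h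
        rw [if_pos ⟨rfl, rfl⟩]
      · rw [if_neg c2] at h
        have h' := hw.sym x y x' y' h
        have n1 : ¬ (x' = i ∧ y' = k) := by
          rintro ⟨rfl, rfl⟩
          rw [h1] at h'
          cases h'
        have n2 : ¬ (x' = j ∧ y' = l) := by
          rintro ⟨rfl, rfl⟩
          rw [h2] at h'
          cases h'
        rw [if_neg n1, if_neg n2]
        exact h'
  ne x y x' y' h := by
    rw [slot_link p i k j l x y hij hk hl] at h
    by_cases c1 : x = i ∧ y = k
    · rw [if_pos c1] at h
      obtain ⟨rfl, rfl⟩ := c1
      simp only [Option.some.injEq, Prod.mk.injEq] at h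
      obtain ⟨rfl, rfl⟩ := h
      exact hij
    · rw [if_neg c1] at h
      by_cases c2 : x = j ∧ y = l
      · rw [if_pos c2] at h
        obtain ⟨rfl, rfl⟩ := c2
        simp only [Option.some.injEq, Prod.mk.injEq] at h
        obtain ⟨rfl, rfl⟩ := h
        exact hij.symm
      · rw [if_neg c2] at h
        exact hw.ne x y x' y' h

section
variable {V : Type} [Fintype V] [DecidableEq V] {G : SimpleGraph V} [DecidableRel G.Adj]

theorem rz_link {R : Rot G} {p : Pat} {b : ℕ → G.Dart} (hz : Rz R p b) {i k j l : ℕ} (hij : i ≠ j)
    (hk : k < len p i) (hl : l < len p j) (hd : ((R.σ ^ k) (b i)).symm = (R.σ ^ l) (b j)) :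
    Rz R (link p i k j l) b where
  inj x y hx hy h := by
    rw [length_link] at hx hy
    exact hz.inj x y hx hy h
  deg x hx := by
    rw [length_link] at hx
    rw [len_link p i k j l x hij]
    exact hz.deg x hx
  sl x y x' y' h := by
    rw [slot_link p i k j l x y hij hk hl] at h
    by_cases c1 : x = i ∧ y = k
    · rw [if_pos c1] at h
      obtain ⟨rfl, rfl⟩ := c1
      simp only [Option.some.injEq, Prod.mk.injEq] at h
      obtain ⟨rfl, rfl⟩ := h
      exact hd
    · rw [if_neg c1] at h
      by_cases c2 : x = j ∧ y = l
      · rw [if_pos c2] at h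
        obtain ⟨rfl, rfl⟩ := c2
        simp only [Option.some.injEq, Prod.mk.injEq] at h
        obtain ⟨rfl, rfl⟩ := h
        rw [← hd, SimpleGraph.Dart.symm_symm]
      · rw [if_neg c2] at h
        exact hz.sl x y x' y' h

/-! ### A new name -/

theorem getD_app_lt (p : Pat) (s : List (Option (ℕ × ℕ))) {x : ℕ} (hx : x < p.length) :
    (p ++ [s]).getD x [] = p.getD x [] := by
  simp [List.getD_eq_getElem?_getD, List.getElem?_append_left hx]

theorem getD_app_eq (p : Pat) (s : List (Option (ℕ × ℕ))) : (p ++ [s]).getD p.length [] = s := by
  simp [List.getD_eq_getElem?_getD]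

theorem getD_app_gt (p : Pat) (s : List (Option (ℕ × ℕ))) {x : ℕ} (hx : p.length < x) :
    (p ++ [s]).getD x [] = [] := by
  simp [List.getD_eq_getElem?_getD]
  rw [List.getElem?_eq_none]
  · rfl
  · simp
    omega

theorem len_app_lt (p : Pat) (s : List (Option (ℕ × ℕ))) {x : ℕ} (hx : x < p.length) :
    len (p ++ [s]) x = len p x := by
  unfold len
  rw [getD_app_lt p s hx]

theorem len_app_eq (p : Pat) (s : List (Option (ℕ × ℕ))) : len (p ++ [s]) p.length = s.length := by
  unfold len
  rw [getD_app_eq]

theorem slot_app (p : Pat) (m : ℕ) (x y : ℕ) :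
    slot (p ++ [List.replicate m none]) x y = slot p x y := by
  unfold slot
  rcases lt_trichotomy x p.length with h | h | h
  · rw [getD_app_lt p _ h]
  · subst h
    rw [getD_app_eq]
    have h1 : p.getD p.length [] = [] := by simp [List.getD_eq_getElem?_getD]
    rw [h1]
    by_cases hy : y < m
    · simp [List.getD_eq_getElem?_getD, hy]
    · simp [List.getD_eq_getElem?_getD, hy]
  · rw [getD_app_gt p _ h]
    have h1 : p.getD x [] = [] := by
      rw [List.getD_eq_getElem?_getD, List.getElem?_eq_none (by omega)]
      rfl
    rw [h1]

theorem wf_app {p : Pat} (hw : Wf p) {m : ℕ} (hm : m = 2 ∨ m = 3) :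
    Wf (p ++ [List.replicate m none]) where
  len x hx := by
    rcases lt_or_eq_of_le (Nat.lt_succ_iff.1 (by simpa using hx) : x ≤ p.length) with h | h
    · rw [len_app_lt p _ h]
      exact hw.len x h
    · subst h
      rw [len_app_eq, List.length_replicate]
      exact hm
  sym x y x' y' h := by
    rw [slot_app] at h ⊢
    exact hw.sym x y x' y' h
  ne x y x' y' h := by
    rw [slot_app] at h
    exact hw.ne x y x' y' h

theorem rz_app {R : Rot G} {p : Pat} {b : ℕ → G.Dart} (hw : Wf p) (hz : Rz R p b) {m : ℕ} {d : G.Dart}
    (hm : G.degree d.fst = m) (hd : ∀ j, j < p.length → d.fst ≠ (b j).fst) :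
    Rz R (p ++ [List.replicate m none]) (Function.update b p.length d) where
  inj x y hx hy h := by
    have hx' : x ≤ p.length := Nat.lt_succ_iff.1 (by simpa using hx)
    have hy' : y ≤ p.length := Nat.lt_succ_iff.1 (by simpa using hy)
    rcases lt_or_eq_of_le hx' with h1 | h1 <;> rcases lt_or_eq_of_le hy' with h2 | h2
    · rw [Function.update_of_ne h1.ne, Function.update_of_ne h2.ne] at h
      exact hz.inj x y h1 h2 h
    · rw [Function.update_of_ne h1.ne, h2, Function.update_self] at h
      exact absurd h.symm (hd x h1)
    · rw [Function.update_of_ne h2.ne, h1, Function.update_self] at h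
      exact absurd h (hd y h2)
    · rw [h1, h2]
  deg x hx := by
    have hx' : x ≤ p.length := Nat.lt_succ_iff.1 (by simpa using hx)
    rcases lt_or_eq_of_le hx' with h1 | h1
    · rw [Function.update_of_ne h1.ne, len_app_lt p _ h1]
      exact hz.deg x h1
    · subst h1
      rw [Function.update_self, len_app_eq, List.length_replicate]
      exact hm
  sl x y x' y' h := by
    rw [slot_app] at h
    have h1 := (src_range h).1
    have h2 := (tgt_range hw h).1
    rw [Function.update_of_ne h1.ne, Function.update_of_ne h2.ne]
    exact hz.sl x y x' y' h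

/-! ### Arms -/

theorem arms_sat (R : Rot G) {K : Kn} {j l : ℕ} {d e : G.Dart} (hK : Sat R K d) (hd3 : G.degree e.fst = dgK K)
    (hs : d.symm = (R.σ ^ l) e) :
    ∃ u ∈ arms K j l, ∀ x ∈ u, x.1.1 = j ∧ x.1.2 < dgK K ∧ Sat R x.2 ((R.σ ^ x.1.2) e) := by
  cases K with
  | any => exact ⟨[], by simp [arms], by simp⟩
  | two => exact ⟨[], by simp [arms], by simp⟩
  | node a c =>
    have h3 : G.degree e.fst = 3 := hd3
    have e1 : R.σ d.symm = (R.σ ^ ((l + 1) % 3)) e := by
      rw [← h3, pow_mod, hs, pow_succ']
      rfl
    have e2 : R.σ (R.σ d.symm) = (R.σ ^ ((l + 2) % 3)) e := by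
      rw [← h3, pow_mod, hs, pow_succ', pow_succ']
      rfl
    have b1 : (l + 1) % 3 < 3 := Nat.mod_lt _ (by norm_num)
    have b2 : (l + 2) % 3 < 3 := Nat.mod_lt _ (by norm_num)
    have hbd : dgK (Kn.node a c) = 3 := rfl
    rw [hbd]
    obtain ⟨-, h | h⟩ := hK
    · rw [e2, e1] at h
      refine ⟨[((j, (l + 1) % 3), a), ((j, (l + 2) % 3), c)], ?_, ?_⟩
      · unfold arms
        by_cases hac : a = c
        · simp [hac]
        · simp [hac]
      · intro x hx
        simp only [List.mem_cons, List.not_mem_nil, or_false] at hx
        rcases hx with rfl | rfl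
        · exact ⟨rfl, b1, h.1⟩
        · exact ⟨rfl, b2, h.2⟩
    · rw [e2, e1] at h
      refine ⟨[((j, (l + 1) % 3), c), ((j, (l + 2) % 3), a)], ?_, ?_⟩
      · unfold arms
        by_cases hac : a = c
        · simp [hac]
        · simp [hac]
      · intro x hx
        simp only [List.mem_cons, List.not_mem_nil, or_false] at hx
        rcases hx with rfl | rfl
        · exact ⟨rfl, b1, h.1⟩
        · exact ⟨rfl, b2, h.2⟩

theorem sat_deg (R : Rot G) {K : Kn} {d : G.Dart} (hK : Sat R K d) (h : K ≠ Kn.any) :
    G.degree d.snd = dgK K := by
  cases K with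
  | any => exact absurd rfl h
  | two => exact hK
  | node a c => exact hK.1

theorem dgK_cases (K : Kn) : dgK K = 2 ∨ dgK K = 3 := by
  cases K <;> simp [dgK]

/-! ### The search -/

theorem explore_sound (R : Rot G) {Goal : Prop} {chk : Pat → Bool}
    (hchk : ∀ p b, chk p = true → Wf p → Rz R p b → Goal) :
    ∀ (n : ℕ) (w : List ((ℕ × ℕ) × Kn)) (p : Pat) (b : ℕ → G.Dart), explore chk n w p = true →
      Wf p → Rz R p b →
      (∀ x ∈ w, x.1.1 < p.length ∧ x.1.2 < len p x.1.1 ∧ Sat R x.2 ((R.σ ^ x.1.2) (b x.1.1))) → Goal := by
  intro n
  induction n with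
  | zero =>
    intro w p b h
    simp [explore] at h
  | succ n ih =>
    intro w p b h hw hz hs
    match w, h, hs with
    | [], h, _ => exact hchk p b h hw hz
    | ((i, k), K) :: w, h, hs =>
      have hs1 := hs ((i, k), K) List.mem_cons_self
      have hs2 : ∀ x ∈ w, x.1.1 < p.length ∧ x.1.2 < len p x.1.1 ∧
          Sat R x.2 ((R.σ ^ x.1.2) (b x.1.1)) := fun x hx => hs x (List.mem_cons_of_mem _ hx)
      obtain ⟨hi, hk, hK⟩ := hs1
      simp only at hi hk hK
      unfold explore at h
      by_cases hany : K = Kn.any
      · rw [if_pos hany] at h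
        exact ih w p b h hw hz hs2
      rw [if_neg hany] at h
      have hdeg := sat_deg R hK hany
      set d : G.Dart := (R.σ ^ k) (b i) with hd
      have hdf : d.fst = (b i).fst := fst_pow R k (b i)
      have hki : k < G.degree (b i).fst := by rw [hz.deg i hi]; exact hk
      rcases hsl : slot p i k with _ | ⟨j, l⟩
      · rw [hsl] at h
        simp only [Bool.and_eq_true, List.all_eq_true] at h
        obtain ⟨hA, hB⟩ := h
        by_cases hex : ∃ j, j < p.length ∧ d.snd = (b j).fst
        · -- an old name
          obtain ⟨j, hj, hdj⟩ := hex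
          have hij : i ≠ j := by
            rintro rfl
            exact d.adj.ne (hdf.trans hdj.symm)
          have hlen : len p j = dgK K := by rw [← hz.deg j hj, ← hdj, hdeg]
          have hadj : adjP p i j = false := by
            by_contra hc
            rw [Bool.not_eq_false] at hc
            unfold adjP at hc
            rw [List.any_eq_true] at hc
            obtain ⟨s, hsm, hs'⟩ := hc
            obtain ⟨k', hk', hks⟩ := List.getElem_of_mem hsm
            rcases s with _ | ⟨j', l'⟩
            · simp at hs'
            simp only [beq_iff_eq] at hs'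
            subst hs'
            have hsl' : slot p i k' = some (j', l') := by
              unfold slot
              rw [List.getD_eq_getElem _ _ hk', hks]
            have e1 := hz.sl i k' j' l' hsl'
            have e2 : (R.σ ^ k') (b i) = (R.σ ^ k) (b i) := by
              apply SimpleGraph.Dart.ext
              apply Prod.ext
              · exact (fst_pow R k' (b i)).trans (fst_pow R k (b i)).symm
              · have e3 : ((R.σ ^ k') (b i)).snd = (b j').fst := by
                  have e4 := congrArg (fun e : G.Dart => e.fst) e1
                  simp only [fst_pow] at e4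
                  exact e4
                exact e3.trans hdj.symm
            have e5 : k' = k := pow_inj R (b i) (by rw [hz.deg i hi]; exact hk') hki e2
            rw [e5, hsl] at hsl'
            cases hsl'
          obtain ⟨l, hl, hle⟩ := pow_surj R (b j) d.symm hdj
          rw [hz.deg j hj] at hl
          have hnone : slot p j l = none := by
            rcases hq : slot p j l with _ | ⟨j', l'⟩
            · rfl
            exfalso
            have e1 := hz.sl j l j' l' hq
            obtain ⟨hj', hl'⟩ := tgt_range hw hq
            rw [hle, SimpleGraph.Dart.symm_symm] at e1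
            have e2 : (b i).fst = (b j').fst := by
              rw [← hdf, e1, fst_pow]
            have e3 : i = j' := hz.inj i j' hi hj' e2
            subst e3
            have e4 : k = l' := pow_inj R (b i) hki (by rw [hz.deg i hi]; exact hl') e1
            subst e4
            have e5 := hw.sym j l i k hq
            rw [hsl] at e5
            cases e5
          have hA1 := hA j (List.mem_range.2 hj)
          have hji : (j == i) = false := by
            rw [beq_eq_false_iff_ne]
            exact hij.symm
          rw [hji, hadj] at hA1
          have hle' : (len p j != dgK K) = false := by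
            rw [hlen]
            simp
          rw [hle'] at hA1
          simp only [Bool.false_or, List.all_eq_true] at hA1
          have hA2 := hA1 l (List.mem_range.2 (hlen ▸ hl))
          rw [hnone] at hA2
          simp only [Option.isSome_none, Bool.false_or, List.all_eq_true] at hA2
          obtain ⟨u, hu, hus⟩ := arms_sat R (j := j) hK (e := b j) (by rw [hz.deg j hj, hlen]) hle.symm
          refine ih (u ++ w) (link p i k j l) b (hA2 u hu) (wf_link hw hij hk hl hsl hnone)
            (rz_link hz hij hk hl hle.symm) ?_
          intro x hx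
          rw [length_link, len_link p i k j l _ hij]
          rcases List.mem_append.1 hx with hx | hx
          · obtain ⟨h1, h2, h3⟩ := hus x hx
            rw [h1]
            exact ⟨hj, by rw [hlen]; exact h2, h3⟩
          · exact hs2 x hx
        · -- a new name
          have hex' : ∀ j, j < p.length → d.symm.fst ≠ (b j).fst := fun j hj h => hex ⟨j, hj, h⟩
          have hwa := wf_app hw (dgK_cases K)
          have hza := rz_app (d := d.symm) (m := dgK K) hw hz hdeg hex'
          have hlt : i ≠ p.length := hi.ne
          have hk' : k < len (p ++ [List.replicate (dgK K) none]) i := by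
            rw [len_app_lt p _ hi]
            exact hk
          have hl' : 0 < len (p ++ [List.replicate (dgK K) none]) p.length := by
            rw [len_app_eq, List.length_replicate]
            rcases dgK_cases K with h | h <;> omega
          have hs1' : slot (p ++ [List.replicate (dgK K) none]) i k = none := by
            rw [slot_app]
            exact hsl
          have hs2' : slot (p ++ [List.replicate (dgK K) none]) p.length 0 = none := by
            rw [slot_app]
            unfold slot
            have h1 : p.getD p.length [] = [] := by simp [List.getD_eq_getElem?_getD]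
            rw [h1]
            rfl
          have hle : ((R.σ ^ k) (Function.update b p.length d.symm i)).symm =
              (R.σ ^ 0) (Function.update b p.length d.symm p.length) := by
            rw [Function.update_of_ne hlt, Function.update_self]
            rfl
          obtain ⟨u, hu, hus⟩ := arms_sat R (j := p.length) (l := 0) (e := d.symm) hK hdeg rfl
          refine ih (u ++ w) _ _ (hB u hu) (wf_link hwa hlt hk' hl' hs1' hs2')
            (rz_link hza hlt hk' hl' hle) ?_
          intro x hx
          rw [length_link, len_link _ i k _ 0 _ hlt]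
          rcases List.mem_append.1 hx with hx | hx
          · obtain ⟨h1, h2, h3⟩ := hus x hx
            rw [h1, Function.update_self, len_app_eq, List.length_replicate]
            exact ⟨by simp, h2, h3⟩
          · obtain ⟨h1, h2, h3⟩ := hs2 x hx
            rw [Function.update_of_ne h1.ne, len_app_lt p _ h1]
            exact ⟨by simp; omega, h2, h3⟩
      · rw [hsl] at h
        simp only [Bool.or_eq_true, bne_iff_ne, ne_eq, List.all_eq_true] at h
        have hle := hz.sl i k j l hsl
        obtain ⟨hj, hl⟩ := tgt_range hw hsl
        have hdj : d.snd = (b j).fst := by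
          have e4 := congrArg (fun e : G.Dart => e.fst) hle
          simp only [fst_pow] at e4
          exact e4
        have hlen : len p j = dgK K := by rw [← hz.deg j hj, ← hdj, hdeg]
        have h1 := h.resolve_left (fun hc => hc hlen)
        obtain ⟨u, hu, hus⟩ := arms_sat R (j := j) hK (e := b j) (by rw [hz.deg j hj, hlen]) hle
        refine ih (u ++ w) p b (h1 u hu) hw hz ?_
        intro x hx
        rcases List.mem_append.1 hx with hx | hx
        · obtain ⟨h1, h2, h3⟩ := hus x hx
          rw [h1]
          exact ⟨hj, by rw [hlen]; exact h2, h3⟩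
        · exact hs2 x hx

theorem root_sound (R : Rot G) {Goal : Prop} {chk : Pat → Bool}
    (hchk : ∀ p b, chk p = true → Wf p → Rz R p b → Goal) (n : ℕ) (K0 K1 K2 : Kn)
    (h : explore chk n [((0, 0), K0), ((0, 1), K1), ((0, 2), K2)] [[none, none, none]] = true)
    (hno : ¬ Goal) : Ex R K0 K1 K2 := by
  intro d hd h0 h1 h2
  have hlen : ∀ i, i < ([[none, none, none]] : Pat).length → i = 0 := by
    intro i hi
    simpa using hi
  have hnone : ∀ i k, slot [[none, none, none]] i k = none := by
    intro i k
    unfold slot
    rcases i with _ | i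
    · rcases k with _ | _ | _ | k <;> rfl
    · rfl
  apply hno
  refine explore_sound R hchk n _ [[none, none, none]] (fun _ => d) h ⟨?_, ?_, ?_⟩ ⟨?_, ?_, ?_⟩ ?_
  · intro i hi
    rw [hlen i hi]
    exact Or.inr rfl
  · intro i k j l hs
    rw [hnone] at hs
    cases hs
  · intro i k j l hs
    rw [hnone] at hs
    cases hs
  · intro i j hi hj _
    rw [hlen i hi, hlen j hj]
  · intro i hi
    rw [hlen i hi]
    exact hd
  · intro i k j l hs
    rw [hnone] at hs
    cases hs
  · intro x hx
    simp only [List.mem_cons, List.not_mem_nil, or_false] at hx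
    rcases hx with rfl | rfl | rfl
    · exact ⟨by simp, by simp [len], h0⟩
    · exact ⟨by simp, by simp [len], h1⟩
    · exact ⟨by simp, by simp [len], by simpa [pow_succ] using h2⟩

end

end Pool.Agent.Helper68.AW
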