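import Pool.Agent.Helper68.AW.Defs

/-!
# Project AW (MP_028d9b_co): the fast check for reducibility

Sets of states are natural numbers: bit `64 + cd r s` is the state `s`, where `cd r s` is the number with the
digits `s 0, ..., s (r - 1)` in base three. The bits below 64 mean nothing; `salt` fills them because the kernel
uses them for hashing.
-/

set_option autoImplicit false

namespace Pool.Agent.Helper68.AW

/-- evaluate `n` first (for the kernel) -/
def force {β : Type} (n : ℕ) (f : ℕ → β) : β :=
  match n with
  | 0 => f 0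
  | k + 1 => f (k + 1)

/-- change the bits below 64 -/
def salt (n : ℕ) : ℕ := Nat.lor n (Nat.mod n 2305843009213693951)

/-- all states -/
def full : ℕ → ℕ
  | 0 => 18446744073709551616
  | r + 1 => Nat.lor (full r) (Nat.lor (Nat.shiftLeft (full r) (3 ^ r)) (Nat.shiftLeft (full r) (2 * 3 ^ r)))

/-- the states with `s t = c` -/
def dm : ℕ → ℕ → ℕ → ℕ
  | 0, _, _ => 0
  | r + 1, t, c => bif Nat.beq t r then Nat.shiftLeft (full r) (c * 3 ^ r)
    else Nat.lor (dm r t c) (Nat.lor (Nat.shiftLeft (dm r t c) (3 ^ r)) (Nat.shiftLeft (dm r t c) (2 * 3 ^ r)))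

/-- a position: its number, its block, the power of three, the sets `dm` -/
structure Ps : Type where
  t : ℕ
  b : ℕ
  q : ℕ
  m0 : ℕ
  m1 : ℕ
  m2 : ℕ

/-- the positions from `t` on with the blocks `bl` -/
def mkPs (r : ℕ) : ℕ → List ℕ → List Ps
  | _, [] => []
  | t, b :: bl =>
    force (3 ^ t) fun q => force (dm r t 0) fun m0 => force (dm r t 1) fun m1 => force (dm r t 2) fun m2 =>
      ⟨t, b, q, m0, m1, m2⟩ :: mkPs r (t + 1) bl

/-- the states of `A` for which the change at `x` leads to `A` as well -/
def sgF (A : ℕ) (x : Ps) : ℕ :=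
  (fun B => salt (Nat.lor (Nat.land A x.m0) (Nat.lor B (Nat.shiftLeft B x.q))))
    (Nat.land (Nat.land A (Nat.shiftRight A x.q)) x.m1)

/-- the states of `A` for which the change at `x` and `y` leads to `A` as well -/
def prF (A : ℕ) (x y : Ps) : ℕ :=
  (fun B C => salt (Nat.lor (Nat.lor B (Nat.shiftLeft B (Nat.add x.q y.q)))
      (Nat.lor C (Nat.shiftLeft C (Nat.sub y.q x.q)))))
    (Nat.land (Nat.land A (Nat.shiftRight A (Nat.add x.q y.q))) (Nat.land x.m1 y.m1))
    (Nat.land (Nat.land A (Nat.shiftRight A (Nat.sub y.q x.q))) (Nat.land x.m2 y.m1))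

/-- every element with the list of the others -/
def spl : List Ps → List (Ps × List Ps)
  | [] => []
  | x :: l => (x, l) :: (spl l).map fun y => (y.1, x :: y.2)

/-- a left fold which evaluates the accumulator -/
def foldF {α : Type} (f : ℕ → α → ℕ) : List α → ℕ → ℕ
  | [], U => U
  | s :: l, U => force (f U s) fun U' => foldF f l U'

/-- do the pairs cross? -/
def crsF (t u : ℕ) (p : ℕ × ℕ) : Bool := Nat.blt p.1 t && (Nat.blt t p.2 && Nat.blt p.2 u)

/-- the states of `A` for which there are chains between the positions `pos` such that all changes lead to `A`,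
together with `U` -/
def goF (F : ℕ) : ℕ → List Ps → List (ℕ × ℕ) → ℕ → ℕ → ℕ
  | 0, _, _, A, U => Nat.lor A U
  | n + 1, pos, prs, A, U =>
    bif Nat.beq (Nat.land (Nat.lor A U) F) (Nat.land U F) then U
    else match pos with
    | [] => salt (Nat.land (Nat.lor A U) F)
    | x :: rest =>
      force (foldF (fun U y =>
        bif Nat.beq x.b y.1.b && !(prs.any (crsF x.t y.1.t)) then
          force (prF A x y.1) fun A' => goF F n y.2 ((x.t, y.1.t) :: prs) A' U
        else U) (spl rest) U) fun U' =>
      force (sgF A x) fun A' => goF F n rest prs A' U'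

/-- permute the colours cyclically at the position `x` -/
def rotF (A : ℕ) (x : Ps) : ℕ :=
  salt (Nat.lor (Nat.shiftLeft (Nat.lor (Nat.land A x.m0) (Nat.land A x.m1)) x.q)
    (Nat.shiftRight (Nat.land A x.m2) (Nat.add x.q x.q)))

/-- exchange the colours 1 and 2 at the position `x` -/
def swF (A : ℕ) (x : Ps) : ℕ :=
  salt (Nat.lor (Nat.land A x.m0)
    (Nat.lor (Nat.shiftLeft (Nat.land A x.m1) x.q) (Nat.shiftRight (Nat.land A x.m2) x.q)))

/-- the states which stay in `A` if the colours are permuted cyclically -/
def rot3 (F : ℕ) (ps : List Ps) (A : ℕ) : ℕ :=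
  force (foldF rotF ps A) fun A1 =>
    force (foldF rotF ps A1) fun A2 => salt (Nat.land (Nat.land A (Nat.land A1 A2)) F)

/-- the states which survive one round -/
def rndF (F : ℕ) (ps : List Ps) (A : ℕ) : ℕ :=
  force (goF F (ps.length + 1) ps [] A 0) fun U => rot3 F ps (Nat.land A U)

/-- does nothing survive? -/
def itF (F : ℕ) (ps : List Ps) : ℕ → ℕ → Bool
  | 0, A => Nat.beq A 0
  | n + 1, A => bif Nat.beq A 0 then true
    else force (rndF F ps A) fun A' => bif Nat.beq A' A then false else itF F ps n A'

/-- the states which fit a colouring of the edges; every edge is given by a pair `K, N` for each colour, where `K`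
are the bits for the colour at the ends and `N` are the states without this colour at the ends -/
def colF : List (List (ℕ × ℕ)) → ℕ → ℕ → ℕ → ℕ
  | [], _, m, D => Nat.lor D m
  | cs :: L, W, m, D =>
    foldF (fun D x => bif Nat.beq (Nat.land W x.1) 0 then
      force (Nat.lor W x.1) fun W' => force (salt (Nat.land m x.2)) fun m' => colF L W' m' D
      else D) cs D

/-- the set `F` without the colour `c` at the positions of the name `v` -/
def avF (r : ℕ) (P : List ℕ) (v c : ℕ) (F : ℕ) : ℕ :=
  foldF (fun m t => bif Nat.beq (P.getD t (v + 1)) v then Nat.land m (Nat.xor (full r) (dm r t c)) else m)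
    (List.range r) F

/-- the data of an edge -/
def edF (r : ℕ) (P : List ℕ) (e : ℕ × ℕ) : List (ℕ × ℕ) :=
  [0, 1, 2].map fun c =>
    (Nat.lor (2 ^ (3 * e.1 + c)) (2 ^ (3 * e.2 + c)), avF r P e.1 c (avF r P e.2 c (full r)))

/-- only the first colour for the first edge, the first two for the second edge -/
def cutF : List (List (ℕ × ℕ)) → List (List (ℕ × ℕ))
  | [] => []
  | [a] => [a.take 1]
  | a :: b :: l => a.take 1 :: b.take 2 :: l

/-- the check: up to a permutation of the colours the first edge has the colour 0 and the second 0 or 1 -/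
def fast (E : List (ℕ × ℕ)) (P bl : List ℕ) : Bool :=
  Nat.beq P.length bl.length &&
  force (full P.length) fun F =>
    force (colF (cutF (E.map (edF P.length P))) 0 F 0) fun D =>
      force (rot3 F (mkPs P.length 0 bl) (Nat.land (Nat.xor F D) F)) fun A =>
        force (foldF swF (mkPs P.length 0 bl) A) fun A' =>
          force (salt (Nat.land (Nat.land A A') F)) fun A0 => itF F (mkPs P.length 0 bl) 20 A0

end Pool.Agent.Helper68.AW
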