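import Pool.Agent.Helper68.AW.Mask

/-!
# Project AW (MP_028d9b_co): the set operations of the fast check
-/

set_option autoImplicit false

namespace Pool.Agent.Helper68.AW

open Pool.Agent.Helper52.AH Pool.Agent.Helper31.AH Pool.Agent.Helper68.AV

theorem shr_mem {r A q : ℕ} {s s' : ℕ → Fin 3} (hc : cd r s' = cd r s + q) :
    Mem r (Nat.shiftRight A q) s ↔ Mem r A s' := by
  unfold Mem
  rw [hc]
  change (A >>> q).testBit _ = true ↔ _
  rw [Nat.testBit_shiftRight]
  rw [show q + (64 + cd r s) = 64 + (cd r s + q) by omega]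

theorem shl_mem {r A q : ℕ} {s s' : ℕ → Fin 3} (hc : cd r s' + q = cd r s) :
    Mem r (Nat.shiftLeft A q) s ↔ Mem r A s' := by
  unfold Mem
  change (A <<< q).testBit _ = true ↔ _
  rw [Nat.testBit_shiftLeft]
  have h1 : q ≤ 64 + cd r s := by omega
  rw [show 64 + cd r s - q = 64 + cd r s' by omega]
  simp [h1]

theorem three (c : Fin 3) : c = 0 ∨ c = 1 ∨ c = 2 := by
  fin_cases c <;> simp

theorem sgF_mem {r : ℕ} {bl : ℕ → ℕ} {x : Ps} (hx : PsOk r bl x) {A : ℕ} {s : ℕ → Fin 3} (h1 : Mem r A s)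
    (h2 : s x.t ≠ 0 → Mem r A (Function.update s x.t (swp 0 (s x.t)))) : Mem r (sgF A x) s := by
  have e := cd_update hx.lt s
  unfold sgF
  simp only
  rw [mem_salt, mem_lor, mem_lor, hx.m0, hx.m1, hx.q]
  rcases three (s x.t) with h | h | h
  · left
    rw [mem_land]
    exact ⟨h1, (dm_mem hx.lt 0 s).2 h⟩
  · right; left
    have h3 := h2 (by rw [h]; decide)
    rw [h] at h3
    have e1 := e (swp 0 1)
    rw [h] at e1
    have e2 : ((1 : Fin 3) : Fin 3).val = 1 := rfl
    have e3 : (swp 0 1 : Fin 3).val = 2 := rfl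
    rw [e2, e3] at e1
    rw [mem_land, mem_land, shr_mem (s' := Function.update s x.t (swp 0 1)) (by omega)]
    exact ⟨⟨h1, h3⟩, (dm_mem hx.lt 1 s).2 h⟩
  · right; right
    have h3 := h2 (by rw [h]; decide)
    rw [h] at h3
    have e1 := e (swp 0 2)
    rw [h] at e1
    have e2 : ((2 : Fin 3) : Fin 3).val = 2 := rfl
    have e3 : (swp 0 2 : Fin 3).val = 1 := rfl
    rw [e2, e3] at e1
    rw [shl_mem (s' := Function.update s x.t (swp 0 2)) (by omega), mem_land, mem_land,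
      shr_mem (s' := s) (by omega)]
    refine ⟨⟨h3, h1⟩, (dm_mem hx.lt 1 _).2 ?_⟩
    rw [Function.update_self]
    rfl

theorem prF_mem {r : ℕ} {bl : ℕ → ℕ} {x y : Ps} (hx : PsOk r bl x) (hy : PsOk r bl y) (hxy : x.t < y.t)
    {A : ℕ} {s : ℕ → Fin 3} (h1 : Mem r A s) (hsx : s x.t ≠ 0) (hsy : s y.t ≠ 0)
    (h2 : Mem r A (Function.update (Function.update s x.t (swp 0 (s x.t))) y.t (swp 0 (s y.t)))) :
    Mem r (prF A x y) s := by
  have hlt : 3 ^ x.t < 3 ^ y.t := Nat.pow_lt_pow_right (by norm_num) hxy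
  have hne : y.t ≠ x.t := by omega
  have e1 := cd_update hx.lt s (swp 0 (s x.t))
  have e2 := cd_update hy.lt (Function.update s x.t (swp 0 (s x.t))) (swp 0 (s y.t))
  rw [Function.update_of_ne hne] at e2
  obtain ⟨s', hs'⟩ : ∃ s', s' = Function.update (Function.update s x.t (swp 0 (s x.t))) y.t
    (swp 0 (s y.t)) := ⟨_, rfl⟩
  have ex : s' x.t = swp 0 (s x.t) := by
    rw [hs', Function.update_of_ne hne.symm, Function.update_self]
  have ey : s' y.t = swp 0 (s y.t) := by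
    rw [hs', Function.update_self]
  rw [← hs'] at h2 e2
  generalize cd r (Function.update s x.t (swp 0 (s x.t))) = d at e1 e2
  unfold prF
  simp only
  rw [mem_salt, mem_lor, mem_lor, mem_lor, hx.m1, hx.m2, hy.m1, hx.q, hy.q]
  change (Mem r (Nat.land (Nat.land A (Nat.shiftRight A (3 ^ x.t + 3 ^ y.t))) _) s ∨
    Mem r (Nat.shiftLeft (Nat.land (Nat.land A (Nat.shiftRight A (3 ^ x.t + 3 ^ y.t))) _)
      (3 ^ x.t + 3 ^ y.t)) s) ∨
    (Mem r (Nat.land (Nat.land A (Nat.shiftRight A (3 ^ y.t - 3 ^ x.t))) _) s ∨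
      Mem r (Nat.shiftLeft (Nat.land (Nat.land A (Nat.shiftRight A (3 ^ y.t - 3 ^ x.t))) _)
        (3 ^ y.t - 3 ^ x.t)) s)
  generalize 3 ^ x.t = p at *
  generalize 3 ^ y.t = q at *
  have v1 : (swp 0 1 : Fin 3).val = 2 := rfl
  have v2 : (swp 0 2 : Fin 3).val = 1 := rfl
  have w1 : (1 : Fin 3).val = 1 := rfl
  have w2 : (2 : Fin 3).val = 2 := rfl
  have u1 : (swp 0 1 : Fin 3) = 2 := rfl
  have u2 : (swp 0 2 : Fin 3) = 1 := rfl
  rcases three (s x.t) with h | h | h
  · exact absurd h hsx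
  · rcases three (s y.t) with h' | h' | h'
    · exact absurd h' hsy
    · left; left
      rw [h, v1, w1] at e1
      rw [h', v1, w1] at e2
      rw [mem_land, mem_land, mem_land, shr_mem (s' := s') (by omega)]
      exact ⟨⟨h1, h2⟩, (dm_mem hx.lt 1 s).2 h, (dm_mem hy.lt 1 s).2 h'⟩
    · right; right
      rw [h, v1, w1] at e1
      rw [h', v2, w2] at e2
      rw [h, u1] at ex
      rw [h', u2] at ey
      rw [shl_mem (s' := s') (by omega), mem_land, mem_land, mem_land, shr_mem (s' := s) (by omega)]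
      exact ⟨⟨h2, h1⟩, (dm_mem hx.lt 2 s').2 ex, (dm_mem hy.lt 1 s').2 ey⟩
  · rcases three (s y.t) with h' | h' | h'
    · exact absurd h' hsy
    · right; left
      rw [h, v2, w2] at e1
      rw [h', v1, w1] at e2
      rw [mem_land, mem_land, mem_land, shr_mem (s' := s') (by omega)]
      exact ⟨⟨h1, h2⟩, (dm_mem hx.lt 2 s).2 h, (dm_mem hy.lt 1 s).2 h'⟩
    · left; right
      rw [h, v2, w2] at e1
      rw [h', v2, w2] at e2
      rw [h, u2] at ex
      rw [h', u2] at ey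
      rw [shl_mem (s' := s') (by omega), mem_land, mem_land, mem_land, shr_mem (s' := s) (by omega)]
      exact ⟨⟨h2, h1⟩, (dm_mem hx.lt 1 s').2 ex, (dm_mem hy.lt 1 s').2 ey⟩

theorem rotF_mem {r : ℕ} {bl : ℕ → ℕ} {x : Ps} (hx : PsOk r bl x) {A : ℕ} {s : ℕ → Fin 3} (h1 : Mem r A s) :
    Mem r (rotF A x) (Function.update s x.t (s x.t + 1)) := by
  have e := cd_update hx.lt s (s x.t + 1)
  unfold rotF
  rw [mem_salt, mem_lor, hx.m0, hx.m1, hx.m2, hx.q]
  change Mem r (Nat.shiftLeft _ (3 ^ x.t)) _ ∨ Mem r (Nat.shiftRight _ (3 ^ x.t + 3 ^ x.t)) _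
  generalize 3 ^ x.t = p at *
  rcases three (s x.t) with h | h | h
  · left
    rw [h, show ((0 : Fin 3) + 1).val = 1 from rfl, show (0 : Fin 3).val = 0 from rfl] at e
    rw [shl_mem (s' := s) (by rw [h]; omega), mem_lor]
    exact Or.inl (mem_land.2 ⟨h1, (dm_mem hx.lt 0 s).2 h⟩)
  · left
    rw [h, show ((1 : Fin 3) + 1).val = 2 from rfl, show (1 : Fin 3).val = 1 from rfl] at e
    rw [shl_mem (s' := s) (by rw [h]; omega), mem_lor]
    exact Or.inr (mem_land.2 ⟨h1, (dm_mem hx.lt 1 s).2 h⟩)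
  · right
    rw [h, show ((2 : Fin 3) + 1).val = 0 from rfl, show (2 : Fin 3).val = 2 from rfl] at e
    rw [shr_mem (s' := s) (by rw [h]; omega)]
    exact mem_land.2 ⟨h1, (dm_mem hx.lt 2 s).2 h⟩

theorem swF_mem {r : ℕ} {bl : ℕ → ℕ} {x : Ps} (hx : PsOk r bl x) {A : ℕ} {s : ℕ → Fin 3} (h1 : Mem r A s) :
    Mem r (swF A x) (Function.update s x.t (- s x.t)) := by
  have e := cd_update hx.lt s (- s x.t)
  unfold swF
  rw [mem_salt, mem_lor, mem_lor, hx.m0, hx.m1, hx.m2, hx.q]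
  rcases three (s x.t) with h | h | h
  · left
    rw [mem_land]
    have e1 : Function.update s x.t (- s x.t) = s := by
      rw [h]
      ext t
      by_cases ht : t = x.t
      · rw [ht, Function.update_self, h]
        rfl
      · rw [Function.update_of_ne ht]
    rw [e1]
    exact ⟨h1, (dm_mem hx.lt 0 s).2 h⟩
  · right; left
    rw [h, show (-(1 : Fin 3)).val = 2 from rfl, show (1 : Fin 3).val = 1 from rfl] at e
    rw [shl_mem (s' := s) (by rw [h]; omega)]
    exact mem_land.2 ⟨h1, (dm_mem hx.lt 1 s).2 h⟩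
  · right; right
    rw [h, show (-(2 : Fin 3)).val = 1 from rfl, show (2 : Fin 3).val = 2 from rfl] at e
    rw [shr_mem (s' := s) (by rw [h]; omega)]
    exact mem_land.2 ⟨h1, (dm_mem hx.lt 2 s).2 h⟩

open Classical in
theorem fold_mem {r : ℕ} {bl : ℕ → ℕ} {F : ℕ → Ps → ℕ} {f : Fin 3 → Fin 3}
    (hF : ∀ (A : ℕ) (x : Ps) (s : ℕ → Fin 3), PsOk r bl x → Mem r A s →
      Mem r (F A x) (Function.update s x.t (f (s x.t)))) (l : List Ps) :
    (∀ x ∈ l, PsOk r bl x) → l.Pairwise (fun x y => x.t < y.t) → ∀ (A : ℕ) (s : ℕ → Fin 3), Mem r A s →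
      Mem r (foldF F l A) (fun t => if ∃ x ∈ l, x.t = t then f (s t) else s t) := by
  induction l with
  | nil =>
    intro _ _ A s h
    simpa [foldF] using h
  | cons y l ih =>
    intro h1 h2 A s h
    rw [List.pairwise_cons] at h2
    unfold foldF
    rw [force_eq]
    have h3 := ih (fun x hx => h1 x (by simp [hx])) h2.2 (F A y) _ (hF A y s (h1 y (by simp)) h)
    convert h3 using 2
    rename_i t
    by_cases ht : t = y.t
    · have h4 : ¬ ∃ x ∈ l, x.t = t := by
        rintro ⟨x, hx, hxt⟩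
        have := h2.1 x hx
        omega
      rw [if_neg h4, if_pos ⟨y, by simp, ht.symm⟩, ht, Function.update_self]
    · rw [Function.update_of_ne ht]
      have h4 : (∃ x ∈ y :: l, x.t = t) ↔ ∃ x ∈ l, x.t = t := by
        constructor
        · rintro ⟨x, hx, hxt⟩
          rcases List.mem_cons.1 hx with rfl | hx
          · exact absurd hxt.symm ht
          · exact ⟨x, hx, hxt⟩
        · rintro ⟨x, hx, hxt⟩
          exact ⟨x, by simp [hx], hxt⟩
      simp only [h4]

theorem fold_all {bl : List ℕ} {F : ℕ → Ps → ℕ} {f : Fin 3 → Fin 3}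
    (hF : ∀ (A : ℕ) (x : Ps) (s : ℕ → Fin 3), PsOk bl.length (fun t => bl.getD t 0) x →
      Mem bl.length A s → Mem bl.length (F A x) (Function.update s x.t (f (s x.t))))
    {A : ℕ} {s : ℕ → Fin 3} (h : Mem bl.length A s) :
    Mem bl.length (foldF F (mkPs bl.length 0 bl) A) (fun t => f (s t)) := by
  obtain ⟨h1, h2, -, h4⟩ := mkPs_ok bl
  have h5 := fold_mem hF _ h1 h2 A s h
  unfold Mem at h5 ⊢
  rw [cd_congr (s' := fun t => f (s t))] at h5
  · exact h5
  · intro t ht
    rw [if_pos (h4 t ht)]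

theorem rot_mem {bl : List ℕ} {A : ℕ} {s : ℕ → Fin 3} (h : Mem bl.length A s) :
    Mem bl.length (foldF rotF (mkPs bl.length 0 bl) A) (fun t => s t + 1) :=
  fold_all (f := fun c => c + 1) (fun _ _ _ hx h => rotF_mem hx h) h

theorem sw_mem {bl : List ℕ} {A : ℕ} {s : ℕ → Fin 3} (h : Mem bl.length A s) :
    Mem bl.length (foldF swF (mkPs bl.length 0 bl) A) (fun t => - s t) :=
  fold_all (f := fun c => - c) (fun _ _ _ hx h => swF_mem hx h) h

theorem rot3_mem {bl : List ℕ} {A : ℕ} {s : ℕ → Fin 3} (h0 : Mem bl.length A s)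
    (h1 : Mem bl.length A (fun t => s t + 1)) (h2 : Mem bl.length A (fun t => s t + 2)) :
    Mem bl.length (rot3 (full bl.length) (mkPs bl.length 0 bl) A) s := by
  unfold rot3
  rw [force_eq, force_eq, mem_salt, mem_land, mem_land, mem_land]
  have e2 : (fun t => s t + 2 + 1) = s := by
    funext t
    rcases three (s t) with h | h | h <;> rw [h] <;> rfl
  have e1 : (fun t => s t + 1 + 1 + 1) = s := by
    funext t
    rcases three (s t) with h | h | h <;> rw [h] <;> rfl
  refine ⟨⟨h0, ?_, ?_⟩, full_mem _ _⟩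
  · have := rot_mem h2
    rwa [e2] at this
  · have := rot_mem (rot_mem h1)
    rwa [e1] at this

end Pool.Agent.Helper68.AW
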