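import Pool.Agent.Helper68.AW.Mask
import Pool.Agent.Helper68.AW.Ops

/-!
# Project AW (MP_028d9b_co), AW-10c: the soundness of the search for chains
-/

set_option autoImplicit false

namespace Pool.Agent.Helper68.AW
open Pool.Agent.Helper52.AH Pool.Agent.Helper31.AH Pool.Agent.Helper68.AV

/-- a fold keeps what every step keeps -/
private theorem foldF_keep {α : Type} {P : ℕ → Prop} {f : ℕ → α → ℕ} (l : List α)
    (hf : ∀ U, ∀ z ∈ l, P U → P (f U z)) : ∀ U, P U → P (foldF f l U) := by
  induction l with
  | nil => exact fun U h => h
  | cons z l ih =>
    intro U h
    unfold foldF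
    rw [force_eq]
    exact ih (fun U y hy => hf U y (List.mem_cons_of_mem _ hy)) _ (hf U z List.mem_cons_self h)

/-- a fold gets what one step gives and every step keeps -/
private theorem foldF_get {α : Type} {P : ℕ → Prop} {f : ℕ → α → ℕ} (l : List α)
    (hf : ∀ U, ∀ z ∈ l, P U → P (f U z)) {w : α} (hw : w ∈ l) (h : ∀ U, P (f U w)) :
    ∀ U, P (foldF f l U) := by
  induction l with
  | nil => cases hw
  | cons z l ih =>
    intro U
    unfold foldF
    rw [force_eq]
    rcases List.mem_cons.1 hw with rfl | hw
    · exact foldF_keep l (fun U y hy => hf U y (List.mem_cons_of_mem _ hy)) _ (h U)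
    · exact ih (fun U y hy => hf U y (List.mem_cons_of_mem _ hy)) hw _

theorem goF_mono {r n : ℕ} {pos : List Ps} {prs : List (ℕ × ℕ)} {A U : ℕ} {s : ℕ → Fin 3}
    (h : Mem r U s) : Mem r (goF (full r) n pos prs A U) s := by
  induction n generalizing pos prs A U with
  | zero =>
    unfold goF
    exact mem_lor.2 (Or.inr h)
  | succ n ih =>
    unfold goF
    cases hb : Nat.beq (Nat.land (Nat.lor A U) (full r)) (Nat.land U (full r)) with
    | true => exact h
    | false =>
      rw [cond_false]
      cases pos with
      | nil => exact mem_salt.2 (mem_land.2 ⟨mem_lor.2 (Or.inr h), full_mem r s⟩)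
      | cons x rest =>
        dsimp only
        rw [force_eq, force_eq]
        refine ih (foldF_keep (P := fun V => Mem r V s) _ (fun U y _ hU => ?_) U h)
        cases hc : (Nat.beq x.b y.1.b && !(prs.any (crsF x.t y.1.t))) with
        | true =>
          rw [cond_true, force_eq]
          exact ih hU
        | false =>
          rw [cond_false]
          exact hU

/-- the splittings of a list -/
private theorem mem_spl {y : Ps} : ∀ {l : List Ps}, y ∈ l →
    ∃ l', (y, l') ∈ spl l ∧ l'.Sublist l ∧ l.Perm (y :: l') := by
  intro l
  induction l with
  | nil => intro h; cases h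
  | cons x l ih =>
    intro h
    rcases List.mem_cons.1 h with rfl | h
    · refine ⟨l, ?_, List.sublist_cons_self _ _, List.Perm.refl _⟩
      unfold spl
      exact List.mem_cons_self
    · obtain ⟨l', h1, h2, h3⟩ := ih h
      refine ⟨x :: l', ?_, h2.cons_cons x, ?_⟩
      · unfold spl
        exact List.mem_cons_of_mem _ (List.mem_map.2 ⟨(y, l'), h1, rfl⟩)
      · exact (h3.cons x).trans (List.Perm.swap _ _ _)

private theorem swp_swp (c : Fin 3) : swp 0 (swp 0 c) = c := by
  revert c
  decide

private theorem swp_ne {c : Fin 3} (h : c ≠ 0) : swp 0 c ≠ 0 := by
  revert c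
  decide

/-- one more change -/
private theorem flp_update (s : ℕ → Fin 3) (X : ℕ → Bool) (u : ℕ) :
    Function.update (flp s X) u (swp 0 (flp s X u)) = flp s (Function.update X u (!X u)) := by
  funext t
  by_cases h : t = u
  · subst h
    rw [Function.update_self]
    unfold flp
    rw [Function.update_self]
    cases X t with
    | true => simp [swp_swp]
    | false => simp
  · rw [Function.update_of_ne h]
    unfold flp
    rw [Function.update_of_ne h]

private theorem flp_ne {s : ℕ → Fin 3} (X : ℕ → Bool) {u : ℕ} (h : s u ≠ 0) : flp s X u ≠ 0 := by
  unfold flp
  split_ifs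
  · exact swp_ne h
  · exact h

theorem goF_sound {r : ℕ} {bl : ℕ → ℕ} {s : ℕ → Fin 3} {m : ℕ → ℕ} (hm : ∀ t, m (m t) = t)
    (hs : ∀ t, m t ≠ t → s t ≠ 0) (hnc : ∀ a b, a < b → b < m a → ¬ m a < m b)
    (hbl : ∀ t, bl (m t) = bl t) :
    ∀ (n : ℕ) (pos : List Ps) (prs : List (ℕ × ℕ)) (A U : ℕ), (∀ x ∈ pos, PsOk r bl x) →
      pos.Pairwise (fun x y => x.t < y.t) → (∀ x ∈ pos, ∃ y ∈ pos, y.t = m x.t) →
      (∀ p ∈ prs, m p.1 = p.2) → (∀ X : ℕ → Bool, (∀ t, X (m t) = X t) → Mem r A (flp s X)) →
      Mem r (goF (full r) n pos prs A U) s := by
  have hself : ∀ A : ℕ, (∀ X : ℕ → Bool, (∀ t, X (m t) = X t) → Mem r A (flp s X)) → Mem r A s := by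
    intro A h
    have h1 := h (fun _ => false) (fun _ => rfl)
    have h2 : flp s (fun _ => false) = s := by
      funext t
      unfold flp
      simp
    rwa [h2] at h1
  intro n
  induction n with
  | zero =>
    intro pos prs A U _ _ _ _ hA
    unfold goF
    exact mem_lor.2 (Or.inl (hself A hA))
  | succ n ih =>
    intro pos prs A U hok hpw hcl hprs hA
    have hAs := hself A hA
    unfold goF
    cases hb : Nat.beq (Nat.land (Nat.lor A U) (full r)) (Nat.land U (full r)) with
    | true =>
      rw [cond_true]
      have h1 := Nat.eq_of_beq_eq_true hb
      have h2 : Mem r (Nat.land (Nat.lor A U) (full r)) s :=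
        mem_land.2 ⟨mem_lor.2 (Or.inl hAs), full_mem r s⟩
      rw [h1] at h2
      exact (mem_land.1 h2).1
    | false =>
      rw [cond_false]
      cases pos with
      | nil => exact mem_salt.2 (mem_land.2 ⟨mem_lor.2 (Or.inl hAs), full_mem r s⟩)
      | cons x rest =>
        dsimp only
        rw [force_eq, force_eq]
        have hx := hok x List.mem_cons_self
        have hokr : ∀ z ∈ rest, PsOk r bl z := fun z hz => hok z (List.mem_cons_of_mem _ hz)
        obtain ⟨hx1, hpwr⟩ := List.pairwise_cons.1 hpw
        by_cases hmx : m x.t = x.t
        · -- a single position
          refine ih rest prs _ _ hokr hpwr ?_ hprs ?_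
          · intro z hz
            obtain ⟨y, hy, hyt⟩ := hcl z (List.mem_cons_of_mem _ hz)
            rcases List.mem_cons.1 hy with rfl | hy
            · have h1 := congrArg m hyt
              rw [hm, hmx] at h1
              have h2 := hx1 z hz
              omega
            · exact ⟨y, hy, hyt⟩
          · intro X hX
            refine sgF_mem hx (hA X hX) fun _ => ?_
            rw [flp_update]
            refine hA _ fun t => ?_
            by_cases ht : t = x.t
            · rw [ht, hmx]
            · have h1 : m t ≠ x.t := by
                intro h
                apply ht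
                rw [← hm t, h, hmx]
              rw [Function.update_of_ne ht, Function.update_of_ne h1, hX]
        · -- a pair of positions
          refine goF_mono ?_
          obtain ⟨y, hy, hyt⟩ := hcl x List.mem_cons_self
          have hyr : y ∈ rest := by
            rcases List.mem_cons.1 hy with rfl | hy
            · exact absurd hyt.symm hmx
            · exact hy
          obtain ⟨l', h1, h2, h3⟩ := mem_spl hyr
          have hxy : x.t < y.t := hx1 y hyr
          have hyok := hokr y hyr
          have hne : ∀ z ∈ l', z.t ≠ y.t := by
            have h4 : rest.Pairwise (fun a b => a.t ≠ b.t) :=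
              hpwr.imp fun h => Nat.ne_of_lt h
            have h5 := (h3.pairwise_iff (fun h => Ne.symm h)).1 h4
            intro z hz
            exact ((List.pairwise_cons.1 h5).1 z hz).symm
          have hmy : m y.t = x.t := by rw [hyt, hm]
          have hsx : s x.t ≠ 0 := hs _ hmx
          have hsy : s y.t ≠ 0 := hs _ (by rw [hmy]; omega)
          have hsub : ∀ z ∈ l', z ∈ rest := fun z hz => h2.subset hz
          refine foldF_get (P := fun V => Mem r V s) (spl rest) (fun U z _ hU => ?_) h1 (fun U => ?_) U
          · cases hc : (Nat.beq x.b z.1.b && !(prs.any (crsF x.t z.1.t))) with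
            | true =>
              rw [cond_true, force_eq]
              exact goF_mono hU
            | false =>
              rw [cond_false]
              exact hU
          · have hc : (Nat.beq x.b y.b && !(prs.any (crsF x.t y.t))) = true := by
              rw [Bool.and_eq_true, Bool.not_eq_true', List.any_eq_false]
              constructor
              · have h4 : x.b = y.b := by rw [hx.b, hyok.b, hyt, hbl]
                rw [h4]
                exact Nat.beq_refl y.b
              · intro p hp hcr
                unfold crsF at hcr
                rw [Bool.and_eq_true, Bool.and_eq_true, Nat.blt_eq, Nat.blt_eq, Nat.blt_eq,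
                  ← hprs p hp] at hcr
                refine hnc p.1 x.t hcr.1 hcr.2.1 ?_
                rw [← hyt]
                exact hcr.2.2
            dsimp only
            rw [hc, cond_true, force_eq]
            refine ih l' _ _ _ (fun z hz => hokr z (hsub z hz)) (hpwr.sublist h2) ?_ ?_ ?_
            · intro z hz
              obtain ⟨y', hy', hyt'⟩ := hcl z (List.mem_cons_of_mem _ (hsub z hz))
              have hxz := hx1 z (hsub z hz)
              rcases List.mem_cons.1 hy' with rfl | hy'
              · exfalso
                apply hne z hz
                rw [hyt, hyt', hm]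
              · rcases List.mem_cons.1 (h3.mem_iff.1 hy') with rfl | hy''
                · exfalso
                  have h4 := congrArg m hyt'
                  rw [hm, hmy] at h4
                  omega
                · exact ⟨y', hy'', hyt'⟩
            · intro p hp
              rcases List.mem_cons.1 hp with rfl | hp
              · exact hyt.symm
              · exact hprs p hp
            · intro X hX
              have h5 : X x.t = X y.t := by rw [hyt, hX]
              refine prF_mem hx hyok hxy (hA X hX) (flp_ne X hsx) (flp_ne X hsy) ?_
              have h6 : swp 0 (flp s X y.t) =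
                  swp 0 (flp s (Function.update X x.t (!X x.t)) y.t) := by
                unfold flp
                rw [Function.update_of_ne (by omega : y.t ≠ x.t)]
              rw [flp_update, h6, flp_update]
              refine hA _ fun t => ?_
              by_cases ht : t = x.t
              · rw [ht, ← hyt, Function.update_self,
                  Function.update_of_ne (by omega : x.t ≠ y.t), Function.update_self,
                  Function.update_of_ne (by omega : y.t ≠ x.t), h5]
              · by_cases ht' : t = y.t
                · rw [ht', hmy, Function.update_self,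
                    Function.update_of_ne (by omega : x.t ≠ y.t), Function.update_self,
                    Function.update_of_ne (by omega : y.t ≠ x.t), h5]
                · have h7 : m t ≠ x.t := by
                    intro h
                    apply ht'
                    rw [← hm t, h, hyt]
                  have h8 : m t ≠ y.t := by
                    intro h
                    apply ht
                    rw [← hm t, h, hmy]
                  rw [Function.update_of_ne h8, Function.update_of_ne h7,
                    Function.update_of_ne ht', Function.update_of_ne ht, hX]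

end Pool.Agent.Helper68.AW
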