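import Pool.Agent.Helper68.AW.Ops
import Pool.Agent.Helper68.AW.Go
import Pool.Agent.Helper68.AW.Col

/-!
# Project AW (MP_028d9b_co): the fast check is sound
-/

set_option autoImplicit false

namespace Pool.Agent.Helper68.AW

open Pool.Agent.Helper52.AH Pool.Agent.Helper31.AH Pool.Agent.Helper68.AV

/-- the state `s` of `r` positions as a function on all numbers -/
def xt {r : ℕ} (s : Fin r → Fin 3) (t : ℕ) : Fin 3 := if h : t < r then s ⟨t, h⟩ else 0

theorem xt_lt {r : ℕ} (s : Fin r → Fin 3) {t : ℕ} (h : t < r) : xt s t = s ⟨t, h⟩ := dif_pos h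

theorem xt_val {r : ℕ} (s : Fin r → Fin 3) : (fun t : Fin r => xt s t.val) = s := by
  funext t
  rw [xt_lt s t.isLt]

/-- all states of `S` are in the set `A` -/
def Sub {r : ℕ} (S : (Fin r → Fin 3) → Prop) (A : ℕ) : Prop := ∀ s, S s → Mem r A (xt s)

theorem mem_of_eq {r A : ℕ} {s s' : ℕ → Fin 3} (h : ∀ t, t < r → s t = s' t) (hs : Mem r A s) : Mem r A s' := by
  unfold Mem at hs ⊢
  rw [← cd_congr h]
  exact hs

theorem sub_perm {r : ℕ} {bl : Fin r → ℕ} {S : (Fin r → Fin 3) → Prop} (hS : ClB bl S) {A : ℕ} (hA : Sub S A)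
    (π : Equiv.Perm (Fin 3)) {s : Fin r → Fin 3} (hs : S s) : Mem r A (fun t => π (xt s t)) := by
  refine mem_of_eq (fun t ht => ?_) (hA _ (hS.per s hs π))
  rw [xt_lt _ ht, xt_lt _ ht]

theorem sub_rot3 {r : ℕ} {bl' : Fin r → ℕ} {S : (Fin r → Fin 3) → Prop} (hS : ClB bl' S) {A : ℕ} {bl : List ℕ}
    (hr : r = bl.length) (hA : Sub S A) : Sub S (rot3 (full r) (mkPs r 0 bl) A) := by
  intro s hs
  subst hr
  exact rot3_mem (hA s hs) (sub_perm hS hA (Equiv.addRight 1) hs) (sub_perm hS hA (Equiv.addRight 2) hs)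

theorem sub_sw {r : ℕ} {bl' : Fin r → ℕ} {S : (Fin r → Fin 3) → Prop} (hS : ClB bl' S) {A : ℕ} {bl : List ℕ}
    (hr : r = bl.length) (hA : Sub S A) : Sub S (foldF swF (mkPs r 0 bl) A) := by
  intro s hs
  subst hr
  have h1 := sub_perm hS hA (Equiv.neg (Fin 3)) hs
  have h2 := sw_mem h1
  refine mem_of_eq (fun t _ => ?_) h2
  simp

theorem sub_go {r : ℕ} {bl : List ℕ} {S : (Fin r → Fin 3) → Prop} (hS : ClB (fun t : Fin r => bl.getD t.val 0) S)
    (hr : r = bl.length) {A n : ℕ} (hA : Sub S A) : Sub S (goF (full r) n (mkPs r 0 bl) [] A 0) := by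
  intro s hs
  obtain ⟨m, hm1, hm2, hm3, hm4, hm5⟩ := hS.kem s hs 0
  obtain ⟨mm, hmm⟩ : ∃ mm : ℕ → ℕ, mm = fun t => if h : t < r then (m ⟨t, h⟩).val else t := ⟨_, rfl⟩
  have hlt : ∀ t (h : t < r), mm t = (m ⟨t, h⟩).val := fun t h => by rw [hmm]; exact dif_pos h
  have hge : ∀ t, ¬ t < r → mm t = t := fun t h => by rw [hmm]; exact dif_neg h
  have hok := mkPs_ok bl
  rw [← hr] at hok
  obtain ⟨o1, o2, -, o4⟩ := hok
  refine goF_sound (bl := fun t => bl.getD t 0) (m := mm) ?_ ?_ ?_ ?_ n _ [] A 0 o1 o2 ?_ ?_ ?_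
  · intro t
    by_cases h : t < r
    · rw [hlt t h, hlt _ (m ⟨t, h⟩).isLt]
      have := hm1 ⟨t, h⟩
      rw [Fin.eta, this]
    · rw [hge t h, hge t h]
  · intro t ht
    by_cases h : t < r
    · rw [xt_lt s h]
      refine hm2 ⟨t, h⟩ fun hcon => ht ?_
      rw [hlt t h, hcon]
    · exact absurd (hge t h) ht
  · intro a b hab hb hcon
    by_cases ha : a < r
    · rw [hlt a ha] at hb hcon
      have hb' : b < r := hb.trans (m ⟨a, ha⟩).isLt
      rw [hlt b hb'] at hcon
      exact hm3 ⟨a, ha⟩ ⟨b, hb'⟩ hab hb hcon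
    · rw [hge a ha] at hb
      omega
  · intro t
    by_cases h : t < r
    · rw [hlt t h]
      exact hm4 ⟨t, h⟩
    · rw [hge t h]
  · intro x hx
    have h1 := (o1 x hx).lt
    rw [hlt _ h1]
    exact o4 _ (m ⟨x.t, h1⟩).isLt
  · intro p hp
    exact absurd hp List.not_mem_nil
  · intro X hX
    have h1 := hA _ (hm5 (fun t => X t.val) fun t => by
      have := hX t.val
      rw [hlt t.val t.isLt] at this
      exact this)
    refine mem_of_eq (fun t ht => ?_) h1
    unfold flp
    rw [xt_lt _ ht, xt_lt _ ht]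

theorem sub_land {r : ℕ} {S : (Fin r → Fin 3) → Prop} {A B : ℕ} (hA : Sub S A) (hB : Sub S B) :
    Sub S (Nat.land A B) := fun s hs => mem_land.2 ⟨hA s hs, hB s hs⟩

theorem sub_salt {r : ℕ} {S : (Fin r → Fin 3) → Prop} {A : ℕ} (hA : Sub S A) : Sub S (salt A) :=
  fun s hs => mem_salt.2 (hA s hs)

theorem sub_rnd {r : ℕ} {bl : List ℕ} {S : (Fin r → Fin 3) → Prop} (hS : ClB (fun t : Fin r => bl.getD t.val 0) S)
    (hr : r = bl.length) {A : ℕ} (hA : Sub S A) : Sub S (rndF (full r) (mkPs r 0 bl) A) := by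
  unfold rndF
  rw [force_eq]
  exact sub_rot3 hS hr (sub_land hA (sub_go hS hr hA))

theorem it_sound {r : ℕ} {bl : List ℕ} {S : (Fin r → Fin 3) → Prop} (hS : ClB (fun t : Fin r => bl.getD t.val 0) S)
    (hr : r = bl.length) : ∀ (n A : ℕ), Sub S A → itF (full r) (mkPs r 0 bl) n A = true → ∀ s, ¬ S s := by
  have h0 : ∀ A : ℕ, Sub S A → A = 0 → ∀ s, ¬ S s := by
    intro A hA h s hs
    have := hA s hs
    rw [h] at this
    unfold Mem at this
    rw [Nat.zero_testBit] at this
    exact Bool.noConfusion this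
  intro n
  induction n with
  | zero =>
    intro A hA h
    exact h0 A hA (Nat.eq_of_beq_eq_true h)
  | succ n ih =>
    intro A hA h
    unfold itF at h
    by_cases hA0 : A = 0
    · exact h0 A hA hA0
    · have e1 : Nat.beq A 0 = false := by
        cases hb : Nat.beq A 0 with
        | false => rfl
        | true => exact absurd (Nat.eq_of_beq_eq_true hb) hA0
      rw [e1, cond_false, force_eq] at h
      cases hb : Nat.beq (rndF (full r) (mkPs r 0 bl) A) A with
      | true =>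
        rw [hb, cond_true] at h
        exact Bool.noConfusion h
      | false =>
        rw [hb, cond_false] at h
        exact ih _ (sub_rnd hS hr hA) h

/-- **The fast check is sound.** -/
theorem fast_sound (n : ℕ) (E : List (ℕ × ℕ)) (P bl : List ℕ) (hE : ∀ e ∈ E, e.1 ≤ n ∧ e.2 ≤ n)
    (hP : ∀ x ∈ P, x ≤ n) (h : fast E P bl = true) : KillB (mkC n E P) (fun t => bl.getD t.val 0) := by
  intro S hS hbad
  unfold fast at h
  rw [Bool.and_eq_true, force_eq, force_eq, force_eq, force_eq, force_eq] at h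
  obtain ⟨hlen, hit⟩ := h
  have hr : P.length = bl.length := Nat.eq_of_beq_eq_true hlen
  have hfull : Sub (r := P.length) S (full P.length) := fun s _ => full_mem _ _
  have hD : Sub (r := P.length) S (Nat.land (Nat.xor (full P.length)
      (colF (cutF (E.map (edF P.length P))) 0 (full P.length) 0)) (full P.length)) := by
    refine sub_land (fun s hs => mem_xor.2 fun hcon => ?_) hfull
    obtain ⟨e, he⟩ := colF_sound hE hP (hcon.1 (full_mem _ _))
    refine hbad s e hs ?_
    have e1 : (fun t : Fin (mkC n E P).r => xt s t.val) = s := xt_val (r := P.length) s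
    rw [e1] at he
    exact he
  have h1 := sub_rot3 (r := P.length) hS hr hD
  have h2 := sub_sw (r := P.length) hS hr h1
  exact it_sound (r := P.length) hS hr 20 _ (sub_salt (sub_land (sub_land h1 h2) hfull)) hit

end Pool.Agent.Helper68.AW
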