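import Pool.Agent.Helper68.AW.Defs

/-!
# Project AW (MP_028d9b_co): Kempe chains around a pattern with several boundary cycles

The positions of the ring are numbered block by block; `nx t` is the next position in the block of `t`.
-/

set_option autoImplicit false

namespace Pool.Agent.Helper68.AW

open Pool.Agent.Helper52.AH Pool.Agent.Helper31.AH Pool.Agent.Helper68.AV

variable {V : Type} [Fintype V] [DecidableEq V] {G : SimpleGraph V} [DecidableRel G.Adj]

/-- the potential of a Kempe chain between two names of the ring -/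
theorem pot_ex (R : Rot G) (hG : G.Connected) (hP : R.Planar) {H : SimpleGraph V} (hH : H ≤ G) {r : ℕ}
    {p o : Fin r → V} (hR : Rng H p o) (hT : ∀ a b : Fin r, (G \ H).Reachable (p a) (p b))
    (hT2 : ∀ z w, (G \ H).Adj z w → (∃ t, z = p t) ∨ ∀ w', ¬ H.Adj z w')
    (nx : Fin r → Fin r)
    (hord : ∀ ψ : G.Dart → ZMod 2, FF R ψ → ∀ (t : Fin r) (d d' : G.Dart),
      d.toProd = (p t, o t) → d'.toProd = (p (nx t), o (nx t)) → ψ d.symm = ψ d')
    {c : V → V → Fin 3} (hc : PC H c) (i : Fin 3) {a a' : Fin r} (haa' : a ≠ a')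
    (hr1 : (kg H c hc i).Reachable (p a) (p a')) :
    ∃ A : Fin r → ZMod 2, (∀ t, A (nx t) = A t + if t = a ∨ t = a' then 1 else 0) ∧
      ∀ b b', ¬ (kg H c hc i).Reachable (p a) (p b) → (kg H c hc i).Reachable (p b) (p b') →
        A b' = A b := by
  classical
  set K := kg H c hc i with hKdef
  have hKH : ∀ v w, K.Adj v w → H.Adj v w := fun v w h => h.1
  have hKG : ∀ v w, K.Adj v w → G.Adj v w := fun v w h => hH h.1
  have hd2 : ∀ v, dg K v ≤ 2 := kg_dg hc i
  have hd1 : ∀ t, dg K (p t) ≤ 1 := by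
    intro t
    rw [dg, Finset.card_le_one]
    intro x hx y hy
    rw [mem_nb] at hx hy
    rw [hR.one t x hx.1, hR.one t y hy.1]
  have hpaa' : p a ≠ p a' := fun e => haa' (hR.inj e)
  have hKa : K.Adj (p a) (o a) := by
    obtain ⟨w, hw⟩ := adj_of_reach hr1 hpaa'
    rw [← hR.one a w hw.1]
    exact hw
  have hKa' : K.Adj (p a') (o a') := by
    obtain ⟨w, hw⟩ := adj_of_reach hr1.symm hpaa'.symm
    rw [← hR.one a' w hw.1]
    exact hw
  obtain ⟨χ, hχ1, hχ2, hχ3⟩ := exists_chi (G \ H) (hT a a')
  have hχH : ∀ v w, H.Adj v w → χ v w = 0 := by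
    intro v w h
    apply hχ2
    intro h'
    exact ((SimpleGraph.sdiff_adj _ _ _ _).1 h').2 h
  set X : V → Prop := fun v => K.Reachable (p a) v with hX
  have hXadj : ∀ v w, K.Adj v w → (X v ↔ X w) := by
    intro v w h
    exact ⟨fun hv => hv.trans h.reachable, fun hw => hw.trans h.symm.reachable⟩
  set F : V → V → ZMod 2 := fun v w => χ v w + if K.Adj v w ∧ X v then 1 else 0 with hF
  have hFs : ∀ v w, F v w = F w v := by
    intro v w
    show χ v w + _ = χ w v + _
    rw [hχ1 v w]
    congr 1
    have : (K.Adj v w ∧ X v) ↔ (K.Adj w v ∧ X w) :=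
      ⟨fun h => ⟨h.1.symm, (hXadj v w h.1).1 h.2⟩, fun h => ⟨h.1.symm, (hXadj w v h.1).1 h.2⟩⟩
    simp only [this]
  have hF0 : ∀ v w, ¬ G.Adj v w → F v w = 0 := by
    intro v w h
    show χ v w + _ = 0
    have e1 : ¬ (G \ H).Adj v w := fun h' => h ((SimpleGraph.sdiff_adj _ _ _ _).1 h').1
    have e2 : ¬ (K.Adj v w ∧ X v) := fun h' => h (hKG v w h'.1)
    rw [hχ2 v w e1, if_neg e2, add_zero]
  set f : G.edgeSet → ZMod 2 := fun e => Sym2.lift ⟨F, hFs⟩ e.1 with hf
  have hfd : ∀ d : G.Dart, f (de d) = F d.fst d.snd := fun d => rfl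
  have hsum : ∀ v, ∑ d : G.Dart with d.fst = v, f (de d) = 0 := by
    intro v
    have e1 : ∑ d : G.Dart with d.fst = v, f (de d) = ∑ w, F v w := by
      rw [← sum_darts F hF0 v]
      exact Finset.sum_congr rfl fun d _ => hfd d
    rw [e1]
    show ∑ w, (χ v w + if K.Adj v w ∧ X v then 1 else 0) = 0
    rw [Finset.sum_add_distrib, hχ3]
    have e2 : ∑ w, (if K.Adj v w ∧ X v then (1 : ZMod 2) else 0) =
        if X v then ((dg K v : ℕ) : ZMod 2) else 0 := by
      by_cases hv : X v
      · simp only [hv, and_true, if_true]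
        rw [Finset.sum_boole, dg]
        congr 1
      · simp [hv]
    rw [e2]
    by_cases hv : X v
    · rw [if_pos hv]
      by_cases hva : v = p a
      · have e3 : dg K v = 1 := by
          have e4 := hd1 a
          rw [← hva] at e4
          have e5 : 0 < dg K v := by
            rw [dg, Finset.card_pos]
            exact ⟨o a, mem_nb.2 (by rw [hva]; exact hKa)⟩
          omega
        rw [e3, if_pos hva, if_neg (fun e => hpaa' (hva.symm.trans e))]
        decide
      · by_cases hva' : v = p a'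
        · have e3 : dg K v = 1 := by
            have e4 := hd1 a'
            rw [← hva'] at e4
            have e5 : 0 < dg K v := by
              rw [dg, Finset.card_pos]
              exact ⟨o a', mem_nb.2 (by rw [hva']; exact hKa')⟩
            omega
          rw [e3, if_neg hva, if_pos hva']
          decide
        · have e3 : dg K v = 2 := leaf2 K hd2 hpaa' hr1 hv hva hva' (hd1 a) (hd1 a')
          rw [e3, if_neg hva, if_neg hva']
          decide
    · have hva : v ≠ p a := by
        rintro rfl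
        exact hv (SimpleGraph.Reachable.refl _)
      have hva' : v ≠ p a' := by
        rintro rfl
        exact hv hr1
      rw [if_neg hv, if_neg hva, if_neg hva']
      rfl
  obtain ⟨ψ, hψ1, hψ2⟩ := exists_pot R hG hP f hsum
  have hFF : FF R ψ := hψ1
  have hz2 : ∀ x y : ZMod 2, 0 = x + y → x = y := by decide
  -- the darts of the ring
  set D : Fin r → G.Dart := fun t => ⟨(p t, o t), hH (hR.adj t)⟩ with hD
  -- (ii)
  set A : Fin r → ZMod 2 := fun t => ψ (D t) with hA
  have hstep : ∀ t, A (nx t) = A t + if t = a ∨ t = a' then 1 else 0 := by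
    intro t
    have e1 : ψ (D t).symm = A (nx t) := hord ψ hFF t (D t) (D (nx t)) rfl rfl
    have e2 := hψ2 (D t)
    rw [hfd, e1] at e2
    have e3 : F (D t).fst (D t).snd = if t = a ∨ t = a' then 1 else 0 := by
      show χ (p t) (o t) + (if K.Adj (p t) (o t) ∧ X (p t) then 1 else 0) = _
      rw [hχH _ _ (hR.adj t), zero_add]
      by_cases hta : t = a
      · subst hta
        rw [if_pos ⟨hKa, SimpleGraph.Reachable.refl _⟩, if_pos (Or.inl rfl)]
      · by_cases hta' : t = a'
        · subst hta'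
          rw [if_pos ⟨hKa', hr1⟩, if_pos (Or.inr rfl)]
        · rw [if_neg, if_neg]
          · rintro (h | h)
            · exact hta h
            · exact hta' h
          · rintro ⟨_, hx⟩
            exact leaf K hd2 hpaa' (fun e => hta (hR.inj e).symm) (fun e => hta' (hR.inj e).symm)
              hr1 hx (hd1 a) (hd1 a') (hd1 t)
    rw [e3] at e2
    have e4 : ∀ x y z : ZMod 2, x = y + z → z = y + x := by decide
    exact e4 _ _ _ e2
  refine ⟨A, hstep, ?_⟩
  intro b b' hnot hr2
  have hXb : ∀ z, K.Reachable (p b) z → ¬ X z := by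
    intro z hz hx
    exact hnot (hx.trans hz.symm)
  -- (i)
  have hi : ∀ z, K.Reachable (p b) z → ∀ d : G.Dart, d.fst = z → H.Adj d.fst d.snd →
      ψ d = ψ (D b) := by
    intro z hz
    rw [SimpleGraph.reachable_iff_reflTransGen] at hz
    induction hz with
    | refl =>
      intro d hd hH'
      have e : d = D b := by
        apply SimpleGraph.Dart.ext
        refine Prod.ext hd ?_
        rw [hd] at hH'
        exact hR.one b _ hH'
      rw [e]
    | @tail z z' hz hzz' ih =>
      have hzr : K.Reachable (p b) z := (SimpleGraph.reachable_iff_reflTransGen _ _).2 hz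
      have hzr' : K.Reachable (p b) z' := hzr.trans hzz'.reachable
      have hHzz' : H.Adj z z' := hKH _ _ hzz'
      set d0 : G.Dart := ⟨(z, z'), hH hHzz'⟩ with hd0
      have e1 : ψ d0 = ψ (D b) := ih d0 rfl hHzz'
      have e2 : f (de d0) = 0 := by
        rw [hfd]
        show χ z z' + (if K.Adj z z' ∧ X z then 1 else 0) = 0
        rw [hχH z z' hHzz', if_neg (fun h => hXb z hzr h.2), add_zero]
      have e3 : ψ d0.symm = ψ (D b) := by
        have e4 := hψ2 d0
        rw [e2] at e4
        rw [← hz2 _ _ e4, e1]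
      have hfst : d0.symm.fst = z' := rfl
      intro d hd hH'
      by_cases hex : ∃ w, (G \ H).Adj z' w
      · obtain ⟨w, hw⟩ := hex
        rcases hT2 z' w hw with ⟨t, ht⟩ | hno
        · have e5 : z = o t := hR.one t z (by rw [← ht]; exact hHzz'.symm)
          have e6 : d.snd = o t := hR.one t _ (by rw [← ht, ← hd]; exact hH')
          have e7 : d = d0.symm := by
            apply SimpleGraph.Dart.ext
            exact Prod.ext hd (e6.trans e5.symm)
          rw [e7, e3]
        · exact absurd hHzz'.symm (hno z)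
      · have hloc : ∀ d : G.Dart, d.fst = z' → ψ (R.σ d) = ψ d := by
          intro d hd
          have e5 : f (de d) = 0 := by
            rw [hfd, hd]
            show χ z' d.snd + (if K.Adj z' d.snd ∧ X z' then 1 else 0) = 0
            rw [hχ2 z' d.snd (fun h => hex ⟨_, h⟩), if_neg (fun h => hXb z' hzr' h.2), add_zero]
          have e6 := hψ2 d
          rw [e5] at e6
          rw [← hψ1 d]
          exact (hz2 _ _ e6).symm
        obtain ⟨j, hj⟩ := (R.cyc d0.symm d (hfst.trans hd.symm)).exists_nat_pow_eq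
        have hpow : ∀ j : ℕ, ((R.σ ^ j) d0.symm).fst = z' ∧ ψ ((R.σ ^ j) d0.symm) = ψ d0.symm := by
          intro j
          induction j with
          | zero => exact ⟨rfl, rfl⟩
          | succ j ihj =>
            rw [pow_succ', Equiv.Perm.mul_apply]
            exact ⟨(R.fst_eq _).trans ihj.1, (hloc _ ihj.1).trans ihj.2⟩
        rw [← hj, (hpow j).2, e3]
  exact hi (p b') hr2 (D b') rfl (hR.adj b')

theorem nc_ofB (R : Rot G) (hG : G.Connected) (hP : R.Planar) {H : SimpleGraph V} (hH : H ≤ G) {r : ℕ}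
    {p o : Fin r → V} (hR : Rng H p o) (hT : ∀ a b : Fin r, (G \ H).Reachable (p a) (p b))
    (hT2 : ∀ z w, (G \ H).Adj z w → (∃ t, z = p t) ∨ ∀ w', ¬ H.Adj z w')
    (bl : Fin r → ℕ) (hbl : ∀ t u : Fin r, t ≤ u → bl t ≤ bl u) (nx : Fin r → Fin r)
    (hn1 : ∀ (t : Fin r) (h : t.val + 1 < r), bl ⟨t.val + 1, h⟩ = bl t → nx t = ⟨t.val + 1, h⟩)
    (hn2 : ∀ t : Fin r, (∀ h : t.val + 1 < r, bl ⟨t.val + 1, h⟩ ≠ bl t) →
      bl (nx t) = bl t ∧ ∀ u, bl u = bl t → nx t ≤ u)
    (hord : ∀ ψ : G.Dart → ZMod 2, FF R ψ → ∀ (t : Fin r) (d d' : G.Dart),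
      d.toProd = (p t, o t) → d'.toProd = (p (nx t), o (nx t)) → ψ d.symm = ψ d')
    {c : V → V → Fin 3} (hc : PC H c) (i : Fin 3) :
    (∀ a b, (kg H c hc i).Reachable (p a) (p b) → bl a = bl b) ∧
    (∀ a b a' b', a < b → b < a' → a' < b' → (kg H c hc i).Reachable (p a) (p a') →
      (kg H c hc i).Reachable (p b) (p b') → (kg H c hc i).Reachable (p a) (p b)) := by
  classical
  -- the run along a block
  have hrun : ∀ (A : Fin r → ZMod 2) (a a' : Fin r),
      (∀ t, A (nx t) = A t + if t = a ∨ t = a' then 1 else 0) → a ≠ a' →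
      ∀ b : Fin r, ∀ n : ℕ, b.val ≤ n → ∀ hn : n < r, bl ⟨n, hn⟩ = bl b →
      A ⟨n, hn⟩ = A b + ((if b.val ≤ a.val ∧ a.val < n then 1 else 0) +
        (if b.val ≤ a'.val ∧ a'.val < n then 1 else 0)) := by
    intro A a a' hstep haa' b n hbn
    induction n, hbn using Nat.le_induction with
    | base =>
      intro hn _
      rw [if_neg (by omega), if_neg (by omega), add_zero, add_zero]
    | succ n hbn ih =>
      intro hn hbl1
      have hn' : n < r := by omega
      have e1 : bl ⟨n, hn'⟩ = bl b := by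
        have e2 : bl b ≤ bl ⟨n, hn'⟩ := hbl _ _ (by rw [Fin.le_def]; exact hbn)
        have e3 : bl ⟨n, hn'⟩ ≤ bl ⟨n + 1, hn⟩ := hbl _ _ (by rw [Fin.le_def]; simp)
        omega
      have e4 : nx ⟨n, hn'⟩ = ⟨n + 1, hn⟩ := hn1 ⟨n, hn'⟩ hn (by rw [hbl1, e1])
      have e5 := hstep ⟨n, hn'⟩
      rw [e4, ih hn' e1] at e5
      rw [e5]
      by_cases hna : n = a.val
      · have hna' : n ≠ a'.val := fun e => haa' (Fin.ext (hna.symm.trans e))
        have e6 : (⟨n, hn'⟩ : Fin r) = a := Fin.ext hna
        rw [if_pos (Or.inl e6), if_neg (show ¬ (b.val ≤ a.val ∧ a.val < n) by omega),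
          if_pos (show b.val ≤ a.val ∧ a.val < n + 1 by omega)]
        by_cases hlt : b.val ≤ a'.val ∧ a'.val < n
        · rw [if_pos hlt, if_pos (show b.val ≤ a'.val ∧ a'.val < n + 1 by omega)]
          ring
        · rw [if_neg hlt, if_neg (show ¬ (b.val ≤ a'.val ∧ a'.val < n + 1) by omega)]
          ring
      · by_cases hna' : n = a'.val
        · have e6 : (⟨n, hn'⟩ : Fin r) = a' := Fin.ext hna'
          rw [if_pos (Or.inr e6), if_neg (show ¬ (b.val ≤ a'.val ∧ a'.val < n) by omega),
            if_pos (show b.val ≤ a'.val ∧ a'.val < n + 1 by omega)]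
          by_cases hlt : b.val ≤ a.val ∧ a.val < n
          · rw [if_pos hlt, if_pos (show b.val ≤ a.val ∧ a.val < n + 1 by omega)]
            ring
          · rw [if_neg hlt, if_neg (show ¬ (b.val ≤ a.val ∧ a.val < n + 1) by omega)]
            ring
        · have e6 : ¬ ((⟨n, hn'⟩ : Fin r) = a ∨ (⟨n, hn'⟩ : Fin r) = a') := by
            rintro (h | h)
            · exact hna (congrArg Fin.val h)
            · exact hna' (congrArg Fin.val h)
          rw [if_neg e6, add_zero]
          have e7 : (b.val ≤ a.val ∧ a.val < n) ↔ (b.val ≤ a.val ∧ a.val < n + 1) := by omega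
          have e8 : (b.val ≤ a'.val ∧ a'.val < n) ↔ (b.val ≤ a'.val ∧ a'.val < n + 1) := by omega
          simp only [e7, e8]
  -- linked positions are in one block
  have hfirst : ∀ a b, (kg H c hc i).Reachable (p a) (p b) → bl a = bl b := by
    intro a a' hr1
    by_contra hne
    have haa' : a ≠ a' := fun e => hne (by rw [e])
    obtain ⟨A, hstep, -⟩ := pot_ex R hG hP hH hR hT hT2 nx hord hc i haa' hr1
    have hnon : (Finset.univ.filter fun t => bl t = bl a).Nonempty :=
      ⟨a, Finset.mem_filter.2 ⟨Finset.mem_univ _, rfl⟩⟩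
    set e : Fin r := (Finset.univ.filter fun t => bl t = bl a).max' hnon with he
    have he1 : bl e = bl a := (Finset.mem_filter.1 (Finset.max'_mem _ hnon)).2
    have he2 : ∀ u, bl u = bl a → u ≤ e := fun u hu =>
      Finset.le_max' _ u (Finset.mem_filter.2 ⟨Finset.mem_univ _, hu⟩)
    obtain ⟨hs1, hs2⟩ := hn2 e (by
      intro h heq
      have h1 := he2 ⟨e.val + 1, h⟩ (heq.trans he1)
      rw [Fin.le_def] at h1
      simp only at h1
      omega)
    set s : Fin r := nx e with hs
    have hsa : s ≤ a := hs2 a he1.symm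
    have hae : a ≤ e := he2 a rfl
    have hse : s ≤ e := hsa.trans hae
    have h1 := hrun A a a' hstep haa' s e.val hse e.isLt (by rw [hs1])
    have h2 := hstep e
    rw [← hs] at h2
    have h3 : ¬ (s.val ≤ a'.val ∧ a'.val < e.val) := by
      rintro ⟨h4, h5⟩
      apply hne
      have h6 : bl s ≤ bl a' := hbl s a' h4
      have h7 : bl a' ≤ bl e := hbl a' e h5.le
      rw [hs1, he1] at h6
      rw [he1] at h7
      omega
    have h4 : e ≠ a' := fun h => hne (by rw [← h, he1])
    rw [if_neg h3, add_zero] at h1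
    have h5 : A ⟨e.val, e.isLt⟩ = A e := rfl
    rw [h5] at h1
    by_cases hea : e = a
    · rw [if_pos (Or.inl hea)] at h2
      have h6 : ¬ (s.val ≤ a.val ∧ a.val < e.val) := by
        rw [hea]
        omega
      rw [if_neg h6, add_zero] at h1
      rw [h1] at h2
      have : ∀ x : ZMod 2, x = x + 1 → False := by decide
      exact this _ h2
    · have h6 : s.val ≤ a.val ∧ a.val < e.val := by
        refine ⟨hsa, ?_⟩
        have h7 : a.val ≠ e.val := fun h => hea (Fin.ext h).symm
        have h8 : a.val ≤ e.val := hae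
        omega
      rw [if_neg (by rintro (h | h); exacts [hea h, h4 h]), add_zero] at h2
      rw [if_pos h6] at h1
      rw [h1] at h2
      have : ∀ x : ZMod 2, x = x + 1 → False := by decide
      exact this _ h2
  refine ⟨hfirst, ?_⟩
  intro a b a' b' h1 h2 h3 hr1 hr2
  by_contra hnot
  have haa' : a ≠ a' := ne_of_lt (h1.trans h2)
  obtain ⟨A, hstep, hsame⟩ := pot_ex R hG hP hH hR hT hT2 nx hord hc i haa' hr1
  have e1 := hrun A a a' hstep haa' b b'.val (h2.trans h3).le b'.isLt (hfirst b b' hr2).symm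
  have e2 : ¬ (b.val ≤ a.val ∧ a.val < b'.val) := by
    rw [Fin.lt_def] at h1
    omega
  have e3 : b.val ≤ a'.val ∧ a'.val < b'.val := by
    rw [Fin.lt_def] at h2 h3
    omega
  rw [if_neg e2, if_pos e3, zero_add] at e1
  have e4 : A ⟨b'.val, b'.isLt⟩ = A b := hsame b b' hnot hr2
  rw [e4] at e1
  have : ∀ x : ZMod 2, x = x + 1 → False := by decide
  exact this _ e1

end Pool.Agent.Helper68.AW
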