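import Pool.Agent.Helper68.AW.Defs

/-!
# Project AW (MP_028d9b_co): Kempe changes with blocks

The states of a ring are closed under Kempe changes which stay inside the blocks; reduction with blocks.
-/

set_option autoImplicit false

namespace Pool.Agent.Helper68.AW

open Pool.Agent.Helper52.AH Pool.Agent.Helper31.AH Pool.Agent.Helper68.AV

theorem clB_of {V : Type} [Fintype V] {H : SimpleGraph V} {r : ℕ} {p o : Fin r → V}
    (hR : Rng H p o) (bl : Fin r → ℕ)
    (h1 : ∀ c (hc : PC H c) (i : Fin 3) (a b : Fin r),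
      (kg H c hc i).Reachable (p a) (p b) → bl a = bl b)
    (h2 : ∀ c (hc : PC H c) (i : Fin 3) (a b a' b' : Fin r), a < b → b < a' → a' < b' →
      (kg H c hc i).Reachable (p a) (p a') → (kg H c hc i).Reachable (p b) (p b') →
      (kg H c hc i).Reachable (p a) (p b)) : ClB bl (Stt H p o) := by
  classical
  refine ⟨?_, ?_⟩
  · rintro s ⟨c, hc, hs⟩ i
    have hd1 : ∀ t, dg (kg H c hc i) (p t) ≤ 1 := by
      intro t
      rw [dg, Finset.card_le_one]
      intro a ha b hb
      rw [mem_nb] at ha hb
      rw [hR.one t a ha.1, hR.one t b hb.1]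
    have hd2 : ∀ v, dg (kg H c hc i) v ≤ 2 := kg_dg hc i
    have huniq : ∀ t u u', u ≠ t → u' ≠ t → (kg H c hc i).Reachable (p t) (p u) →
        (kg H c hc i).Reachable (p t) (p u') → u = u' := by
      intro t u u' hu hu' h h'
      by_contra hne
      exact leaf (kg H c hc i) hd2 (fun e => hu (hR.inj e).symm) (fun e => hu' (hR.inj e).symm)
        (fun e => hne (hR.inj e)) h h' (hd1 _) (hd1 _) (hd1 _)
    obtain ⟨m, hm1, hm2⟩ : ∃ m : Fin r → Fin r,
        (∀ t u, u ≠ t → (kg H c hc i).Reachable (p t) (p u) → m t = u) ∧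
        ∀ t, (kg H c hc i).Reachable (p t) (p (m t)) := by
      refine ⟨fun t => if h : ∃ u, u ≠ t ∧ (kg H c hc i).Reachable (p t) (p u) then h.choose
        else t, ?_, ?_⟩
      · intro t u hu h
        have hex : ∃ u, u ≠ t ∧ (kg H c hc i).Reachable (p t) (p u) := ⟨u, hu, h⟩
        simp only [dif_pos hex]
        exact huniq t _ _ hex.choose_spec.1 hu hex.choose_spec.2 h
      · intro t
        by_cases hex : ∃ u, u ≠ t ∧ (kg H c hc i).Reachable (p t) (p u)
        · simp only [dif_pos hex]
          exact hex.choose_spec.2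
        · simp only [dif_neg hex]
          exact SimpleGraph.Reachable.refl _
    refine ⟨m, ?_, ?_, ?_, fun t => (h1 c hc i t (m t) (hm2 t)).symm, ?_⟩
    · intro t
      by_cases h : m t = t
      · rw [h, h]
      · exact hm1 (m t) t (Ne.symm h) (hm2 t).symm
    · intro t ht
      obtain ⟨w, hw⟩ := adj_of_reach (hm2 t) (fun e => ht (hR.inj e).symm)
      have hwo := hR.one t w hw.1
      rw [← hs t, ← hwo]
      exact hw.2
    · intro a b hab hb hlt
      have h := h2 c hc i a b (m a) (m b) hab hb hlt (hm2 a) (hm2 b)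
      have h3 := hm1 a b (ne_of_gt hab) h
      rw [h3] at hb
      exact lt_irrefl _ hb
    · intro X hX
      set Z : V → Prop := fun z => ∃ t, X t = true ∧ (kg H c hc i).Reachable (p t) z with hZ
      have hval : ∀ v w, H.Adj v w → Z v →
          (if Z v ∧ Z w then swp i (c v w) else c v w) = swp i (c v w) := by
        intro v w hvw hv
        by_cases hw : Z w
        · rw [if_pos ⟨hv, hw⟩]
        · rw [if_neg (fun h => hw h.2)]
          by_cases hci : c v w = i
          · rw [hci, swp_self]
          · exfalso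
            apply hw
            obtain ⟨t, ht, hr⟩ := hv
            have hadj : (kg H c hc i).Adj v w := ⟨hvw, hci⟩
            exact ⟨t, ht, hr.trans hadj.reachable⟩
      refine ⟨fun v w => if Z v ∧ Z w then swp i (c v w) else c v w, ⟨?_, ?_⟩, ?_⟩
      · intro v w
        by_cases hvw : Z v ∧ Z w
        · simp only [if_pos hvw, if_pos hvw.symm]
          rw [hc.symm]
        · have hwv : ¬ (Z w ∧ Z v) := fun h => hvw h.symm
          simp only [if_neg hvw, if_neg hwv]
          rw [hc.symm]
      · intro v w w' hw hw' hne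
        by_cases hv : Z v
        · simp only [hval v w hw hv, hval v w' hw' hv]
          intro h
          exact hc.prop v w w' hw hw' hne (swp_inj i h)
        · have h1 : ¬ (Z v ∧ Z w) := fun h => hv h.1
          have h2 : ¬ (Z v ∧ Z w') := fun h => hv h.1
          simp only [if_neg h1, if_neg h2]
          exact hc.prop v w w' hw hw' hne
      · intro t
        cases hXt : X t with
        | true =>
          have hz : Z (p t) := ⟨t, hXt, SimpleGraph.Reachable.refl _⟩
          show (if Z (p t) ∧ Z (o t) then swp i (c (p t) (o t)) else c (p t) (o t)) =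
            if X t = true then swp i (s t) else s t
          rw [hval (p t) (o t) (hR.adj t) hz, hs t, if_pos hXt]
        | false =>
          have hz : ¬ (Z (p t) ∧ Z (o t)) := by
            rintro ⟨⟨u, hu, hr⟩, _⟩
            by_cases hut : t = u
            · rw [hut, hu] at hXt
              exact Bool.noConfusion hXt
            · have h1 := hm1 u t hut hr
              have h2 := hX u
              rw [h1, hXt, hu] at h2
              exact Bool.noConfusion h2
          show (if Z (p t) ∧ Z (o t) then swp i (c (p t) (o t)) else c (p t) (o t)) =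
            if X t = true then swp i (s t) else s t
          rw [if_neg hz, hs t, hXt, if_neg Bool.false_ne_true]
  · rintro s ⟨c, hc, hs⟩ π
    refine ⟨fun v w => π (c v w), ⟨?_, ?_⟩, ?_⟩
    · intro v w
      simp only [hc.symm v w]
    · intro v w w' hw hw' hne h
      exact hc.prop v w w' hw hw' hne (π.injective h)
    · intro t
      simp only [hs t]

theorem redB {V : Type} [Fintype V] {G : SimpleGraph V} (hG : Crit G) {C : Cfg}
    {φ : Fin C.n → V} {o : Fin C.r → V} (hE : Emb G C φ o) (hne : C.E ≠ []) {bl : Fin C.r → ℕ}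
    (hcl : ClB bl (Stt (cut G C φ) (fun t => φ (C.P t)) o)) (hk : KillB C bl) : False := by
  obtain ⟨e, he⟩ := List.exists_mem_of_ne_nil _ hne
  obtain ⟨c, hc⟩ := hG.yes (φ e.1) (φ e.2) (hE.adjE e he)
  have hle : ∀ v w, (cut G C φ).Adj v w → (G.deleteEdges {s(φ e.1, φ e.2)}).Adj v w := by
    intro v w h
    rw [SimpleGraph.deleteEdges_adj]
    refine ⟨h.1, fun h' => h.2 e he ?_⟩
    rw [Set.mem_singleton_iff, Sym2.eq_iff] at h'
    rcases h' with ⟨h1, h2⟩ | ⟨h1, h2⟩
    · exact Or.inl ⟨h1.symm, h2.symm⟩
    · exact Or.inr ⟨h2.symm, h1.symm⟩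
  refine hk _ hcl (fun s l hs hl => hG.no (col_of_good hE hl hs))
    (fun t => c (φ (C.P t)) (o t)) ⟨c, ⟨hc.symm, ?_⟩, fun t => rfl⟩
  intro v w w' h1 h2 h3
  exact hc.prop v w w' (hle v w h1) (hle v w' h2) h3

end Pool.Agent.Helper68.AW
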