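import Pool.Agent.Helper68.AW.Slots

/-!
# Project AW (MP_028d9b_co): walks around the pattern

Functions on the faces along the boundary of the pattern; a pattern in which an edge on a cycle has the same
face on both sides is not plane.
-/

set_option autoImplicit false

namespace Pool.Agent.Helper68.AW

open Pool.Agent.Helper52.AH Pool.Agent.Helper31.AH Pool.Agent.Helper68.AV

variable {V : Type} [Fintype V] [DecidableEq V] {G : SimpleGraph V} [DecidableRel G.Adj]

/-- the next slot in the rotation -/
theorem next_slot {R : Rot G} {p : Pat} {b : ℕ → G.Dart} (hz : Rz R p b) {i k : ℕ}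
    (hi : i < p.length) :
    (R.σ ^ (if k + 1 = len p i then 0 else k + 1)) (b i) = R.σ ((R.σ ^ k) (b i)) := by
  have e : R.σ ((R.σ ^ k) (b i)) = (R.σ ^ (k + 1)) (b i) := by
    rw [pow_succ', Equiv.Perm.mul_apply]
  rw [e]
  split_ifs with h
  · rw [h, ← hz.deg i hi, pow_deg, pow_zero, Equiv.Perm.one_apply]
  · rfl

theorem next_lt {p : Pat} {i k : ℕ} (hk : k < len p i) :
    (if k + 1 = len p i then 0 else k + 1) < len p i := by
  split_ifs with h
  · omega
  · omega

/-- the reverse of a known slot -/
theorem sl' {R : Rot G} {p : Pat} {b : ℕ → G.Dart} (hz : Rz R p b) {i k j l : ℕ}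
    (h : slot p i k = some (j, l)) : (R.σ ^ k) (b i) = ((R.σ ^ l) (b j)).symm := by
  rw [← hz.sl i k j l h, SimpleGraph.Dart.symm_symm]

theorem tr_sound {R : Rot G} {p : Pat} {b : ℕ → G.Dart} (hw : Wf p) (hz : Rz R p b)
    (ψ : G.Dart → ZMod 2) (hψ : FF R ψ) : ∀ n i k i' k', i < p.length → k < len p i →
      tr p n i k = some (i', k') →
      ψ ((R.σ ^ k) (b i)).symm = ψ ((R.σ ^ k') (b i')) ∧ i' < p.length ∧ k' < len p i' ∧
        slot p i' k' = none := by
  intro n
  induction n with
  | zero =>
    intro i k i' k' _ _ h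
    simp [tr] at h
  | succ n ih =>
    intro i k i' k' hi hk h
    have e1 : ψ ((R.σ ^ k) (b i)).symm =
        ψ ((R.σ ^ (if k + 1 = len p i then 0 else k + 1)) (b i)) := by
      rw [next_slot hz hi]
      exact hψ _
    have hk1 := next_lt (p := p) (i := i) hk
    rw [tr] at h
    revert h hk1 e1
    generalize (if k + 1 = len p i then 0 else k + 1) = k1
    intro h e1 hk1
    cases hs : slot p i k1 with
    | none =>
      rw [hs] at h
      simp only [Option.some.injEq, Prod.mk.injEq] at h
      obtain ⟨rfl, rfl⟩ := h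
      exact ⟨e1, hi, hk1, hs⟩
    | some q =>
      obtain ⟨j, l⟩ := q
      rw [hs] at h
      simp only at h
      obtain ⟨hj, hl⟩ := tgt_range hw hs
      obtain ⟨h1, h2, h3, h4⟩ := ih j l i' k' hj hl h
      refine ⟨?_, h2, h3, h4⟩
      rw [e1, sl' hz hs]
      exact h1

/-- the walk around the pattern across the ring slots -/
theorem tr2_sound {R : Rot G} {p : Pat} {b : ℕ → G.Dart} (hw : Wf p) (hz : Rz R p b)
    (ψ : G.Dart → ZMod 2) (hψ : FF R ψ)
    (hring : ∀ i k, i < p.length → k < len p i → slot p i k = none →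
      ψ ((R.σ ^ k) (b i)) = ψ ((R.σ ^ k) (b i)).symm) (i0 k0 : ℕ) :
    ∀ n i k, i < p.length → k < len p i → tr2 p i0 k0 n i k = true →
      ψ ((R.σ ^ k) (b i)).symm = ψ ((R.σ ^ k0) (b i0)) := by
  intro n
  induction n with
  | zero =>
    intro i k _ _ h
    simp [tr2] at h
  | succ n ih =>
    intro i k hi hk h
    have e1 : ψ ((R.σ ^ k) (b i)).symm =
        ψ ((R.σ ^ (if k + 1 = len p i then 0 else k + 1)) (b i)) := by
      rw [next_slot hz hi]
      exact hψ _
    have hk1 := next_lt (p := p) (i := i) hk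
    rw [tr2] at h
    revert h hk1 e1
    generalize (if k + 1 = len p i then 0 else k + 1) = k1
    intro h e1 hk1
    by_cases hik : i = i0 ∧ k1 = k0
    · rw [e1, hik.1, hik.2]
    · rw [if_neg hik] at h
      cases hs : slot p i k1 with
      | none =>
        rw [hs] at h
        simp only at h
        rw [e1, hring i k1 hi hk1 hs]
        exact ih i k1 hi hk1 h
      | some q =>
        obtain ⟨j, l⟩ := q
        rw [hs] at h
        simp only at h
        obtain ⟨hj, hl⟩ := tgt_range hw hs
        rw [e1, sl' hz hs]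
        exact ih j l hj hl h

omit [Fintype V] [DecidableEq V] [DecidableRel G.Adj] in
theorem rch_sound {p : Pat} {b : ℕ → G.Dart} (T : SimpleGraph V) (i0 k0 j0 l0 : ℕ)
    (hT : ∀ i k j l, slot p i k = some (j, l) → ¬ ((i = i0 ∧ k = k0) ∨ (i = j0 ∧ k = l0)) →
      T.Adj (b i).fst (b j).fst) (v0 : V) :
    ∀ n L, (∀ x ∈ L, T.Reachable v0 (b x).fst) → ∀ x ∈ rch p i0 k0 j0 l0 n L,
      T.Reachable v0 (b x).fst := by
  intro n
  induction n with
  | zero =>
    intro L hL x hx
    exact hL x hx
  | succ n ih =>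
    intro L hL x hx
    rw [rch] at hx
    refine ih (stp p i0 k0 j0 l0 L) ?_ x hx
    intro y hy
    rw [stp, List.mem_append] at hy
    rcases hy with hy | hy
    · exact hL y hy
    · rw [List.mem_flatMap] at hy
      obtain ⟨i, hi, hy⟩ := hy
      rw [List.mem_filterMap] at hy
      obtain ⟨k, _, hy⟩ := hy
      by_cases hex : (i = i0 ∧ k = k0) ∨ (i = j0 ∧ k = l0)
      · rw [if_pos hex] at hy
        exact absurd hy (by simp)
      · rw [if_neg hex] at hy
        cases hs : slot p i k with
        | none =>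
          rw [hs] at hy
          exact absurd hy (by simp)
        | some q =>
          obtain ⟨j, l⟩ := q
          rw [hs] at hy
          simp only at hy
          split_ifs at hy with hc
          · have hjy : j = y := by simpa using hy
            subst hjy
            exact (hL i hi).trans (hT i k j l hs hex).reachable

/-- the ends of a known slot -/
theorem snd_slot {R : Rot G} {p : Pat} {b : ℕ → G.Dart} (hz : Rz R p b) {i k j l : ℕ}
    (h : slot p i k = some (j, l)) : ((R.σ ^ k) (b i)).snd = (b j).fst := by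
  rw [sl' hz h]
  show ((R.σ ^ l) (b j)).fst = _
  exact fst_pow R l _

/-- two darts at the same name with the same end are equal -/
theorem slot_inj {R : Rot G} {p : Pat} {b : ℕ → G.Dart} (hz : Rz R p b) {i k k' : ℕ}
    (hi : i < p.length) (hk : k < len p i) (hk' : k' < len p i)
    (h : ((R.σ ^ k) (b i)).snd = ((R.σ ^ k') (b i)).snd) : k = k' := by
  apply pow_inj R (b i) (by rw [hz.deg i hi]; exact hk) (by rw [hz.deg i hi]; exact hk')
  apply SimpleGraph.Dart.ext
  refine Prod.ext ?_ h
  show ((R.σ ^ k) (b i)).fst = ((R.σ ^ k') (b i)).fst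
  rw [fst_pow, fst_pow]

theorem genus_leaf (R : Rot G) (hG : G.Connected) (hP : R.Planar) {p : Pat} {b : ℕ → G.Dart}
    (hw : Wf p) (hz : Rz R p b) (h : genusChk p = true) : False := by
  classical
  rw [genusChk, List.any_eq_true] at h
  obtain ⟨i, hi, h⟩ := h
  rw [List.mem_range] at hi
  rw [List.any_eq_true] at h
  obtain ⟨k, hk, h⟩ := h
  rw [List.mem_range] at hk
  rw [gen] at h
  cases hs : slot p i k with
  | none =>
    rw [hs] at h
    simp at h
  | some q =>
    obtain ⟨j, l⟩ := q
    rw [hs] at h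
    simp only [Bool.and_eq_true] at h
    obtain ⟨h1, h2⟩ := h
    obtain ⟨hj, hl⟩ := tgt_range hw hs
    have hs' : slot p j l = some (i, k) := hw.sym i k j l hs
    have hij : i ≠ j := hw.ne i k j l hs
    -- the graph of the other slots
    let T : SimpleGraph V :=
      { Adj := fun x y => ∃ i' k' j' l', slot p i' k' = some (j', l') ∧
          ¬ ((i' = i ∧ k' = k) ∨ (i' = j ∧ k' = l)) ∧ x = (b i').fst ∧ y = (b j').fst
        symm := by
          refine ⟨?_⟩
          rintro x y ⟨i', k', j', l', e1, e2, e3, e4⟩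
          refine ⟨j', l', i', k', hw.sym _ _ _ _ e1, ?_, e4, e3⟩
          rintro (⟨rfl, rfl⟩ | ⟨rfl, rfl⟩)
          · have e5 := hw.sym _ _ _ _ e1
            rw [hs] at e5
            simp only [Option.some.injEq, Prod.mk.injEq] at e5
            exact e2 (Or.inr ⟨e5.1.symm, e5.2.symm⟩)
          · have e5 := hw.sym _ _ _ _ e1
            rw [hs'] at e5
            simp only [Option.some.injEq, Prod.mk.injEq] at e5
            exact e2 (Or.inl ⟨e5.1.symm, e5.2.symm⟩)
        loopless := by
          refine ⟨?_⟩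
          rintro x ⟨i', k', j', l', e1, _, e3, e4⟩
          have e5 := hz.inj i' j' (src_range e1).1 (tgt_range hw e1).1 (e3.symm.trans e4)
          exact hw.ne _ _ _ _ e1 e5 }
    have hTdef : ∀ x y, T.Adj x y ↔ ∃ i' k' j' l', slot p i' k' = some (j', l') ∧
          ¬ ((i' = i ∧ k' = k) ∨ (i' = j ∧ k' = l)) ∧ x = (b i').fst ∧ y = (b j').fst :=
      fun x y => Iff.rfl
    -- a dart at a name whose edge belongs to `T`
    have hTd : ∀ i1 k1, i1 < p.length → k1 < len p i1 →
        T.Adj ((R.σ ^ k1) (b i1)).fst ((R.σ ^ k1) (b i1)).snd →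
        (∃ q, slot p i1 k1 = some q) ∧ ¬ ((i1 = i ∧ k1 = k) ∨ (i1 = j ∧ k1 = l)) := by
      intro i1 k1 hi1 hk1 hadj
      rw [hTdef] at hadj
      obtain ⟨i', k', j', l', e1, e2, e3, e4⟩ := hadj
      rw [fst_pow] at e3
      have e5 : i1 = i' := hz.inj i1 i' hi1 (src_range e1).1 e3
      subst e5
      have e6 : k1 = k' := by
        apply slot_inj hz hi1 hk1 (src_range e1).2
        rw [e4, snd_slot hz e1]
      subst e6
      exact ⟨⟨_, e1⟩, e2⟩
    have hTG : ∀ x y, T.Adj x y → G.Adj x y := by
      intro x y hxy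
      obtain ⟨i', k', j', l', e1, e2, e3, e4⟩ := hxy
      have e5 := ((R.σ ^ k') (b i')).adj
      rw [fst_pow, snd_slot hz e1] at e5
      rw [e3, e4]
      exact e5
    have hreach : T.Reachable (b j).fst (b i).fst := by
      have h3 : i ∈ rch p i k j l p.length [j] := by
        simpa using h2
      refine rch_sound (p := p) (b := b) T i k j l ?_ (b j).fst p.length [j] ?_ i h3
      · intro i' k' j' l' e1 e2
        exact ⟨i', k', j', l', e1, e2, rfl, rfl⟩
      · intro x hx
        rw [List.mem_singleton] at hx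
        rw [hx]
    obtain ⟨χ, hχ1, hχ2, hχ3⟩ := exists_chi T hreach
    have hne : (b i).fst ≠ (b j).fst := fun e => hij (hz.inj i j hi hj e)
    set x : V := (b i).fst with hx
    set y : V := (b j).fst with hy
    have hxyG : G.Adj x y := by
      have e5 := ((R.σ ^ k) (b i)).adj
      rw [fst_pow, snd_slot hz hs] at e5
      exact e5
    set F : V → V → ZMod 2 := fun v w => χ v w + ((if v = x ∧ w = y then 1 else 0) +
      (if v = y ∧ w = x then 1 else 0)) with hF
    have hFs : ∀ v w, F v w = F w v := by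
      intro v w
      show χ v w + _ = χ w v + _
      rw [hχ1 v w]
      congr 1
      rw [add_comm]
      congr 1
      · simp only [and_comm]
      · simp only [and_comm]
    have hF0 : ∀ v w, ¬ G.Adj v w → F v w = 0 := by
      intro v w hvw
      have e1 : ¬ (v = x ∧ w = y) := by
        rintro ⟨rfl, rfl⟩
        exact hvw hxyG
      have e2 : ¬ (v = y ∧ w = x) := by
        rintro ⟨rfl, rfl⟩
        exact hvw hxyG.symm
      show χ v w + _ = 0
      rw [hχ2 v w (fun h' => hvw (hTG _ _ h')), if_neg e1, if_neg e2]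
      rfl
    set f : G.edgeSet → ZMod 2 := fun e => Sym2.lift ⟨F, hFs⟩ e.1 with hf
    have hfd : ∀ d : G.Dart, f (de d) = F d.fst d.snd := fun d => rfl
    have hsum : ∀ v, ∑ d : G.Dart with d.fst = v, f (de d) = 0 := by
      intro v
      have e1 : ∑ d : G.Dart with d.fst = v, f (de d) = ∑ w, F v w := by
        rw [← sum_darts F hF0 v]
        exact Finset.sum_congr rfl fun d _ => hfd d
      rw [e1]
      show ∑ w, (χ v w + _) = 0
      rw [Finset.sum_add_distrib, hχ3, Finset.sum_add_distrib]
      have e : ∀ s t : V, ∑ w, (if v = s ∧ w = t then (1 : ZMod 2) else 0) =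
          if v = s then 1 else 0 := by
        intro s t
        by_cases hv : v = s
        · simp [hv]
        · simp [hv]
      rw [e, e]
      have h4 : ∀ α β : ZMod 2, α + β + (β + α) = 0 := by decide
      exact h4 _ _
    obtain ⟨ψ, hψ1, hψ2⟩ := exists_pot R hG hP f hsum
    have hz2 : ∀ x y : ZMod 2, 0 = x + y → x = y := by decide
    have hring : ∀ i1 k1, i1 < p.length → k1 < len p i1 → slot p i1 k1 = none →
        ψ ((R.σ ^ k1) (b i1)) = ψ ((R.σ ^ k1) (b i1)).symm := by
      intro i1 k1 hi1 hk1 hn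
      apply hz2
      rw [← hψ2, hfd]
      have e1 : ¬ T.Adj ((R.σ ^ k1) (b i1)).fst ((R.σ ^ k1) (b i1)).snd := by
        intro hadj
        obtain ⟨⟨q, hq⟩, _⟩ := hTd i1 k1 hi1 hk1 hadj
        rw [hn] at hq
        exact absurd hq (by simp)
      have e2 : ¬ (((R.σ ^ k1) (b i1)).fst = x ∧ ((R.σ ^ k1) (b i1)).snd = y) := by
        rintro ⟨e3, e4⟩
        rw [fst_pow] at e3
        have e5 : i1 = i := hz.inj i1 i hi1 hi e3
        subst e5
        have e6 : k1 = k := by
          apply slot_inj hz hi1 hk1 hk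
          rw [e4, snd_slot hz hs]
        subst e6
        rw [hn] at hs
        exact absurd hs (by simp)
      have e3 : ¬ (((R.σ ^ k1) (b i1)).fst = y ∧ ((R.σ ^ k1) (b i1)).snd = x) := by
        rintro ⟨e3, e4⟩
        rw [fst_pow] at e3
        have e5 : i1 = j := hz.inj i1 j hi1 hj e3
        subst e5
        have e6 : k1 = l := by
          apply slot_inj hz hi1 hk1 hl
          rw [e4, snd_slot hz hs']
        subst e6
        rw [hn] at hs'
        exact absurd hs' (by simp)
      show 0 = χ _ _ + _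
      rw [hχ2 _ _ e1, if_neg e2, if_neg e3]
      rfl
    have hwalk := tr2_sound hw hz ψ hψ1 hring i k (3 * p.length + 3) i k hi hk h1
    have hfin := hψ2 ((R.σ ^ k) (b i))
    rw [hwalk, hfd, fst_pow, snd_slot hz hs] at hfin
    have e1 : ¬ T.Adj x y := by
      intro hadj
      have e2 : T.Adj ((R.σ ^ k) (b i)).fst ((R.σ ^ k) (b i)).snd := by
        rw [fst_pow, snd_slot hz hs]
        exact hadj
      exact (hTd i k hi hk e2).2 (Or.inl ⟨rfl, rfl⟩)
    have e2 : F x y = 1 := by
      show χ x y + _ = 1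
      rw [hχ2 _ _ e1, if_pos ⟨rfl, rfl⟩, if_neg (fun h' => hne h'.1)]
      decide
    rw [← hx, ← hy, e2] at hfin
    have : ∀ z : ZMod 2, 1 = z + z → False := by decide
    exact this _ hfin

end Pool.Agent.Helper68.AW
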