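import Pool.Agent.Helper68.AW.Slots
import Pool.Agent.Helper68.AW.JordanB
import Pool.Agent.Helper68.AW.KempeB
import Pool.Agent.Helper68.AW.Walk
import Pool.Agent.Helper68.AW.EmbOf

/-!
# Project AW (MP_028d9b_co), AW-7: the reducible leaf

`off B c` is the first position of the block `c`; `red_leaf`: a pattern whose configuration is reducible does not
appear in a critical plane graph.
-/

set_option autoImplicit false

namespace Pool.Agent.Helper68.AW

open Pool.Agent.Helper52.AH Pool.Agent.Helper31.AH Pool.Agent.Helper68.AV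

/-- the first position of the block `c` -/
private def off {α : Type} (B : List (List α)) (c : ℕ) : ℕ := ((B.map List.length).take c).sum

private theorem off_zero {α : Type} (B : List (List α)) : off B 0 = 0 := rfl

private theorem off_cons {α : Type} (x : List α) (B : List (List α)) (c : ℕ) :
    off (x :: B) (c + 1) = x.length + off B c := by
  simp [off]

private theorem off_succ {α : Type} (B : List (List α)) (c : ℕ) (hc : c < B.length) :
    off B (c + 1) = off B c + (B.getD c []).length := by
  induction B generalizing c with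
  | nil => simp at hc
  | cons x B ih =>
    cases c with
    | zero => simp [off]
    | succ c =>
      rw [off_cons, off_cons, ih c (by simpa using hc)]
      simp [add_assoc]

private theorem off_mono {α : Type} (B : List (List α)) {c c' : ℕ} (h : c ≤ c') : off B c ≤ off B c' := by
  unfold off
  exact List.Sublist.sum_le_sum (List.take_sublist_take_left h) (fun _ _ => Nat.zero_le _)

private theorem off_pos {α : Type} (B : List (List α)) (t : ℕ) (ht : t < B.flatten.length) :
    ∃ c j, c < B.length ∧ j < (B.getD c []).length ∧ t = off B c + j := by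
  induction B generalizing t with
  | nil => simp at ht
  | cons x B ih =>
    by_cases h : t < x.length
    · exact ⟨0, t, by simp, by simpa using h, by simp [off_zero]⟩
    · push Not at h
      rw [List.flatten_cons, List.length_append] at ht
      obtain ⟨c, j, hc, hj, he⟩ := ih (t - x.length) (by omega)
      refine ⟨c + 1, j, by simpa using hc, by simpa using hj, ?_⟩
      rw [off_cons]
      omega

private theorem off_lt {α : Type} (B : List (List α)) {c j : ℕ} (hc : c < B.length)
    (hj : j < (B.getD c []).length) : off B c + j < B.flatten.length := by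
  induction B generalizing c with
  | nil => simp at hc
  | cons x B ih =>
    rw [List.flatten_cons, List.length_append]
    cases c with
    | zero =>
      have h1 : j < x.length := by simpa using hj
      rw [off_zero]
      omega
    | succ c =>
      have h1 := ih (c := c) (by simpa using hc) (by simpa using hj)
      rw [off_cons]
      omega

private theorem flat_getD {α : Type} (B : List (List α)) (d : α) {c j : ℕ} (hc : c < B.length)
    (hj : j < (B.getD c []).length) : B.flatten.getD (off B c + j) d = (B.getD c []).getD j d := by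
  induction B generalizing c with
  | nil => simp at hc
  | cons x B ih =>
    rw [List.flatten_cons]
    cases c with
    | zero =>
      have h1 : j < x.length := by simpa using hj
      rw [off_zero, zero_add, List.getD_append _ _ _ _ h1]
      simp
    | succ c =>
      have h1 := ih (c := c) (by simpa using hc) (by simpa using hj)
      rw [off_cons, List.getD_append_right _ _ _ _ (by omega)]
      have h2 : x.length + off B c + j - x.length = off B c + j := by omega
      rw [h2, h1]
      simp

private theorem bls_getD (B : List (List (ℕ × ℕ))) {c j : ℕ} (hc : c < B.length)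
    (hj : j < (B.getD c []).length) : (bls B).getD (off B c + j) 0 = c := by
  set B' : List (List ℕ) := (List.range B.length).map fun j => List.replicate (B.getD j []).length j with hB'
  have h1 : bls B = B'.flatten := by rw [bls, List.flatMap_def]
  have h2 : B'.map List.length = B.map List.length := by
    apply List.ext_getElem
    · simp [hB']
    · intro i h3 h4
      have h5 : i < B.length := by simpa using h4
      simp [hB', List.getElem?_eq_getElem h5]
  have h3 : off B' c = off B c := by rw [off, h2, off]
  have h4 : c < B'.length := by simpa [hB'] using hc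
  have h5 : B'.getD c [] = List.replicate (B.getD c []).length c := by
    rw [List.getD_eq_getElem _ _ h4]
    simp [hB']
  rw [h1, ← h3, flat_getD B' 0 h4 (by rw [h5, List.length_replicate]; exact hj), h5,
    List.getD_eq_getElem _ _ (by rw [List.length_replicate]; exact hj)]
  simp


private theorem nd_nodup : ∀ l : List ℕ, nd l = true → l.Nodup
  | [], _ => List.nodup_nil
  | a :: l, h => by
    rw [nd, Bool.and_eq_true] at h
    refine List.nodup_cons.2 ⟨fun h1 => ?_, nd_nodup l h.2⟩
    have h2 := h.1
    rw [Bool.not_eq_true', List.contains_eq_mem] at h2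
    simp [h1] at h2

/-- the members of `E0 p` -/
private theorem rl_mem_E0 {p : Pat} {i k j l : ℕ} (h : slot p i k = some (j, l)) (hij : i < j) :
    (i, j) ∈ E0 p := by
  have h1 := src_range h
  unfold E0
  rw [List.mem_flatMap]
  refine ⟨i, List.mem_range.2 h1.1, ?_⟩
  rw [List.mem_filterMap]
  refine ⟨some (j, l), ?_, ?_⟩
  · have h2 : k < (p.getD i []).length := h1.2
    have h3 : (p.getD i [])[k] = some (j, l) := by
      rw [← h, slot, List.getD_eq_getElem _ _ h2]
    rw [← h3]
    exact List.getElem_mem h2
  · simp [hij]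

private theorem rl_of_mem_E0 {p : Pat} {e : ℕ × ℕ} (h : e ∈ E0 p) :
    e.1 < e.2 ∧ ∃ k l, slot p e.1 k = some (e.2, l) := by
  unfold E0 at h
  rw [List.mem_flatMap] at h
  obtain ⟨i, -, h2⟩ := h
  rw [List.mem_filterMap] at h2
  obtain ⟨s, hs, h3⟩ := h2
  obtain ⟨k, hk, hk2⟩ := List.getElem_of_mem hs
  match s, h3 with
  | some (j, l), h3 =>
    by_cases hij : i < j
    · simp only [hij, if_true, Option.some.injEq] at h3
      subst h3
      refine ⟨hij, k, l, ?_⟩
      rw [slot, List.getD_eq_getElem _ _ hk]
      exact hk2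
    · simp [hij] at h3
  | none, h3 => simp at h3

section
variable {V : Type} [Fintype V] [DecidableEq V] {G : SimpleGraph V} [DecidableRel G.Adj]

theorem red_leaf (R : Rot G) (hG : G.Connected) (hP : R.Planar) (hC : Crit G)
    {fast : List (ℕ × ℕ) → List ℕ → List ℕ → Bool}
    (hfast : ∀ n E P bl, (∀ e ∈ E, e.1 ≤ n ∧ e.2 ≤ n) → (∀ x ∈ P, x ≤ n) → fast E P bl = true →
      KillB (mkC n E P) (fun t => bl.getD t.val 0))
    {p : Pat} {b : ℕ → G.Dart} (hw : Wf p) (hz : Rz R p b) (h : redChk fast p = true) : False := by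
  unfold redChk at h
  obtain ⟨B, hB⟩ : ∃ B, B = blk p := ⟨_, rfl⟩
  rw [← hB] at h
  dsimp only at h
  rw [Bool.and_eq_true] at h
  obtain ⟨hv, hf⟩ := h
  have hv' := hv
  unfold vchk at hv'
  simp only [Bool.and_eq_true] at hv'
  obtain ⟨⟨⟨⟨⟨⟨c1, c2⟩, -⟩, c4⟩, c5⟩, c6⟩, c7⟩ := hv'
  have hpos : 0 < p.length := of_decide_eq_true c6
  obtain ⟨n, hn⟩ : ∃ n, p.length = n + 1 := ⟨p.length - 1, by omega⟩
  have hE := emb_of hw hz hn hv
  obtain ⟨P, hPd⟩ : ∃ P, P = B.flatten.map Prod.fst := ⟨_, rfl⟩
  rw [← hPd] at hE c1 hf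
  -- the positions
  have hlen : P.length = B.flatten.length := by rw [hPd, List.length_map]
  have hPget : ∀ t, t < B.flatten.length → P.getD t 0 = (B.flatten.getD t (0, 0)).1 := by
    intro t ht
    rw [hPd, List.getD_eq_getElem _ _ (by rw [List.length_map]; exact ht), List.getElem_map,
      List.getD_eq_getElem _ _ ht]
  have hmem : ∀ t, t < B.flatten.length → (B.flatten.getD t (0, 0)).1 < p.length ∧
      (B.flatten.getD t (0, 0)).2 < len p (B.flatten.getD t (0, 0)).1 := by
    intro t ht
    have h1 : B.flatten.getD t (0, 0) ∈ B.flatten := by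
      rw [List.getD_eq_getElem _ _ ht]
      exact List.getElem_mem ht
    rw [List.all_eq_true] at c2
    have h2 := c2 _ h1
    simp only [Bool.and_eq_true, decide_eq_true_eq] at h2
    exact ⟨h2.1.1, h2.1.2⟩
  have hPlt : ∀ x ∈ P, x ≤ n := by
    intro x hx
    obtain ⟨t, ht, h1⟩ := List.getElem_of_mem hx
    have h2 := hPget t (by rw [← hlen]; exact ht)
    rw [List.getD_eq_getElem _ _ ht, h1] at h2
    have h3 := (hmem t (by rw [← hlen]; exact ht)).1
    omega
  have hElt : ∀ e ∈ E0 p, e.1 ≤ n ∧ e.2 ≤ n := by
    intro e he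
    obtain ⟨-, k, l, h2⟩ := rl_of_mem_E0 he
    have h3 := src_range h2
    have h4 := src_range (hw.sym _ _ _ _ h2)
    omega
  have hof : ∀ x, x ≤ n → (Fin.ofNat (n + 1) x).val = x := by
    intro x hx
    rw [Fin.val_ofNat]
    exact Nat.mod_eq_of_lt (by omega)
  -- the names with ring edges
  have hPv : ∀ t : Fin P.length, ((mkC n (E0 p) P).P t).val = P.getD t.val 0 := by
    intro t
    change (Fin.ofNat (n + 1) (P.getD t.val 0)).val = _
    refine hof _ (hPlt _ ?_)
    rw [List.getD_eq_getElem _ _ t.2]
    exact List.getElem_mem t.2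
  have hinj : Function.Injective (mkC n (E0 p) P).P := by
    intro t u htu
    have h1 : P.getD t.val 0 = P.getD u.val 0 := by
      rw [← hPv t, ← hPv u, htu]
    rw [List.getD_eq_getElem _ _ t.2, List.getD_eq_getElem _ _ u.2] at h1
    exact Fin.ext ((nd_nodup P c1).getElem_inj_iff.1 h1)
  have hne : (mkC n (E0 p) P).E ≠ [] := by
    change List.map _ (E0 p) ≠ []
    intro h1
    rw [List.map_eq_nil_iff] at h1
    rw [h1] at c7
    simp at c7
  have hR := rng_of hE hinj
  -- the pattern is connected
  have hadj : ∀ i k j l, slot p i k = some (j, l) →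
      (G \ cut G (mkC n (E0 p) P) (fun i => (b i.val).fst)).Adj (b i).fst (b j).fst := by
    have h0 : ∀ i k j l, slot p i k = some (j, l) → i < j →
        (G \ cut G (mkC n (E0 p) P) (fun i => (b i.val).fst)).Adj (b i).fst (b j).fst := by
      intro i k j l h1 hij
      have h2 := rl_mem_E0 h1 hij
      have h3 : (Fin.ofNat (n + 1) i, Fin.ofNat (n + 1) j) ∈ (mkC n (E0 p) P).E :=
        List.mem_map.2 ⟨(i, j), h2, rfl⟩
      have h4 := tadj hE _ h3
      have h5 := hElt _ h2
      dsimp only at h4 h5
      rw [hof i h5.1, hof j h5.2] at h4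
      exact h4
    intro i k j l h1
    rcases lt_or_gt_of_ne (hw.ne i k j l h1) with h2 | h2
    · exact h0 i k j l h1 h2
    · exact (h0 j l i k (hw.sym _ _ _ _ h1) h2).symm
  have hreach : ∀ i, i < p.length →
      (G \ cut G (mkC n (E0 p) P) (fun i => (b i.val).fst)).Reachable (b 0).fst (b i).fst := by
    intro i hi
    rw [List.all_eq_true] at c5
    have h1 := c5 i (List.mem_range.2 hi)
    rw [List.contains_eq_mem, decide_eq_true_eq] at h1
    refine rch_sound (p := p) (b := b) _ p.length 0 p.length 0 (fun i k j l h2 _ => hadj i k j l h2)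
      (b 0).fst p.length [0] ?_ i h1
    intro x hx
    rw [List.mem_singleton] at hx
    rw [hx]
  have hT : ∀ s t : Fin P.length,
      (G \ cut G (mkC n (E0 p) P) (fun i => (b i.val).fst)).Reachable
        ((fun i : Fin (n + 1) => (b i.val).fst) ((mkC n (E0 p) P).P s))
        ((fun i : Fin (n + 1) => (b i.val).fst) ((mkC n (E0 p) P).P t)) := by
    intro s t
    have h1 : ∀ t : Fin P.length, ((mkC n (E0 p) P).P t).val < p.length := by
      intro t
      rw [hn]
      exact ((mkC n (E0 p) P).P t).2
    exact (hreach _ (h1 s)).symm.trans (hreach _ (h1 t))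
  -- the blocks
  have hex : ∀ t : Fin P.length, ∃ q : ℕ × ℕ, q.1 < B.length ∧ q.2 < (B.getD q.1 []).length ∧
      t.val = off B q.1 + q.2 := by
    intro t
    obtain ⟨c, j, h1, h2, h3⟩ := off_pos B t.val (by rw [← hlen]; exact t.2)
    exact ⟨(c, j), h1, h2, h3⟩
  choose q hq1 hq2 hq3 using hex
  have hbl : ∀ t : Fin P.length, (bls B).getD t.val 0 = (q t).1 := by
    intro t
    rw [hq3 t]
    exact bls_getD B (hq1 t) (hq2 t)
  have hblm : ∀ t u : Fin P.length, t ≤ u → (bls B).getD t.val 0 ≤ (bls B).getD u.val 0 := by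
    intro t u htu
    rw [hbl, hbl]
    by_contra hcon
    push Not at hcon
    have h1 := off_mono B (Nat.succ_le_of_lt hcon)
    have h2 := off_succ B (q u).1 (hq1 u)
    have h3 := hq2 u
    have h4 := hq3 u
    have h5 := hq3 t
    have h6 : t.val ≤ u.val := htu
    rw [Nat.succ_eq_add_one] at h1
    omega
  have hstep : ∀ t : Fin P.length,
      (if (q t).2 + 1 = (B.getD (q t).1 []).length then 0 else (q t).2 + 1) <
        (B.getD (q t).1 []).length := by
    intro t
    have h1 := hq2 t
    split_ifs with h2 <;> omega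
  obtain ⟨nx, hnx⟩ : ∃ nx : Fin P.length → Fin P.length, ∀ t, (nx t).val = off B (q t).1 +
      (if (q t).2 + 1 = (B.getD (q t).1 []).length then 0 else (q t).2 + 1) :=
    ⟨fun t => ⟨_, by rw [hlen]; exact off_lt B (hq1 t) (hstep t)⟩, fun t => rfl⟩
  have hblv : ∀ c j, c < B.length → j < (B.getD c []).length → ∀ u : Fin P.length,
      u.val = off B c + j → (bls B).getD u.val 0 = c := by
    intro c j h1 h2 u h3
    rw [h3]
    exact bls_getD B h1 h2
  have hblnx : ∀ t, (bls B).getD (nx t).val 0 = (q t).1 := fun t =>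
    hblv _ _ (hq1 t) (hstep t) _ (hnx t)
  have hn1 : ∀ (t : Fin P.length) (h : t.val + 1 < P.length),
      (bls B).getD (⟨t.val + 1, h⟩ : Fin P.length).val 0 = (bls B).getD t.val 0 →
        nx t = ⟨t.val + 1, h⟩ := by
    intro t h1 h2
    rw [hbl, hbl] at h2
    have h3 := hq3 ⟨t.val + 1, h1⟩
    have h4 := hq2 ⟨t.val + 1, h1⟩
    rw [h2] at h3 h4
    have h5 := hq3 t
    dsimp only at h3
    refine Fin.ext ?_
    rw [hnx t, if_neg (by omega)]
    dsimp only
    omega
  have hn2 : ∀ t : Fin P.length, (∀ h : t.val + 1 < P.length,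
      (bls B).getD (⟨t.val + 1, h⟩ : Fin P.length).val 0 ≠ (bls B).getD t.val 0) →
      (bls B).getD (nx t).val 0 = (bls B).getD t.val 0 ∧
        ∀ u : Fin P.length, (bls B).getD u.val 0 = (bls B).getD t.val 0 → nx t ≤ u := by
    intro t h1
    refine ⟨by rw [hblnx, hbl], fun u hu => ?_⟩
    have h2 : (q t).2 + 1 = (B.getD (q t).1 []).length := by
      by_contra hcon
      have h3 : (q t).2 + 1 < (B.getD (q t).1 []).length := by
        have h4 := hq2 t
        omega
      have h4 : t.val + 1 = off B (q t).1 + ((q t).2 + 1) := by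
        have h5 := hq3 t
        omega
      have h5 : t.val + 1 < P.length := by
        have h6 := off_lt B (hq1 t) h3
        omega
      refine h1 h5 ?_
      rw [hblv _ _ (hq1 t) h3 ⟨t.val + 1, h5⟩ h4, hbl]
    rw [hbl, hbl] at hu
    have h3 := hq3 u
    rw [hu] at h3
    change (nx t).val ≤ u.val
    rw [hnx t, if_pos h2]
    omega
  have hget : ∀ c j, c < B.length → j < (B.getD c []).length →
      B.flatten.getD (off B c + j) (0, 0) = (B.getD c []).getD j (0, 0) := fun c j h1 h2 =>
    flat_getD B (0, 0) h1 h2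
  have hdart : ∀ (d : G.Dart) (t : Fin P.length),
      d.toProd = ((fun i : Fin (n + 1) => (b i.val).fst) ((mkC n (E0 p) P).P t),
        ((R.σ ^ (B.flatten.getD t.val (0, 0)).2) (b (B.flatten.getD t.val (0, 0)).1)).snd) →
      d = (R.σ ^ (B.flatten.getD t.val (0, 0)).2) (b (B.flatten.getD t.val (0, 0)).1) := by
    intro d t hd
    refine SimpleGraph.Dart.ext _ _ ?_
    rw [hd]
    refine Prod.ext ?_ rfl
    dsimp only
    rw [hPv t, hPget t.val (by rw [← hlen]; exact t.2)]
    exact (fst_pow R _ _).symm
  have hord : ∀ ψ : G.Dart → ZMod 2, FF R ψ → ∀ (t : Fin P.length) (d d' : G.Dart),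
      d.toProd = ((fun i : Fin (n + 1) => (b i.val).fst) ((mkC n (E0 p) P).P t),
        ((R.σ ^ (B.flatten.getD t.val (0, 0)).2) (b (B.flatten.getD t.val (0, 0)).1)).snd) →
      d'.toProd = ((fun i : Fin (n + 1) => (b i.val).fst) ((mkC n (E0 p) P).P (nx t)),
        ((R.σ ^ (B.flatten.getD (nx t).val (0, 0)).2) (b (B.flatten.getD (nx t).val (0, 0)).1)).snd) →
      ψ d.symm = ψ d' := by
    intro ψ hψ t d d' h1 h2
    rw [hdart d t h1, hdart d' (nx t) h2]
    rw [List.all_eq_true] at c4
    have h3 : B.getD (q t).1 [] ∈ B := by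
      rw [List.getD_eq_getElem _ _ (hq1 t)]
      exact List.getElem_mem (hq1 t)
    have h4 := c4 _ h3
    rw [List.all_eq_true] at h4
    have h5 := h4 (q t).2 (List.mem_range.2 (hq2 t))
    rw [beq_iff_eq] at h5
    have h6 : B.flatten.getD t.val (0, 0) = (B.getD (q t).1 []).getD (q t).2 (0, 0) := by
      rw [hq3 t]
      exact hget _ _ (hq1 t) (hq2 t)
    have h7 : B.flatten.getD (nx t).val (0, 0) = (B.getD (q t).1 []).getD
        (if (q t).2 + 1 = (B.getD (q t).1 []).length then 0 else (q t).2 + 1) (0, 0) := by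
      rw [hnx t]
      exact hget _ _ (hq1 t) (hstep t)
    rw [← h6, ← h7] at h5
    have h8 := hmem t.val (by rw [← hlen]; exact t.2)
    exact (tr_sound hw hz ψ hψ _ _ _ _ _ h8.1 h8.2 h5).1
  -- assembly
  have hcutle : cut G (mkC n (E0 p) P) (fun i => (b i.val).fst) ≤ G := fun v w hvw => hvw.1
  have hcl := clB_of hR (fun t : Fin P.length => (bls B).getD t.val 0)
    (fun c hc i => (nc_ofB R hG hP hcutle hR hT (hT2_of hE) (fun t : Fin P.length => (bls B).getD t.val 0)
      hblm nx hn1 hn2 hord hc i).1)
    (fun c hc i => (nc_ofB R hG hP hcutle hR hT (hT2_of hE) (fun t : Fin P.length => (bls B).getD t.val 0)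
      hblm nx hn1 hn2 hord hc i).2)
  exact redB hC hE hne hcl (hfast n (E0 p) P (bls B) hElt hPlt hf)

end

end Pool.Agent.Helper68.AW
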