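import Pool.Agent.Helper68.AW.Slots

/-!
# AW-5: the pattern is the whole graph

All neighbours of names are names, so by connectedness every vertex is the vertex of exactly one name.
-/

set_option autoImplicit false

namespace Pool.Agent.Helper68.AW

open Pool.Agent.Helper52.AH Pool.Agent.Helper31.AH Pool.Agent.Helper68.AV

section

variable {V : Type} [Fintype V] [DecidableEq V] {G : SimpleGraph V} [DecidableRel G.Adj]

/-- every vertex is the vertex of a name -/
theorem whole_surj (R : Rot G) (hG : G.Connected) {p : Pat} {b : ℕ → G.Dart} (hw : Wf p)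
    (hz : Rz R p b) (hp : 0 < p.length)
    (hs : ∀ i < p.length, ∀ k < len p i, (slot p i k).isSome = true) (v : V) :
    ∃ i, i < p.length ∧ (b i).fst = v := by
  obtain ⟨q⟩ := hG.preconnected v (b 0).fst
  generalize hu : (b 0).fst = u at q
  induction q with
  | nil => exact ⟨0, hp, hu⟩
  | @cons x y z hadj q ih =>
    obtain ⟨j, hj, hjy⟩ := ih hu
    -- the dart from `y` to `x`
    obtain ⟨k, hk, hkd⟩ := pow_surj R (b j) ⟨(y, x), hadj.symm⟩ hjy.symm
    rw [hz.deg j hj] at hk
    obtain ⟨⟨j', l⟩, hjl⟩ := Option.isSome_iff_exists.mp (hs j hj k hk)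
    have h1 := hz.sl j k j' l hjl
    rw [hkd] at h1
    refine ⟨j', (tgt_range hw hjl).1, ?_⟩
    have h2 := congrArg (fun d : G.Dart => d.fst) h1
    simp only [fst_pow] at h2
    rw [← h2]
    rfl

theorem whole_count {p : Pat} (n : ℕ) : ((List.range p.length).filter fun i => len p i == n).length =
    ((Finset.range p.length).filter fun i => len p i = n).card := rfl

theorem whole_card (R : Rot G) {p : Pat} {b : ℕ → G.Dart} (hz : Rz R p b)
    (hs : ∀ v, ∃ i, i < p.length ∧ (b i).fst = v) (n : ℕ) :
    (Finset.univ.filter fun v => G.degree v = n).card =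
      ((List.range p.length).filter fun i => len p i == n).length := by
  rw [whole_count]
  symm
  refine Finset.card_bij (fun i _ => (b i).fst) ?_ ?_ ?_
  · intro i hi
    rw [Finset.mem_filter, Finset.mem_range] at hi
    rw [Finset.mem_filter]
    exact ⟨Finset.mem_univ _, (hz.deg i hi.1).trans hi.2⟩
  · intro i hi j hj h
    rw [Finset.mem_filter, Finset.mem_range] at hi hj
    exact hz.inj i j hi.1 hj.1 h
  · intro v hv
    rw [Finset.mem_filter] at hv
    obtain ⟨i, hi, hiv⟩ := hs v
    refine ⟨i, ?_, hiv⟩
    rw [Finset.mem_filter, Finset.mem_range]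
    refine ⟨hi, ?_⟩
    rw [← hz.deg i hi, hiv]
    exact hv.2

/-- version which needs only that there is a name -/
theorem whole_leaf_pos (R : Rot G) (hG : G.Connected) {p : Pat} {b : ℕ → G.Dart}
    (hw : Wf p) (hz : Rz R p b) (hp : 0 < p.length) (h : wholeChk p = true) :
    4 * (Finset.univ.filter fun v => G.degree v = 2).card ≤
      (Finset.univ.filter fun v => G.degree v = 3).card := by
  unfold wholeChk at h
  simp only [Bool.and_eq_true, decide_eq_true_eq, List.all_eq_true, List.mem_range] at h
  have hs := whole_surj R hG hw hz hp (by tauto)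
  rw [whole_card R hz hs 2, whole_card R hz hs 3]
  tauto

end

end Pool.Agent.Helper68.AW
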