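import Pool.Agent.Helper68.AV.Plus
import Pool.Agent.Helper68.AV.Near
import Pool.Agent.Helper68.AW.Explore
import Pool.Agent.Helper68.AW.RedLeaf
import Pool.Agent.Helper68.AW.Walk
import Pool.Agent.Helper68.AW.Whole
import Pool.Agent.Helper68.AW.Apply
import Pool.Agent.Helper68.AW.ApplyB
import Pool.Agent.Helper68.AW.CountB
import Pool.Agent.Helper68.AW.FastSound
import Pool.Agent.Helper68.AW.CertNN
import Pool.Agent.Helper68.AW.CertPP
import Pool.Agent.Helper68.AW.CertSS
import Pool.Agent.Helper68.AW.CertTP
import Pool.Agent.Helper68.AW.CertTT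

/-!
# Project AW (MP_028d9b_co): the sharp bound
-/

set_option autoImplicit false

namespace Pool.Agent.Helper68.AW

open Pool.Agent.Helper52.AH Pool.Agent.Helper31.AH Pool.Agent.Helper68.AV

/-- `Col3` and `Col` are the same -/
theorem col3_iff {V : Type} (G : SimpleGraph V) : Col3 G ↔ Col G := by
  constructor
  · rintro ⟨c, hcs, hcp⟩
    exact ⟨Sym2.lift ⟨c, hcs⟩, fun u v w h1 h2 hne => hcp u v w h1 h2 hne⟩
  · rintro ⟨c, hc⟩
    exact ⟨fun v w => c s(v, w), fun v w => congrArg c Sym2.eq_swap,
      fun v w w' h1 h2 hne => hc v w w' h1 h2 hne⟩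

theorem crit_iff {V : Type} (G : SimpleGraph V) :
    Crit G ↔ ¬ Col G ∧ ∀ e ∈ G.edgeSet, Col (G.deleteEdges {e}) := by
  constructor
  · rintro ⟨h1, h2⟩
    refine ⟨fun h => h1 ((col3_iff G).2 h), ?_⟩
    intro e he
    induction e with
    | h u v =>
      obtain ⟨c, hc⟩ := h2 u v he
      exact (col3_iff _).1 ⟨c, hc.symm, hc.prop⟩
  · rintro ⟨h1, h2⟩
    refine ⟨fun h => h1 ((col3_iff G).1 h), ?_⟩
    intro u v h
    obtain ⟨c, hcs, hcp⟩ := (col3_iff _).2 (h2 s(u, v) h)
    exact ⟨c, hcs, hcp⟩

/-- the check of a leaf is sound -/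
theorem leaf_sound {V : Type} [Fintype V] [DecidableEq V] {G : SimpleGraph V} [DecidableRel G.Adj]
    (R : Rot G) (hG : G.Connected) (hP : R.Planar) (hC : Crit G) (p : Pat) (b : ℕ → G.Dart)
    (h : leafC p = true) (hw : Wf p) (hz : Rz R p b) :
    4 * (Finset.univ.filter fun v => G.degree v = 2).card ≤
      (Finset.univ.filter fun v => G.degree v = 3).card := by
  unfold leafC at h
  rw [Bool.or_eq_true, Bool.or_eq_true, Bool.and_eq_true] at h
  rcases h with h | ⟨h1, h2⟩ | h
  · exact (red_leaf R hG hP hC fast_sound hw hz h).elim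
  · exact whole_leaf_pos R hG hw hz (blt_iff.1 h1) h2
  · exact (genus_leaf R hG hP hw hz h).elim

/-- plane critical graphs: the sharp bound -/
theorem plane_crit {V : Type} [Fintype V] [DecidableEq V] {G : SimpleGraph V} [DecidableRel G.Adj]
    (R : Rot G) (hG : G.Connected) (hP : R.Planar) (hd : ∀ v, G.degree v ≤ 3) (hC : Crit G) :
    4 * (Finset.univ.filter fun v => G.degree v = 2).card ≤
      (Finset.univ.filter fun v => G.degree v = 3).card := by
  classical
  by_contra hno
  have hchk := leaf_sound R hG hP hC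
  have hd' : ∀ v, dg G v ≤ 3 := fun v => by rw [dg_eq]; exact hd v
  have h5 := h5_of hC hd'
  have h2 := h2_ofB R hd' h5 (root_sound R hchk 80 Kn.two Kn.two Kn.any cert_two hno)
  have hcomb := hcomb_of R hd' h5 (root_sound R hchk 80 Kn.two near near cert_comb hno)
  have hclaw := hclaw_of R hd' h5 (root_sound R hchk 80 near near near cert_claw hno)
  have hPP := hPP_of R hd' h5 (root_sound R hchk 80 pair pair Kn.any cert_PP hno)
  have hSS := hT2SS_of R hd' h5 (root_sound R hchk 80 T2 near near cert_SS hno)
  have hTP := hT2P_of R hd' h5 (root_sound R hchk 80 (Kn.node pair Kn.any) near near cert_TP hno)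
  have hTT := hT2T2_of R hd' h5 (root_sound R hchk 80 T2 T2 Kn.any cert_TT hno)
  have h := countB G hd' h5 h2 hcomb hclaw hPP hSS hTP hTT
  have e1 : (Finset.univ.filter fun v => G.degree v = 2) = Finset.univ.filter fun v => dg G v = 2 := by
    ext v
    simp only [Finset.mem_filter, Finset.mem_univ, true_and, dg_eq]
  have e2 : (Finset.univ.filter fun v => G.degree v = 3) = Finset.univ.filter fun v => dg G v = 3 := by
    ext v
    simp only [Finset.mem_filter, Finset.mem_univ, true_and, dg_eq]
  rw [e1, e2] at hno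
  exact hno h

theorem card_five {V : Type} [Fintype V] [DecidableEq V] {G : SimpleGraph V} [DecidableRel G.Adj]
    (h : 4 * (Finset.univ.filter fun v => G.degree v = 2).card ≤
      (Finset.univ.filter fun v => G.degree v = 3).card) :
    5 * (Finset.univ.filter fun v => G.degree v = 2).card ≤ Fintype.card V := by
  have h1 : Disjoint (Finset.univ.filter fun v => G.degree v = 2)
      (Finset.univ.filter fun v => G.degree v = 3) := by
    rw [Finset.disjoint_left]
    intro v hv hw
    rw [Finset.mem_filter] at hv hw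
    omega
  have h2 := Finset.card_le_univ ((Finset.univ.filter fun v => G.degree v = 2) ∪
    (Finset.univ.filter fun v => G.degree v = 3))
  rw [Finset.card_union_of_disjoint h1] at h2
  omega

end Pool.Agent.Helper68.AW
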