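import Pool.Agent.Helper68.AW.Fast

/-!
# Project AW (MP_028d9b_co): the check of a leaf, in parts
-/

set_option autoImplicit false

namespace Pool.Agent.Helper68.AW

/-- the check of a leaf -/
def leafC (p : Pat) : Bool := redChk fast p || ((Nat.blt 0 p.length && wholeChk p) || genusChk p)

/-- the check of the leaves of class `k` -/
def part (cl : Pat → ℕ) (k : ℕ) (p : Pat) : Bool := bif Nat.beq (cl p) k then leafC p else true

/-- all patterns with the knowledge `K0, K1, K2` at a vertex of degree three -/
def root (chk : Pat → Bool) (K0 K1 K2 : Kn) : Bool :=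
  explore chk 80 [((0, 0), K0), ((0, 1), K1), ((0, 2), K2)] [[none, none, none]]

/-- a number for every pattern -/
def hsh (p : Pat) : ℕ := (rings p).foldl (fun h q => Nat.add h (Nat.mul q.1 (Nat.add q.2 1))) 0

/-- classes: `a` classes for the patterns with `r` ring slots, `b` classes for the others -/
def cls (r a b : ℕ) (p : Pat) : ℕ :=
  bif Nat.beq (rings p).length r then Nat.mod (hsh p) a else Nat.add a (Nat.mod (hsh p) b)

end Pool.Agent.Helper68.AW
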