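import Pool.Agent.Helper68.AW.Fast

/-!
# Project AW (MP_028d9b_co): sets of states as numbers
-/

set_option autoImplicit false

namespace Pool.Agent.Helper68.AW

open Pool.Agent.Helper52.AH Pool.Agent.Helper31.AH Pool.Agent.Helper68.AV

/-- the number of the state `s` of `r` positions -/
def cd : ℕ → (ℕ → Fin 3) → ℕ
  | 0, _ => 0
  | r + 1, s => cd r s + (s r).val * 3 ^ r

/-- the state `s` is in the set `A` -/
def Mem (r A : ℕ) (s : ℕ → Fin 3) : Prop := A.testBit (64 + cd r s) = true

theorem cd_lt (r : ℕ) (s : ℕ → Fin 3) : cd r s < 3 ^ r := by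
  induction r with
  | zero => simp [cd]
  | succ r ih =>
    have h1 : (s r).val ≤ 2 := Nat.lt_succ_iff.1 (s r).isLt
    have h2 : (s r).val * 3 ^ r ≤ 2 * 3 ^ r := Nat.mul_le_mul_right _ h1
    rw [cd, pow_succ]
    omega

theorem cd_congr {r : ℕ} {s s' : ℕ → Fin 3} (h : ∀ t, t < r → s t = s' t) : cd r s = cd r s' := by
  induction r with
  | zero => rfl
  | succ r ih =>
    rw [cd, cd, ih fun t ht => h t (by omega), h r (by omega)]

theorem cd_update {r t : ℕ} (ht : t < r) (s : ℕ → Fin 3) (c : Fin 3) :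
    cd r (Function.update s t c) + (s t).val * 3 ^ t = cd r s + c.val * 3 ^ t := by
  induction r with
  | zero => omega
  | succ r ih =>
    rw [cd, cd]
    by_cases h : t = r
    · subst h
      have h1 : cd t (Function.update s t c) = cd t s :=
        cd_congr fun u hu => Function.update_of_ne hu.ne _ _
      rw [h1, Function.update_self]
      omega
    · have h1 := ih (by omega)
      rw [Function.update_of_ne (Ne.symm h)]
      omega

theorem force_eq {β : Type} (n : ℕ) (f : ℕ → β) : force n f = f n := by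
  cases n <;> rfl

/-- all bits are between `64` and `64 + q` -/
def Supp (X q : ℕ) : Prop := ∀ i, X.testBit i = true → 64 ≤ i ∧ i < 64 + q

theorem shl_bit {X q : ℕ} (hX : Supp X q) {a : ℕ} (ha : a < q) (c d : ℕ) :
    (Nat.shiftLeft X (c * q)).testBit (64 + a + d * q) = (decide (c = d) && X.testBit (64 + a)) := by
  change (X <<< (c * q)).testBit (64 + a + d * q) = _
  rw [Nat.testBit_shiftLeft]
  rcases lt_trichotomy c d with h | h | h
  · have h1 : (c + 1) * q ≤ d * q := Nat.mul_le_mul_right _ h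
    rw [add_mul, one_mul] at h1
    have h2 : X.testBit (64 + a + d * q - c * q) = false := by
      rw [← Bool.not_eq_true]
      intro hc
      have := (hX _ hc).2
      omega
    rw [h2, decide_eq_false h.ne]
    simp
  · subst h
    have h1 : 64 + a + c * q - c * q = 64 + a := by omega
    rw [h1, decide_eq_true (by omega : 64 + a + c * q ≥ c * q)]
    simp
  · have h1 : (d + 1) * q ≤ c * q := Nat.mul_le_mul_right _ h
    rw [add_mul, one_mul] at h1
    rw [decide_eq_false h.ne']
    by_cases h3 : 64 + a + d * q ≥ c * q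
    · have h2 : X.testBit (64 + a + d * q - c * q) = false := by
        rw [← Bool.not_eq_true]
        intro hc
        have := (hX _ hc).1
        omega
      rw [h2]
      simp
    · rw [decide_eq_false h3]
      simp

theorem supp_shl {X q : ℕ} (hX : Supp X q) {c : ℕ} (hc : c ≤ 2) :
    Supp (Nat.shiftLeft X (c * q)) (3 * q) := by
  intro i hi
  change (X <<< (c * q)).testBit i = true at hi
  rw [Nat.testBit_shiftLeft, Bool.and_eq_true, decide_eq_true_eq] at hi
  obtain ⟨h1, h2⟩ := hi
  have h3 := hX _ h2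
  have h4 : c * q ≤ 2 * q := Nat.mul_le_mul_right _ hc
  omega

theorem supp_or {X Y q : ℕ} (hX : Supp X q) (hY : Supp Y q) : Supp (Nat.lor X Y) q := by
  intro i hi
  change (X ||| Y).testBit i = true at hi
  rw [Nat.testBit_or, Bool.or_eq_true] at hi
  exact hi.elim (hX i) (hY i)

theorem supp_mono {X q q' : ℕ} (hX : Supp X q) (h : q ≤ q') : Supp X q' := by
  intro i hi
  have := hX i hi
  omega

theorem supp_three {X q : ℕ} (hX : Supp X q) :
    Supp (Nat.lor X (Nat.lor (Nat.shiftLeft X q) (Nat.shiftLeft X (2 * q)))) (3 * q) := by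
  refine supp_or (supp_mono hX (by omega)) (supp_or ?_ (supp_shl hX le_rfl))
  have := supp_shl hX (c := 1) (by omega)
  rwa [one_mul] at this

theorem three_bit {X q : ℕ} (hX : Supp X q) {a : ℕ} (ha : a < q) {d : ℕ} (hd : d < 3) :
    (Nat.lor X (Nat.lor (Nat.shiftLeft X q) (Nat.shiftLeft X (2 * q)))).testBit (64 + a + d * q) =
      X.testBit (64 + a) := by
  have e0 := shl_bit hX ha 0 d
  have e1 := shl_bit hX ha 1 d
  have e2 := shl_bit hX ha 2 d
  rw [zero_mul] at e0
  rw [one_mul] at e1
  change (X ||| (Nat.shiftLeft X q ||| Nat.shiftLeft X (2 * q))).testBit (64 + a + d * q) = _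
  rw [Nat.testBit_or, Nat.testBit_or, e1, e2]
  have e0' : X.testBit (64 + a + d * q) = (decide (0 = d) && X.testBit (64 + a)) := e0
  rw [e0']
  interval_cases d <;> simp

theorem supp_full (r : ℕ) : Supp (full r) (3 ^ r) := by
  induction r with
  | zero =>
    intro i hi
    have h1 : full 0 = 2 ^ 64 := by norm_num [full]
    rw [h1, Nat.testBit_two_pow, decide_eq_true_eq] at hi
    omega
  | succ r ih =>
    rw [pow_succ, mul_comm]
    exact supp_three ih

theorem full_mem (r : ℕ) (s : ℕ → Fin 3) : Mem r (full r) s := by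
  induction r with
  | zero =>
    have h1 : full 0 = 2 ^ 64 := by norm_num [full]
    rw [Mem, h1, Nat.testBit_two_pow]
    simp [cd]
  | succ r ih =>
    rw [Mem, cd, ← add_assoc]
    have h := three_bit (supp_full r) (cd_lt r s) (s r).isLt
    exact h.trans ih

theorem supp_dm (r t : ℕ) {c : ℕ} (hc : c ≤ 2) : Supp (dm r t c) (3 ^ r) := by
  induction r with
  | zero =>
    intro i hi
    have h1 : dm 0 t c = 0 := rfl
    rw [h1, Nat.zero_testBit] at hi
    cases hi
  | succ r ih =>
    rw [pow_succ, mul_comm, dm]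
    rcases hq : Nat.beq t r with _ | _
    · exact supp_three ih
    · exact supp_shl (supp_full r) hc

theorem dm_mem {r t : ℕ} (ht : t < r) (c : Fin 3) (s : ℕ → Fin 3) :
    Mem r (dm r t c.val) s ↔ s t = c := by
  have hc : c.val ≤ 2 := Nat.lt_succ_iff.1 c.isLt
  induction r with
  | zero => omega
  | succ r ih =>
    rw [Mem, cd, ← add_assoc, dm]
    rcases hq : Nat.beq t r with _ | _
    · have hne : t ≠ r := Nat.ne_of_beq_eq_false hq
      have h := three_bit (supp_dm r t hc) (cd_lt r s) (s r).isLt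
      have ht' : t < r := by omega
      exact (Eq.congr h rfl).trans (ih ht')
    · have he : t = r := Nat.eq_of_beq_eq_true hq
      subst he
      have h := shl_bit (supp_full t) (cd_lt t s) c.val (s t).val
      have hf : (full t).testBit (64 + cd t s) = true := full_mem t s
      rw [hf, Bool.and_true] at h
      refine (Eq.congr h rfl).trans ?_
      rw [decide_eq_true_eq]
      constructor
      · intro h
        exact Fin.ext h.symm
      · intro h
        rw [h]

theorem mem_salt {r A : ℕ} {s : ℕ → Fin 3} : Mem r (salt A) s ↔ Mem r A s := by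
  unfold Mem salt
  change (A ||| A % 2305843009213693951).testBit (64 + cd r s) = true ↔ _
  have h1 : (A % 2305843009213693951).testBit (64 + cd r s) = false := by
    apply Nat.testBit_lt_two_pow
    have h2 : A % 2305843009213693951 < 2305843009213693951 := Nat.mod_lt _ (by norm_num)
    have h3 : (2 : ℕ) ^ 64 ≤ 2 ^ (64 + cd r s) := Nat.pow_le_pow_right (by norm_num) (by omega)
    have h4 : (2305843009213693951 : ℕ) ≤ 2 ^ 64 := by norm_num
    omega
  rw [Nat.testBit_or, h1, Bool.or_false]

theorem mem_land {r A B : ℕ} {s : ℕ → Fin 3} : Mem r (Nat.land A B) s ↔ Mem r A s ∧ Mem r B s := by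
  unfold Mem
  change (A &&& B).testBit (64 + cd r s) = true ↔ _
  rw [Nat.testBit_and, Bool.and_eq_true]

theorem mem_lor {r A B : ℕ} {s : ℕ → Fin 3} : Mem r (Nat.lor A B) s ↔ Mem r A s ∨ Mem r B s := by
  unfold Mem
  change (A ||| B).testBit (64 + cd r s) = true ↔ _
  rw [Nat.testBit_or, Bool.or_eq_true]

theorem mem_xor {r A B : ℕ} {s : ℕ → Fin 3} : Mem r (Nat.xor A B) s ↔ ¬ (Mem r A s ↔ Mem r B s) := by
  unfold Mem
  change (A ^^^ B).testBit (64 + cd r s) = true ↔ _
  rw [Nat.testBit_xor]
  rcases A.testBit (64 + cd r s) with _ | _ <;> rcases B.testBit (64 + cd r s) with _ | _ <;> simp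

/-- the position `x` is right -/
structure PsOk (r : ℕ) (bl : ℕ → ℕ) (x : Ps) : Prop where
  lt : x.t < r
  b : x.b = bl x.t
  q : x.q = 3 ^ x.t
  m0 : x.m0 = dm r x.t 0
  m1 : x.m1 = dm r x.t 1
  m2 : x.m2 = dm r x.t 2

theorem mkPs_cons (r t b : ℕ) (bl : List ℕ) :
    mkPs r t (b :: bl) = ⟨t, b, 3 ^ t, dm r t 0, dm r t 1, dm r t 2⟩ :: mkPs r (t + 1) bl := by
  simp only [mkPs, force_eq]

theorem mkPs_gen (r : ℕ) (bl : List ℕ) : ∀ t : ℕ,
    (∀ x ∈ mkPs r t bl, t ≤ x.t ∧ x.t < t + bl.length ∧ x.b = bl.getD (x.t - t) 0 ∧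
      x.q = 3 ^ x.t ∧ x.m0 = dm r x.t 0 ∧ x.m1 = dm r x.t 1 ∧ x.m2 = dm r x.t 2) ∧
    (mkPs r t bl).Pairwise (fun x y => x.t < y.t) ∧ (mkPs r t bl).length = bl.length ∧
    ∀ u, t ≤ u → u < t + bl.length → ∃ x ∈ mkPs r t bl, x.t = u := by
  induction bl with
  | nil =>
    intro t
    refine ⟨fun x hx => ?_, ?_, rfl, fun u h1 h2 => ?_⟩
    · simp [mkPs] at hx
    · simp [mkPs]
    · simp only [List.length_nil] at h2
      omega
  | cons b bl ih =>
    intro t
    obtain ⟨i1, i2, i3, i4⟩ := ih (t + 1)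
    rw [mkPs_cons]
    refine ⟨fun x hx => ?_, ?_, ?_, fun u h1 h2 => ?_⟩
    · rw [List.mem_cons] at hx
      rcases hx with rfl | hx
      · refine ⟨le_rfl, by simp, by simp, rfl, rfl, rfl, rfl⟩
      · obtain ⟨j1, j2, j3, j4⟩ := i1 x hx
        refine ⟨by omega, by rw [List.length_cons]; omega, ?_, j4⟩
        rw [j3]
        have h5 : x.t - t = (x.t - (t + 1)) + 1 := by omega
        rw [h5, List.getD_cons_succ]
    · rw [List.pairwise_cons]
      refine ⟨fun y hy => ?_, i2⟩
      have := (i1 y hy).1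
      change t < y.t
      omega
    · rw [List.length_cons, i3, List.length_cons]
    · by_cases h3 : u = t
      · subst h3
        exact ⟨_, List.mem_cons_self, rfl⟩
      · rw [List.length_cons] at h2
        obtain ⟨x, hx, hxu⟩ := i4 u (by omega) (by omega)
        exact ⟨x, List.mem_cons_of_mem _ hx, hxu⟩

theorem mkPs_ok (bl : List ℕ) : (∀ x ∈ mkPs bl.length 0 bl, PsOk bl.length (fun t => bl.getD t 0) x) ∧
    (mkPs bl.length 0 bl).Pairwise (fun x y => x.t < y.t) ∧ (mkPs bl.length 0 bl).length = bl.length ∧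
    ∀ t, t < bl.length → ∃ x ∈ mkPs bl.length 0 bl, x.t = t := by
  obtain ⟨i1, i2, i3, i4⟩ := mkPs_gen bl.length bl 0
  refine ⟨fun x hx => ?_, i2, i3, fun t ht => i4 t (Nat.zero_le _) (by omega)⟩
  obtain ⟨-, j2, j3, j4, j5, j6, j7⟩ := i1 x hx
  exact ⟨by omega, by simpa using j3, j4, j5, j6, j7⟩

/-- the change of the state `s` at the positions `X` for the colour `0` -/
def flp (s : ℕ → Fin 3) (X : ℕ → Bool) (t : ℕ) : Fin 3 := if X t then swp 0 (s t) else s t

end Pool.Agent.Helper68.AW
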