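import Pool.Agent.Helper68.AW.Defs

/-!
# Powers of the rotation at a vertex, ranges of the slots
-/

set_option autoImplicit false

namespace Pool.Agent.Helper68.AW

open Pool.Agent.Helper52.AH Pool.Agent.Helper31.AH Pool.Agent.Helper68.AV

section

variable {V : Type} [Fintype V] [DecidableEq V] {G : SimpleGraph V} [DecidableRel G.Adj]

theorem fst_pow (R : Rot G) (k : ℕ) (d : G.Dart) : ((R.σ ^ k) d).fst = d.fst := by
  induction k with
  | zero => rfl
  | succ k ih => rw [pow_succ', Equiv.Perm.mul_apply, R.fst_eq, ih]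

theorem mem_per (R : Rot G) (d : G.Dart) : d ∈ Function.periodicPts R.σ :=
  R.σ.injective.mem_periodicPts d

theorem exists_lt_period (R : Rot G) (d d' : G.Dart) (h : d'.fst = d.fst) :
    ∃ k, k < Function.minimalPeriod R.σ d ∧ (R.σ ^ k) d = d' := by
  obtain ⟨i, -, hi⟩ := (R.cyc d d' h.symm).exists_pow_eq'
  refine ⟨i % Function.minimalPeriod R.σ d, Nat.mod_lt _
    (Function.minimalPeriod_pos_of_mem_periodicPts (mem_per R d)), ?_⟩
  rw [← Equiv.Perm.iterate_eq_pow, Function.iterate_mod_minimalPeriod_eq,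
    Equiv.Perm.iterate_eq_pow]
  exact hi

theorem period (R : Rot G) (d : G.Dart) : Function.minimalPeriod R.σ d = G.degree d.fst := by
  rw [← G.dart_fst_fiber_card_eq_degree, ← Finset.card_range (Function.minimalPeriod R.σ d)]
  apply Finset.card_bij (fun k _ => (R.σ ^ k) d)
  · intro k _
    rw [Finset.mem_filter]
    exact ⟨Finset.mem_univ _, fst_pow R k d⟩
  · intro k hk l hl h
    rw [← Equiv.Perm.iterate_eq_pow, ← Equiv.Perm.iterate_eq_pow] at h
    exact Function.iterate_injOn_Iio_minimalPeriod (Finset.mem_range.1 hk) (Finset.mem_range.1 hl) h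
  · intro d' hd'
    rw [Finset.mem_filter] at hd'
    obtain ⟨k, hk, h⟩ := exists_lt_period R d d' hd'.2
    exact ⟨k, Finset.mem_range.2 hk, h⟩

theorem pow_deg (R : Rot G) (d : G.Dart) : (R.σ ^ G.degree d.fst) d = d := by
  rw [← period R d, ← Equiv.Perm.iterate_eq_pow]
  exact Function.iterate_minimalPeriod

theorem pow_inj (R : Rot G) (d : G.Dart) {k l : ℕ} (hk : k < G.degree d.fst)
    (hl : l < G.degree d.fst) (h : (R.σ ^ k) d = (R.σ ^ l) d) : k = l := by
  rw [← period R d] at hk hl
  rw [← Equiv.Perm.iterate_eq_pow, ← Equiv.Perm.iterate_eq_pow] at h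
  exact Function.iterate_injOn_Iio_minimalPeriod hk hl h

theorem pow_surj (R : Rot G) (d d' : G.Dart) (h : d'.fst = d.fst) :
    ∃ k, k < G.degree d.fst ∧ (R.σ ^ k) d = d' := by
  obtain ⟨k, hk, h'⟩ := exists_lt_period R d d' h
  exact ⟨k, period R d ▸ hk, h'⟩

theorem pow_mod (R : Rot G) (d : G.Dart) (k : ℕ) :
    (R.σ ^ (k % G.degree d.fst)) d = (R.σ ^ k) d := by
  rw [← period R d, ← Equiv.Perm.iterate_eq_pow, ← Equiv.Perm.iterate_eq_pow,
    Function.iterate_mod_minimalPeriod_eq]

end

theorem src_range {p : Pat} {i k j l : ℕ} (h : slot p i k = some (j, l)) :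
    i < p.length ∧ k < len p i := by
  unfold slot at h
  have hk : k < len p i := by
    by_contra hk
    rw [List.getD_eq_default _ _ (not_lt.1 hk)] at h
    exact absurd h (by simp)
  refine ⟨?_, hk⟩
  by_contra hi
  unfold len at hk
  rw [List.getD_eq_default _ _ (not_lt.1 hi)] at hk
  simp at hk

theorem tgt_range {p : Pat} (hw : Wf p) {i k j l : ℕ} (h : slot p i k = some (j, l)) :
    j < p.length ∧ l < len p j :=
  src_range (hw.sym i k j l h)

end Pool.Agent.Helper68.AW
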